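import Pool.Agent.MP_d13902_co.Defs

set_option autoImplicit false

open Finset
open scoped Classical

set_option linter.unusedSectionVars false

namespace Pool.Agent.MP_d13902_co

section Cap

variable {V : Type} [Fintype V] [DecidableEq V]

private theorem cap_step (f : Finset V → ℕ) (hf : IsRankFn f) (c : V → ℝ) (U : Finset V)
    (x0 : V → ℝ) (hP : ∀ X : Finset V, ∑ v ∈ X, x0 v ≤ f X)
    (hc : ∀ v, v ∉ U → x0 v ≤ c v) :
    ∃ x : V → ℝ, (∀ v, x0 v ≤ x v) ∧ (∀ X : Finset V, ∑ v ∈ X, x v ≤ f X) ∧
      (∀ v, v ∉ U → x v ≤ c v) ∧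
      ∃ T : Finset V, U ⊆ T ∧ (f T : ℝ) + ∑ v ∈ Tᶜ, c v ≤ ∑ v, x v := by
  let K : Set (V → ℝ) := {x | (∀ v, x0 v ≤ x v) ∧ (∀ X : Finset V, ∑ v ∈ X, x v ≤ f X) ∧
      ∀ v, v ∉ U → x v ≤ c v}
  have hKc : IsClosed K := by
    have e : K = (⋂ v, {x : V → ℝ | x0 v ≤ x v}) ∩ ((⋂ X : Finset V, {x | ∑ v ∈ X, x v ≤ (f X : ℝ)}) ∩
        ⋂ v, ⋂ (_ : v ∉ U), {x | x v ≤ c v}) := by
      ext x
      simp only [K, Set.mem_inter_iff, Set.mem_iInter, Set.mem_ofPred_eq]
    rw [e]
    refine IsClosed.inter (isClosed_iInter fun v => ?_) (IsClosed.inter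
      (isClosed_iInter fun X => ?_) (isClosed_iInter fun v => isClosed_iInter fun _ => ?_))
    · exact isClosed_le continuous_const (continuous_apply v)
    · exact isClosed_le (continuous_finsetSum _ fun v _ => continuous_apply v) continuous_const
    · exact isClosed_le (continuous_apply v) continuous_const
  have hKcomp : IsCompact K := by
    refine IsCompact.of_isClosed_subset (isCompact_Icc (a := x0) (b := fun v => (f {v} : ℝ)))
      hKc ?_
    intro x hx
    refine ⟨fun v => hx.1 v, fun v => ?_⟩
    have := hx.2.1 {v}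
    simpa using this
  have hKne : K.Nonempty := ⟨x0, fun _ => le_rfl, hP, hc⟩
  obtain ⟨x, hxK, hmax⟩ := hKcomp.exists_isMaxOn hKne
    (f := fun x : V → ℝ => ∑ v, x v)
    (continuous_finsetSum _ fun v _ => continuous_apply v).continuousOn
  refine ⟨x, hxK.1, hxK.2.1, hxK.2.2, ?_⟩
  -- every unsaturated element lies in a tight set
  have htight : ∀ v, (v ∈ U ∨ x v < c v) → ∃ X : Finset V, v ∈ X ∧ ∑ u ∈ X, x u = f X := by
    intro v hv
    by_contra hno
    push Not at hno
    obtain ⟨X0, -, hX0⟩ := Finset.exists_min_image (univ : Finset (Finset V))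
      (fun X => if v ∈ X then (f X : ℝ) - ∑ u ∈ X, x u else 1) ⟨univ, Finset.mem_univ _⟩
    set m : ℝ := (if v ∈ X0 then (f X0 : ℝ) - ∑ u ∈ X0, x u else 1) with hm
    have hmpos : 0 < m := by
      rw [hm]
      split_ifs with h1
      · have h2 := hno X0 h1
        have h3 := hxK.2.1 X0
        have := lt_of_le_of_ne h3 h2
        linarith
      · norm_num
    obtain ⟨ε, hεpos, hεm, hεc⟩ : ∃ ε : ℝ, 0 < ε ∧ ε ≤ m ∧ (v ∉ U → ε ≤ c v - x v) := by
      by_cases hvU : v ∈ U
      · exact ⟨m, hmpos, le_rfl, fun h => absurd hvU h⟩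
      · have : x v < c v := hv.resolve_left hvU
        exact ⟨min m (c v - x v), lt_min hmpos (by linarith), min_le_left _ _,
          fun _ => min_le_right _ _⟩
    have hyK : Function.update x v (x v + ε) ∈ K := by
      refine ⟨fun u => ?_, fun X => ?_, fun u hu => ?_⟩
      · by_cases huv : u = v
        · subst huv
          rw [Function.update_self]
          have := hxK.1 u
          linarith
        · rw [Function.update_of_ne huv]
          exact hxK.1 u
      · by_cases hvX : v ∈ X
        · have h1 : ∑ u ∈ X, Function.update x v (x v + ε) u = ∑ u ∈ X, x u + ε := by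
            rw [← Finset.add_sum_erase _ _ hvX, ← Finset.add_sum_erase (f := x) _ hvX,
              Function.update_self]
            have : ∑ u ∈ X.erase v, Function.update x v (x v + ε) u = ∑ u ∈ X.erase v, x u :=
              Finset.sum_congr rfl fun u hu => by
                rw [Function.update_of_ne (Finset.ne_of_mem_erase hu)]
            rw [this]
            ring
          rw [h1]
          have h2 := hX0 X (Finset.mem_univ _)
          simp only [hvX, if_true] at h2
          linarith
        · have h1 : ∑ u ∈ X, Function.update x v (x v + ε) u = ∑ u ∈ X, x u :=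
            Finset.sum_congr rfl fun u hu => by
              have huv : u ≠ v := by
                rintro rfl
                exact hvX hu
              rw [Function.update_of_ne huv]
          rw [h1]
          exact hxK.2.1 X
      · by_cases huv : u = v
        · subst huv
          rw [Function.update_self]
          have := hεc hu
          linarith
        · rw [Function.update_of_ne huv]
          exact hxK.2.2 u hu
    have h1 := hmax hyK
    have h2 : ∑ u, Function.update x v (x v + ε) u = ∑ u, x u + ε := by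
      rw [← Finset.add_sum_erase _ _ (Finset.mem_univ v),
        ← Finset.add_sum_erase (f := x) _ (Finset.mem_univ v), Function.update_self]
      have : ∑ u ∈ univ.erase v, Function.update x v (x v + ε) u = ∑ u ∈ univ.erase v, x u :=
        Finset.sum_congr rfl fun u hu => by
          rw [Function.update_of_ne (Finset.ne_of_mem_erase hu)]
      rw [this]
      ring
    have h3 : ∑ u, Function.update x v (x v + ε) u ≤ ∑ u, x u := h1
    rw [h2] at h3
    linarith
  -- tight sets are closed under union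
  have hunion : ∀ X Y : Finset V, ∑ u ∈ X, x u = f X → ∑ u ∈ Y, x u = f Y →
      ∑ u ∈ X ∪ Y, x u = f (X ∪ Y) := by
    intro X Y hX hY
    have h1 : ∑ u ∈ X ∪ Y, x u + ∑ u ∈ X ∩ Y, x u = ∑ u ∈ X, x u + ∑ u ∈ Y, x u :=
      Finset.sum_union_inter
    have h2 := hxK.2.1 (X ∪ Y)
    have h3 := hxK.2.1 (X ∩ Y)
    have h4 : (f (X ∪ Y) : ℝ) + f (X ∩ Y) ≤ f X + f Y := by exact_mod_cast hf.submod X Y
    linarith
  obtain ⟨T, hT, hTmax⟩ := Finset.exists_max_image
    ((univ : Finset (Finset V)).filter (fun X => ∑ u ∈ X, x u = f X)) Finset.card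
    ⟨∅, by simp [hf.empty]⟩
  simp only [Finset.mem_filter, Finset.mem_univ, true_and] at hT hTmax
  have hsub : ∀ X : Finset V, ∑ u ∈ X, x u = f X → X ⊆ T := by
    intro X hX
    have h1 := hTmax (T ∪ X) (hunion T X hT hX)
    have h2 : T ∪ X = T := (Finset.eq_of_subset_of_card_le Finset.subset_union_left h1).symm
    rw [← h2]
    exact Finset.subset_union_right
  have hmemT : ∀ v, (v ∈ U ∨ x v < c v) → v ∈ T := by
    intro v hv
    obtain ⟨X, hvX, hX⟩ := htight v hv
    exact hsub X hX hvX
  refine ⟨T, fun v hv => hmemT v (Or.inl hv), ?_⟩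
  have h1 : ∑ v ∈ Tᶜ, c v = ∑ v ∈ Tᶜ, x v := by
    refine Finset.sum_congr rfl fun v hv => ?_
    rw [Finset.mem_compl] at hv
    have h2 : v ∉ U := fun h => hv (hmemT v (Or.inl h))
    have h3 : ¬ x v < c v := fun h => hv (hmemT v (Or.inr h))
    have h4 := hxK.2.2 v h2
    linarith
  rw [h1, ← hT, Finset.sum_add_sum_compl]

end Cap

/-! ## Block CAP: polymatroid base with small overflow in all weight levels simultaneously -/
theorem capacity {V : Type} [Fintype V] [DecidableEq V] (f : Finset V → ℕ) (hf : IsRankFn f)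
    (r : ℕ) (h : f univ = r) (c : V → ℝ) (hc : ∀ v, 0 ≤ c v) (w : V → ℕ) (g : ℕ → ℝ)
    (hg : ∀ θ : ℕ, ∀ X : Finset V, (∀ v, w v ≤ θ → v ∈ X) → g θ ≤ f X + ∑ v ∈ Xᶜ, c v) :
    ∃ z : V → ℝ, (∀ v, 0 ≤ z v) ∧ (∀ X : Finset V, ∑ v ∈ X, z v ≤ f X) ∧ ∑ v, z v = r ∧
      ∀ θ : ℕ, ∑ v with θ < w v, max (z v - c v) 0 ≤ r - g θ := by
  have hmono : ∀ (z x : V → ℝ) (θ : ℕ), (∀ v, z v ≤ x v) →
      ∑ v with θ < w v, max (z v - c v) 0 ≤ ∑ v, z v - g θ →
      ∑ v with θ < w v, max (x v - c v) 0 ≤ ∑ v, x v - g θ := by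
    intro z x θ hzx hz
    have h1 : ∑ v with θ < w v, max (x v - c v) 0 ≤
        ∑ v with θ < w v, (max (z v - c v) 0 + (x v - z v)) := by
      refine Finset.sum_le_sum fun v _ => ?_
      have h2 := le_max_left (z v - c v) 0
      have h3 := le_max_right (z v - c v) 0
      have h4 := hzx v
      exact max_le (by linarith) (by linarith)
    have h2 : ∑ v with θ < w v, (x v - z v) ≤ ∑ v, (x v - z v) :=
      Finset.sum_le_sum_of_subset_of_nonneg (Finset.filter_subset _ _)
        (fun v _ _ => by have := hzx v; linarith)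
    rw [Finset.sum_add_distrib] at h1
    rw [Finset.sum_sub_distrib, Finset.sum_sub_distrib] at h2
    rw [Finset.sum_sub_distrib] at h1
    linarith
  have hP : ∀ n : ℕ, ∃ z : V → ℝ, (∀ v, 0 ≤ z v) ∧ (∀ X : Finset V, ∑ v ∈ X, z v ≤ f X) ∧
      (∀ v, n ≤ w v → z v ≤ c v) ∧
      ∀ θ, θ < n → ∑ v with θ < w v, max (z v - c v) 0 ≤ ∑ v, z v - g θ := by
    intro n
    induction n with
    | zero =>
      refine ⟨fun _ => 0, fun _ => le_rfl, fun X => ?_, fun v _ => hc v, fun θ hθ => ?_⟩
      · simp
      · exact absurd hθ (Nat.not_lt_zero _)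
    | succ n ih =>
      obtain ⟨z, hz0, hzP, hzc, hzθ⟩ := ih
      obtain ⟨x, hzx, hxP, hxc, T, hUT, hT⟩ := cap_step f hf c (univ.filter (fun v => w v ≤ n))
        z hzP (fun v hv => hzc v (by
          simp only [Finset.mem_filter, Finset.mem_univ, true_and, not_le] at hv
          omega))
      refine ⟨x, fun v => (hz0 v).trans (hzx v), hxP, fun v hv => hxc v ?_, fun θ hθ => ?_⟩
      · simp only [Finset.mem_filter, Finset.mem_univ, true_and, not_le]
        omega
      · rcases Nat.lt_succ_iff_lt_or_eq.mp hθ with hlt | heq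
        · exact hmono z x θ hzx (hzθ θ hlt)
        · subst heq
          have h1 : ∑ v with θ < w v, max (x v - c v) 0 = 0 := by
            refine Finset.sum_eq_zero fun v hv => ?_
            simp only [Finset.mem_filter, Finset.mem_univ, true_and] at hv
            have := hxc v (by
              simp only [Finset.mem_filter, Finset.mem_univ, true_and, not_le]
              exact hv)
            exact max_eq_right (by linarith)
          rw [h1]
          have h2 := hg θ T (fun v hv => hUT (by simpa using hv))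
          linarith
  obtain ⟨n, hn⟩ : ∃ n : ℕ, ∀ v, w v < n :=
    ⟨∑ v, w v + 1, fun v => Nat.lt_succ_of_le
      (Finset.single_le_sum (f := w) (fun _ _ => Nat.zero_le _) (Finset.mem_univ v))⟩
  obtain ⟨z, hz0, hzP, hzc, hzθ⟩ := hP n
  obtain ⟨x, hzx, hxP, hxc, T, hUT, hT⟩ := cap_step f hf c univ z hzP
    (fun v hv => absurd (Finset.mem_univ v) hv)
  have hTu : T = univ := Finset.univ_subset_iff.mp hUT
  subst hTu
  have hsum : ∑ v, x v = r := by
    apply le_antisymm
    · have := hxP univ
      rw [h] at this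
      exact this
    · rw [h] at hT
      simpa using hT
  refine ⟨x, fun v => (hz0 v).trans (hzx v), hxP, hsum, fun θ => ?_⟩
  rcases lt_or_ge θ n with hθ | hθ
  · rw [← hsum]
    exact hmono z x θ hzx (hzθ θ hθ)
  · have h1 : ∑ v with θ < w v, max (x v - c v) 0 = 0 := by
      refine Finset.sum_eq_zero fun v hv => ?_
      simp only [Finset.mem_filter, Finset.mem_univ, true_and] at hv
      exact absurd (hn v) (by omega)
    rw [h1]
    have h2 := hg θ univ (fun v _ => Finset.mem_univ v)
    rw [h] at h2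
    simp only [Finset.compl_univ, Finset.sum_empty, add_zero] at h2
    linarith

end Pool.Agent.MP_d13902_co
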