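import Pool.Agent.MP_d13902_co.Defs

set_option autoImplicit false

open Finset
open scoped Classical

namespace Pool.Agent.MP_d13902_co

/-- deterministic upper bound -/
theorem minrank_le_chromatic {n : ℕ} (G : SimpleGraph (Fin n)) :
    minrank G ≤ Gᶜ.chromaticNumber.toNat := by
  have hcol : Gᶜ.Colorable Gᶜ.chromaticNumber.toNat := by
    have h : Gᶜ.Colorable n := by
      have := Gᶜ.colorable_of_fintype
      simpa using this
    have hne : Gᶜ.chromaticNumber ≠ ⊤ := SimpleGraph.chromaticNumber_ne_top_iff_exists.2 ⟨n, h⟩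
    rw [← SimpleGraph.chromaticNumber_le_iff_colorable, ENat.natCast_toNat hne]
  obtain ⟨c⟩ := hcol
  set χ := Gᶜ.chromaticNumber.toNat with hχ
  let P : Matrix (Fin n) (Fin χ) ℝ := fun i a => if c i = a then 1 else 0
  let M : Matrix (Fin n) (Fin n) ℝ := P * P.transpose
  have hM : ∀ i j, M i j = if c i = c j then 1 else 0 := by
    intro i j
    change (P * P.transpose) i j = _
    rw [Matrix.mul_apply]
    have h1 : ∀ x, P i x * P.transpose x j =
        (if c i = x then (1 : ℝ) else 0) * (if c j = x then 1 else 0) := fun x => rfl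
    rw [Finset.sum_congr rfl (fun x _ => h1 x)]
    rw [Finset.sum_eq_single (c i)]
    · by_cases h : c i = c j
      · simp [h]
      · simp [h, Ne.symm h]
    · intro b _ hb
      simp [Ne.symm hb]
    · simp
  have hrank : M.rank ≤ χ := by
    calc M.rank ≤ P.rank := Matrix.rank_mul_le_left _ _
      _ ≤ Fintype.card (Fin χ) := Matrix.rank_le_card_width P
      _ = χ := Fintype.card_fin χ
  refine le_trans (Nat.sInf_le ⟨M, ?_, ?_, rfl⟩) hrank
  · intro i
    rw [hM]
    simp
  · intro i j hij hadj
    rw [hM, if_neg]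
    intro h
    have : Gᶜ.Adj i j := by
      rw [SimpleGraph.compl_adj]
      exact ⟨hij, hadj⟩
    exact c.valid this h

end Pool.Agent.MP_d13902_co
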