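import Mathlib

set_option autoImplicit false

open Finset

namespace Pool.Agent.MP_d13902_co

/-- An integer-valued matroid rank function on the subsets of `V`. -/
structure IsRankFn {V : Type} [DecidableEq V] (f : Finset V → ℕ) : Prop where
  empty : f ∅ = 0
  mono : ∀ X Y, X ⊆ Y → f X ≤ f Y
  submod : ∀ X Y, f (X ∪ Y) + f (X ∩ Y) ≤ f X + f Y
  unit : ∀ v, f {v} ≤ 1

/-- `Rq f q U y` is the minimum over all `X ⊇ U` of `q * f X + #{t : y t ∉ X}`. -/
noncomputable def Rq {V : Type} [Fintype V] [DecidableEq V] (f : Finset V → ℕ) (q : ℕ)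
    (U : Finset V) {T : ℕ} (y : Fin T → V) : ℕ :=
  ((univ : Finset (Finset V)).filter (fun X => U ⊆ X)).inf'
    ⟨univ, by simp⟩ (fun X => q * f X + (univ.filter (fun t => y t ∉ X)).card)

/-- rank of the set `X` of rows of the matrix `M` -/
noncomputable def rowFn {V : Type} (M : Matrix V V ℝ) (X : Finset V) : ℕ :=
  Module.finrank ℝ (Submodule.span ℝ (M '' (X : Set V)))

/-- rank of the set `X` of columns of the matrix `M` -/
noncomputable def colFn {V : Type} (M : Matrix V V ℝ) (X : Finset V) : ℕ :=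
  rowFn M.transpose X

/-- The principal submatrix on `S`. -/
def prin {V : Type} (A : Matrix V V ℝ) (S : Finset V) : Matrix {x // x ∈ S} {x // x ∈ S} ℝ :=
  A.submatrix Subtype.val Subtype.val

/-- The real minrank of a graph, as in the frozen statement. -/
noncomputable def minrank {n : ℕ} (G : SimpleGraph (Fin n)) : ℕ :=
  sInf {r : ℕ | ∃ M : Matrix (Fin n) (Fin n) ℝ,
    (∀ i, M i i ≠ 0) ∧ (∀ i j, i ≠ j → ¬ G.Adj i j → M i j = 0) ∧ M.rank = r}

end Pool.Agent.MP_d13902_co
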