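import Mathlib
import Pool.Agent.MP_d13902_co.Defs

/-!
Block INT of MP_d13902_co: integrality of the matroid intersection polytope, in the form of a pair
of bases approximating a pair of fractional bases.
-/

set_option autoImplicit false

namespace Pool.Agent.MP_d13902_co

open Finset

namespace IntAux

/-- rank functions -/
structure RF {ι : Type*} [DecidableEq ι] (g : Finset ι → ℕ) : Prop where
  empty : g ∅ = 0
  mono : ∀ A B : Finset ι, A ⊆ B → g A ≤ g B
  submod : ∀ A B : Finset ι, g (A ∪ B) + g (A ∩ B) ≤ g A + g B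
  unit : ∀ e, g {e} ≤ 1

/-- integers inside the reals -/
def ZZ : AddSubgroup ℝ := (Int.castAddHom ℝ).range

lemma mem_ZZ {x : ℝ} : x ∈ ZZ ↔ ∃ m : ℤ, (m : ℝ) = x := Iff.rfl

section single
variable {ι : Type*} [Fintype ι] [DecidableEq ι] (g : Finset ι → ℕ) (z : ι → ℝ)

/-- tight sets -/
def Tight (Y : Finset ι) : Prop := ∑ e ∈ Y, z e = g Y

variable {g z}

omit [Fintype ι] in
lemma tight_union_inter (hg : RF g) (hz : ∀ Y, ∑ e ∈ Y, z e ≤ g Y) {A B : Finset ι}
    (hA : Tight g z A) (hB : Tight g z B) : Tight g z (A ∪ B) ∧ Tight g z (A ∩ B) := by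
  unfold Tight at *
  have h1 := hz (A ∪ B)
  have h2 := hz (A ∩ B)
  have h3 : (g (A ∪ B) : ℝ) + g (A ∩ B) ≤ g A + g B := by exact_mod_cast hg.submod A B
  have h4 := Finset.sum_union_inter (s₁ := A) (s₂ := B) (f := z)
  constructor <;> linarith

variable (g z)

open Classical in
/-- class of an element -/
noncomputable def cls (e : ι) : Finset ι :=
  univ.filter (fun e' => ∀ Y, Tight g z Y → (e ∈ Y ↔ e' ∈ Y))

variable {g z}

lemma mem_cls {e e' : ι} : e' ∈ cls g z e ↔ ∀ Y, Tight g z Y → (e ∈ Y ↔ e' ∈ Y) := by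
  simp [cls]

lemma self_mem_cls (e : ι) : e ∈ cls g z e := mem_cls.mpr fun _ _ => Iff.rfl

lemma cls_eq {e e' : ι} (h : e' ∈ cls g z e) : cls g z e' = cls g z e := by
  ext x
  rw [mem_cls] at *
  rw [mem_cls]
  constructor
  · intro h2 Y hY; rw [h Y hY, h2 Y hY]
  · intro h2 Y hY; rw [← h Y hY, h2 Y hY]

lemma cls_eq_iff {e e' : ι} : cls g z e' = cls g z e ↔ e' ∈ cls g z e := by
  constructor
  · intro h; rw [← h]; exact self_mem_cls e'
  · exact cls_eq

/-- class sums are integers -/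
lemma cls_int (hg : RF g) (hz : ∀ Y, ∑ e ∈ Y, z e ≤ g Y) (hu : Tight g z univ) (e : ι) :
    ∑ e' ∈ cls g z e, z e' ∈ ZZ := by
  classical
  set A : Finset ι := (univ.filter (fun Y : Finset ι => Tight g z Y ∧ e ∈ Y)).inf id with hA
  set B : Finset ι := (univ.filter (fun Y : Finset ι => Tight g z Y ∧ e ∉ Y)).sup id with hB
  have hAt : Tight g z A := by
    rw [hA]
    refine Finset.inf_induction (p := Tight g z) hu ?_ ?_
    · intro a1 h1 a2 h2; exact (tight_union_inter hg hz h1 h2).2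
    · intro Y hY; exact (Finset.mem_filter.mp hY).2.1
  have hBt : Tight g z B := by
    rw [hB]
    refine Finset.sup_induction (p := Tight g z) ?_ ?_ ?_
    · unfold Tight; simp [hg.empty]
    · intro a1 h1 a2 h2; exact (tight_union_inter hg hz h1 h2).1
    · intro Y hY; exact (Finset.mem_filter.mp hY).2.1
  have hAe : ∀ Y, Tight g z Y → e ∈ Y → A ⊆ Y := by
    intro Y hY he
    have : A ≤ id Y := Finset.inf_le (by simp [hY, he])
    exact this
  have hBe : ∀ Y, Tight g z Y → e ∉ Y → Y ⊆ B := by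
    intro Y hY he
    have : id Y ≤ B := Finset.le_sup (f := id) (by simp [hY, he])
    exact this
  have heA : e ∈ A := by
    rw [hA]
    refine Finset.inf_induction (p := fun Y : Finset ι => e ∈ Y) (by simp) ?_ ?_
    · intro a1 h1 a2 h2; exact Finset.mem_inter.mpr ⟨h1, h2⟩
    · intro Y hY; exact (Finset.mem_filter.mp hY).2.2
  have heB : e ∉ B := by
    rw [hB]
    refine Finset.sup_induction (p := fun Y : Finset ι => e ∉ Y) (by simp) ?_ ?_
    · intro a1 h1 a2 h2
      simp only [Finset.sup_eq_union, Finset.mem_union, not_or]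
      exact ⟨h1, h2⟩
    · intro Y hY; exact (Finset.mem_filter.mp hY).2.2
  have hcl : cls g z e = A \ B := by
    ext x
    rw [mem_cls, Finset.mem_sdiff]
    constructor
    · intro h
      exact ⟨(h A hAt).mp heA, fun hx => heB ((h B hBt).mpr hx)⟩
    · rintro ⟨hxA, hxB⟩ Y hY
      constructor
      · intro he; exact hAe Y hY he hxA
      · intro hx
        by_contra he
        exact hxB (hBe Y hY he hx)
  rw [hcl]
  have hAB := (tight_union_inter hg hz hAt hBt).2
  have h1 : ∑ e' ∈ A \ B, z e' = ∑ e' ∈ A, z e' - ∑ e' ∈ A ∩ B, z e' := by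
    have h2 := Finset.sum_sdiff (s₁ := A ∩ B) (s₂ := A) (f := z) Finset.inter_subset_left
    rw [Finset.sdiff_inter_self_left] at h2
    linarith
  rw [h1]
  unfold Tight at hAt hAB
  rw [hAt, hAB]
  exact ⟨(g A : ℤ) - (g (A ∩ B) : ℤ), by simp⟩

/-- directions vanishing on classes vanish on tight sets -/
lemma dir_tight {d : ι → ℝ} (hd : ∀ e, ∑ e' ∈ cls g z e, d e' = 0) {Y : Finset ι}
    (hY : Tight g z Y) : ∑ e ∈ Y, d e = 0 := by
  classical
  rw [← Finset.sum_fiberwise_of_maps_to (s := Y) (t := Y.image (cls g z)) (g := cls g z)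
    (fun x hx => Finset.mem_image_of_mem _ hx) d]
  refine Finset.sum_eq_zero fun B hB => ?_
  obtain ⟨e0, he0, rfl⟩ := Finset.mem_image.mp hB
  have : (Y.filter (fun x => cls g z x = cls g z e0)) = cls g z e0 := by
    ext x
    rw [Finset.mem_filter, cls_eq_iff]
    constructor
    · exact fun h => h.2
    · intro h
      exact ⟨((mem_cls.mp h) Y hY).mp he0, h⟩
  rw [this]
  exact hd e0

end single

section kernel
variable {ι Q : Type*} [DecidableEq ι] [DecidableEq Q]

/-- dimension count -/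
lemma exists_kernel_aux (E S1 S2 : Finset ι) (c1 c2 : ι → Q) (T1 T2 : Finset Q)
    (hcard : T1.card + T2.card < E.card) :
    ∃ d : ι → ℝ, (∃ e, d e ≠ 0) ∧ (∀ e, e ∉ E → d e = 0) ∧
      (∀ q ∈ T1, ∑ e ∈ S1 with c1 e = q, d e = 0) ∧
      (∀ q ∈ T2, ∑ e ∈ S2 with c2 e = q, d e = 0) := by
  classical
  -- extension by zero
  let ext : (E → ℝ) →ₗ[ℝ] (ι → ℝ) :=
    { toFun := fun d e => if h : e ∈ E then d ⟨e, h⟩ else 0
      map_add' := by
        intro d d'; funext e
        simp only [Pi.add_apply]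
        split_ifs <;> simp
      map_smul' := by
        intro c d; funext e
        simp only [Pi.smul_apply, RingHom.id_apply, smul_eq_mul]
        split_ifs <;> simp }
  let Φ : (E → ℝ) →ₗ[ℝ] (T1 → ℝ) × (T2 → ℝ) :=
    { toFun := fun d => (fun q => ∑ e ∈ S1 with c1 e = q.1, ext d e,
        fun q => ∑ e ∈ S2 with c2 e = q.1, ext d e)
      map_add' := by
        intro d d'
        ext q <;> simp [Finset.sum_add_distrib]
      map_smul' := by
        intro c d
        ext q <;> simp [Finset.mul_sum] }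
  have hlt : Module.finrank ℝ ((T1 → ℝ) × (T2 → ℝ)) < Module.finrank ℝ (E → ℝ) := by
    simp only [Module.finrank_prod, Module.finrank_fintype_fun_eq_card, Fintype.card_coe]
    exact hcard
  have hker := LinearMap.ker_ne_bot_of_finrank_lt (f := Φ) hlt
  obtain ⟨d, hd, hd0⟩ := (Submodule.ne_bot_iff _).mp hker
  refine ⟨ext d, ?_, ?_, ?_, ?_⟩
  · by_contra hcon
    push Not at hcon
    apply hd0
    funext e
    have := hcon e.1
    simpa [ext] using this
  · intro e he
    simp [ext, he]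
  · intro q hq
    have := congrArg Prod.fst (LinearMap.mem_ker.mp hd)
    exact congrFun this ⟨q, hq⟩
  · intro q hq
    have := congrArg Prod.snd (LinearMap.mem_ker.mp hd)
    exact congrFun this ⟨q, hq⟩

lemma exists_kernel (S1 S2 : Finset ι) (hne : (S1 ∪ S2).Nonempty) (c1 c2 : ι → Q)
    (h1 : ∀ e ∈ S1, ∃ e' ∈ S1, e' ≠ e ∧ c1 e' = c1 e)
    (h2 : ∀ e ∈ S2, ∃ e' ∈ S2, e' ≠ e ∧ c2 e' = c2 e) :
    ∃ d : ι → ℝ, (∃ e, d e ≠ 0) ∧ (∀ e, e ∉ S1 ∪ S2 → d e = 0) ∧
      (∀ q, ∑ e ∈ S1 with c1 e = q, d e = 0) ∧ (∀ q, ∑ e ∈ S2 with c2 e = q, d e = 0) := by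
  classical
  have key : ∀ (S : Finset ι) (c : ι → Q), (∀ e ∈ S, ∃ e' ∈ S, e' ≠ e ∧ c e' = c e) →
      2 * (S.image c).card ≤ S.card := by
    intro S c h
    refine Finset.mul_card_image_le_card (s := S) (f := c) 2 ?_
    intro b hb
    obtain ⟨e, he, rfl⟩ := Finset.mem_image.mp hb
    obtain ⟨e', he', hne', hc⟩ := h e he
    have : 1 < (S.filter (fun x => c x = c e)).card :=
      Finset.one_lt_card.mpr ⟨e', by simp [he', hc], e, by simp [he], hne'⟩
    exact this
  have k1 := key S1 c1 h1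
  have k2 := key S2 c2 h2
  have hz : ∀ (S : Finset ι) (c : ι → Q) (d : ι → ℝ) (q : Q), q ∉ S.image c →
      ∑ e ∈ S with c e = q, d e = 0 := by
    intro S c d q hq
    have : S.filter (fun e => c e = q) = ∅ := by
      rw [Finset.filter_eq_empty_iff]
      intro e he hc
      exact hq (Finset.mem_image.mpr ⟨e, he, hc⟩)
    rw [this, Finset.sum_empty]
  have hcu := Finset.card_union_add_card_inter S1 S2
  by_cases hlt : (S1.image c1).card + (S2.image c2).card < (S1 ∪ S2).card
  · obtain ⟨d, a, b, e1, e2⟩ := exists_kernel_aux (S1 ∪ S2) S1 S2 c1 c2 _ _ hlt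
    refine ⟨d, a, b, fun q => ?_, fun q => ?_⟩
    · by_cases hq : q ∈ S1.image c1
      · exact e1 q hq
      · exact hz _ _ _ _ hq
    · by_cases hq : q ∈ S2.image c2
      · exact e2 q hq
      · exact hz _ _ _ _ hq
  · push Not at hlt
    have hi1 : (S1 ∩ S2).card ≤ S1.card := Finset.card_le_card Finset.inter_subset_left
    have hi2 : (S1 ∩ S2).card ≤ S2.card := Finset.card_le_card Finset.inter_subset_right
    have hu1 : S1.card ≤ (S1 ∪ S2).card := Finset.card_le_card Finset.subset_union_left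
    have hu2 : S2.card ≤ (S1 ∪ S2).card := Finset.card_le_card Finset.subset_union_right
    have hS1 : S1 = S1 ∪ S2 := Finset.eq_of_subset_of_card_le Finset.subset_union_left (by omega)
    have hS2 : S2 = S1 ∪ S2 := Finset.eq_of_subset_of_card_le Finset.subset_union_right (by omega)
    have hS : S1 = S2 := hS1.trans hS2.symm
    subst hS
    rw [Finset.union_self] at *
    obtain ⟨e0, he0⟩ := hne
    set q0 := c1 e0 with hq0
    have hq0m : q0 ∈ S1.image c1 := Finset.mem_image_of_mem _ he0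
    have hlt2 : ((S1.image c1).erase q0).card + (S1.image c2).card < S1.card := by
      rw [Finset.card_erase_of_mem hq0m]
      have : 0 < (S1.image c1).card := Finset.card_pos.mpr ⟨q0, hq0m⟩
      omega
    obtain ⟨d, a, b, e1, e2⟩ := exists_kernel_aux S1 S1 S1 c1 c2 _ _ hlt2
    have e2' : ∀ q, ∑ e ∈ S1 with c2 e = q, d e = 0 := by
      intro q
      by_cases hq : q ∈ S1.image c2
      · exact e2 q hq
      · exact hz _ _ _ _ hq
    have htot : ∑ e ∈ S1, d e = 0 := by
      rw [← Finset.sum_fiberwise_of_maps_to (s := S1) (t := S1.image c2) (g := c2)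
        (fun x hx => Finset.mem_image_of_mem _ hx) d]
      exact Finset.sum_eq_zero fun q _ => e2' q
    have e1' : ∑ e ∈ S1 with c1 e = q0, d e = 0 := by
      rw [← Finset.sum_fiberwise_of_maps_to (s := S1) (t := S1.image c1) (g := c1)
        (fun x hx => Finset.mem_image_of_mem _ hx) d, ← Finset.sum_erase_add _ _ hq0m] at htot
      rw [Finset.sum_eq_zero (fun q hq => e1 q hq), zero_add] at htot
      exact htot
    refine ⟨d, a, b, fun q => ?_, e2'⟩
    by_cases hq : q ∈ S1.image c1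
    · by_cases hqq : q = q0
      · rw [hqq]; exact e1'
      · exact e1 q (Finset.mem_erase.mpr ⟨hqq, hq⟩)
    · exact hz _ _ _ _ hq

end kernel

section main
variable {ι : Type*} [Fintype ι] [DecidableEq ι]

/-- masked vector -/
def mask (S : Finset ι) (u : ι → ℝ) (e : ι) : ℝ := if e ∈ S then u e else 0

omit [Fintype ι] in
lemma mask_sum (S Y : Finset ι) (u : ι → ℝ) : ∑ e ∈ Y, mask S u e = ∑ e ∈ Y ∩ S, u e := by
  unfold mask
  rw [← Finset.sum_filter, Finset.filter_mem_eq_inter]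

omit [Fintype ι] in
lemma mask_line (S Y : Finset ι) (u d : ι → ℝ) (ε : ℝ) :
    ∑ e ∈ Y, mask S (fun e => u e + ε * d e) e =
      ∑ e ∈ Y, mask S u e + ε * ∑ e ∈ Y, mask S d e := by
  simp only [mask_sum]
  rw [Finset.sum_add_distrib, Finset.mul_sum]

/-- the polytope -/
def KP (S1 S2 : Finset ι) (g1 g2 : Finset ι → ℕ) (r : ℕ) : Set (ι → ℝ) :=
  {u | (∀ e, 0 ≤ u e) ∧ (∀ Y, ∑ e ∈ Y, mask S1 u e ≤ g1 Y) ∧ (∀ Y, ∑ e ∈ Y, mask S2 u e ≤ g2 Y) ∧
    ∑ e, mask S1 u e = r ∧ ∑ e, mask S2 u e = r}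

omit [Fintype ι] in
lemma continuous_mask_sum (S Y : Finset ι) : Continuous fun u : ι → ℝ => ∑ e ∈ Y, mask S u e := by
  simp only [mask_sum]
  fun_prop

lemma KP_compact {S1 S2 : Finset ι} (hS : ∀ e, e ∈ S1 ∨ e ∈ S2) {g1 g2 : Finset ι → ℕ}
    (hg1 : RF g1) (hg2 : RF g2) (r : ℕ) : IsCompact (KP S1 S2 g1 g2 r) := by
  have hsub : KP S1 S2 g1 g2 r ⊆ Set.pi Set.univ (fun _ : ι => Set.Icc (0 : ℝ) 1) := by
    rintro u ⟨h0, h1, h2, -, -⟩ e -
    refine ⟨h0 e, ?_⟩
    rcases hS e with he | he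
    · have := h1 {e}
      rw [Finset.sum_singleton] at this
      unfold mask at this
      rw [if_pos he] at this
      exact this.trans (by exact_mod_cast hg1.unit e)
    · have := h2 {e}
      rw [Finset.sum_singleton] at this
      unfold mask at this
      rw [if_pos he] at this
      exact this.trans (by exact_mod_cast hg2.unit e)
  have hcomp : IsCompact (Set.pi Set.univ (fun _ : ι => Set.Icc (0 : ℝ) 1)) :=
    isCompact_univ_pi fun _ => isCompact_Icc
  refine hcomp.of_isClosed_subset ?_ hsub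
  have e : KP S1 S2 g1 g2 r = (⋂ e, {u : ι → ℝ | 0 ≤ u e}) ∩
      ((⋂ Y : Finset ι, {u : ι → ℝ | ∑ e ∈ Y, mask S1 u e ≤ g1 Y}) ∩
      ((⋂ Y : Finset ι, {u : ι → ℝ | ∑ e ∈ Y, mask S2 u e ≤ g2 Y}) ∩
      ({u : ι → ℝ | ∑ e, mask S1 u e = r} ∩ {u : ι → ℝ | ∑ e, mask S2 u e = r}))) := by
    ext u
    unfold KP
    constructor
    · rintro ⟨a, b, c, d, e⟩
      exact ⟨Set.mem_iInter.mpr a, Set.mem_iInter.mpr b, Set.mem_iInter.mpr c, d, e⟩
    · rintro ⟨a, b, c, d, e⟩
      exact ⟨Set.mem_iInter.mp a, Set.mem_iInter.mp b, Set.mem_iInter.mp c, d, e⟩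
  rw [e]
  refine IsClosed.inter ?_ (IsClosed.inter ?_ (IsClosed.inter ?_ (IsClosed.inter ?_ ?_)))
  · exact isClosed_iInter fun e => isClosed_le continuous_const (by fun_prop)
  · exact isClosed_iInter fun Y => isClosed_le (continuous_mask_sum S1 Y) continuous_const
  · exact isClosed_iInter fun Y => isClosed_le (continuous_mask_sum S2 Y) continuous_const
  · exact isClosed_eq (continuous_mask_sum S1 univ) continuous_const
  · exact isClosed_eq (continuous_mask_sum S2 univ) continuous_const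

/-- a class containing a fractional coordinate contains another one -/
lemma frac_pair {S : Finset ι} {g : Finset ι → ℕ} (hg : RF g) {u : ι → ℝ} {r : ℕ}
    (hz : ∀ Y, ∑ e ∈ Y, mask S u e ≤ g Y) (hr : ∑ e, mask S u e = r) (hgr : g univ = r)
    {E : Finset ι} (hE : ∀ e, e ∈ E ↔ u e ∉ ZZ) :
    ∀ e ∈ E ∩ S, ∃ e' ∈ E ∩ S, e' ≠ e ∧ cls g (mask S u) e' = cls g (mask S u) e := by
  classical
  intro e he
  rw [Finset.mem_inter] at he
  by_contra hcon
  push Not at hcon
  have hint := cls_int hg hz (by unfold Tight; rw [hr, hgr]) e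
  rw [← Finset.add_sum_erase _ _ (self_mem_cls e)] at hint
  have h2 : ∑ e' ∈ (cls g (mask S u) e).erase e, mask S u e' ∈ ZZ := by
    refine sum_mem fun e' he' => ?_
    obtain ⟨hne, hc⟩ := Finset.mem_erase.mp he'
    unfold mask
    split_ifs with hS
    · by_contra hfrac
      exact hcon e' (Finset.mem_inter.mpr ⟨(hE e').mpr hfrac, hS⟩) hne (cls_eq hc)
    · exact ZZ.zero_mem
  have h3 : mask S u e ∈ ZZ := by
    have := ZZ.sub_mem hint h2
    simpa using this
  unfold mask at h3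
  rw [if_pos he.2] at h3
  exact (hE e).mp he.1 h3

lemma class_dir {S : Finset ι} {g : Finset ι → ℕ} {z : ι → ℝ} {E : Finset ι} {d : ι → ℝ}
    (hd0 : ∀ e, e ∉ E → d e = 0)
    (hd : ∀ q, ∑ e ∈ E ∩ S with cls g z e = q, d e = 0) (e : ι) :
    ∑ e' ∈ cls g z e, mask S d e' = 0 := by
  classical
  rw [mask_sum, ← hd (cls g z e)]
  have hsub : (E ∩ S).filter (fun x => cls g z x = cls g z e) ⊆ cls g z e ∩ S := by
    intro x hx
    obtain ⟨h1, h2⟩ := Finset.mem_filter.mp hx
    exact Finset.mem_inter.mpr ⟨cls_eq_iff.mp h2, (Finset.mem_inter.mp h1).2⟩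
  symm
  refine Finset.sum_subset hsub fun x hx hx' => ?_
  obtain ⟨h1, h2⟩ := Finset.mem_inter.mp hx
  apply hd0
  intro hxE
  exact hx' (Finset.mem_filter.mpr ⟨Finset.mem_inter.mpr ⟨hxE, h2⟩, cls_eq_iff.mpr h1⟩)

open Filter Topology in
lemma ev_le {a b c : ℝ} (h : a ≤ c) (h' : a = c → b = 0) :
    ∀ᶠ ε in 𝓝 (0 : ℝ), a + ε * b ≤ c := by
  rcases eq_or_lt_of_le h with h1 | h1
  · exact Eventually.of_forall fun ε => by rw [h' h1, mul_zero, add_zero, h1]
  · have hc : Tendsto (fun ε : ℝ => a + ε * b) (𝓝 0) (𝓝 (a + 0 * b)) := by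
      apply Continuous.tendsto (f := fun ε : ℝ => a + ε * b)
      fun_prop
    rw [zero_mul, add_zero] at hc
    filter_upwards [hc.eventually (gt_mem_nhds h1)] with ε hε
    exact hε.le

/-- **Matroid intersection, integrality.** -/
theorem MI {S1 S2 : Finset ι} (hS : ∀ e, e ∈ S1 ∨ e ∈ S2) {g1 g2 : Finset ι → ℕ}
    (hg1 : RF g1) (hg2 : RF g2) {r : ℕ} (hr1 : g1 univ = r) (hr2 : g2 univ = r)
    {u0 : ι → ℝ} (hu0 : u0 ∈ KP S1 S2 g1 g2 r) (w : ι → ℝ) :
    ∃ I : Finset ι, (I ∩ S1).card = r ∧ (I ∩ S2).card = r ∧ g1 (I ∩ S1) = r ∧ g2 (I ∩ S2) = r ∧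
      ∑ e ∈ I, w e ≤ ∑ e, w e * u0 e := by
  classical
  have hK := KP_compact hS hg1 hg2 r
  have hwc : Continuous fun u : ι → ℝ => ∑ e, w e * u e := by fun_prop
  obtain ⟨um, hum, hmin⟩ := hK.exists_isMinOn ⟨u0, hu0⟩ hwc.continuousOn
  set m := ∑ e, w e * um e with hm
  have hmle : ∀ u ∈ KP S1 S2 g1 g2 r, m ≤ ∑ e, w e * u e := fun u hu => hmin hu
  set Opt : Set (ι → ℝ) := KP S1 S2 g1 g2 r ∩ {u | ∑ e, w e * u e ≤ m} with hOpt
  have hOc : IsCompact Opt := hK.inter_right (isClosed_le hwc continuous_const)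
  obtain ⟨u, hu⟩ := hOc.extremePoints_nonempty ⟨um, hum, le_refl m⟩
  rw [mem_extremePoints] at hu
  obtain ⟨⟨huK, hum'⟩, hext⟩ := hu
  obtain ⟨k0, k1, k2, k3, k4⟩ := id huK
  -- all coordinates are integers
  have hall : ∀ e, u e ∈ ZZ := by
    by_contra hcon
    push Not at hcon
    obtain ⟨ef, hef⟩ := hcon
    set E : Finset ι := univ.filter (fun e => u e ∉ ZZ) with hE
    have hE' : ∀ e, e ∈ E ↔ u e ∉ ZZ := fun e => by simp [hE]
    have hEu : E ∩ S1 ∪ E ∩ S2 = E := by
      rw [← Finset.inter_union_distrib_left]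
      ext e
      simp only [Finset.mem_inter, Finset.mem_union]
      exact ⟨fun h => h.1, fun h => ⟨h, hS e⟩⟩
    have hne : (E ∩ S1 ∪ E ∩ S2).Nonempty := by
      rw [hEu]; exact ⟨ef, (hE' ef).mpr hef⟩
    obtain ⟨d, ⟨e1, he1⟩, hd0, hd1, hd2⟩ := exists_kernel (E ∩ S1) (E ∩ S2) hne
      (cls g1 (mask S1 u)) (cls g2 (mask S2 u))
      (frac_pair hg1 k1 k3 hr1 hE') (frac_pair hg2 k2 k4 hr2 hE')
    rw [hEu] at hd0
    have D1 : ∀ Y, Tight g1 (mask S1 u) Y → ∑ e ∈ Y, mask S1 d e = 0 := fun Y hY =>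
      dir_tight (class_dir hd0 hd1) hY
    have D2 : ∀ Y, Tight g2 (mask S2 u) Y → ∑ e ∈ Y, mask S2 d e = 0 := fun Y hY =>
      dir_tight (class_dir hd0 hd2) hY
    have hev : ∀ᶠ ε in nhds (0 : ℝ), (fun e => u e + ε * d e) ∈ KP S1 S2 g1 g2 r := by
      have v0 : ∀ᶠ ε in nhds (0 : ℝ), ∀ e, -(u e) + ε * (-(d e)) ≤ 0 := by
        rw [Filter.eventually_all]
        intro e
        refine ev_le (by linarith [k0 e]) fun h => ?_
        have hue : u e = 0 := by linarith
        rw [hd0 e (by rw [hE']; push Not; rw [hue]; exact ZZ.zero_mem), neg_zero]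
      have v1 : ∀ᶠ ε in nhds (0 : ℝ), ∀ Y : Finset ι,
          ∑ e ∈ Y, mask S1 u e + ε * ∑ e ∈ Y, mask S1 d e ≤ g1 Y := by
        rw [Filter.eventually_all]
        intro Y
        exact ev_le (k1 Y) (D1 Y)
      have v2 : ∀ᶠ ε in nhds (0 : ℝ), ∀ Y : Finset ι,
          ∑ e ∈ Y, mask S2 u e + ε * ∑ e ∈ Y, mask S2 d e ≤ g2 Y := by
        rw [Filter.eventually_all]
        intro Y
        exact ev_le (k2 Y) (D2 Y)
      filter_upwards [v0, v1, v2] with ε a0 a1 a2
      refine ⟨fun e => ?_, fun Y => ?_, fun Y => ?_, ?_, ?_⟩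
      · have := a0 e; simp only at this ⊢; linarith
      · rw [mask_line]; exact a1 Y
      · rw [mask_line]; exact a2 Y
      · rw [mask_line, D1 univ (by unfold Tight; rw [k3, hr1]), k3]; ring
      · rw [mask_line, D2 univ (by unfold Tight; rw [k4, hr2]), k4]; ring
    rw [Metric.eventually_nhds_iff] at hev
    obtain ⟨δ, hδ, hball⟩ := hev
    have hp := hball (y := δ / 2) (by rw [dist_zero_right, Real.norm_eq_abs, abs_of_pos (by positivity)]; linarith)
    have hn := hball (y := -(δ / 2)) (by rw [dist_zero_right, Real.norm_eq_abs, abs_neg, abs_of_pos (by positivity)]; linarith)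
    have hlin : ∀ ε : ℝ, ∑ e, w e * (u e + ε * d e) = ∑ e, w e * u e + ε * ∑ e, w e * d e := by
      intro ε
      rw [Finset.mul_sum, ← Finset.sum_add_distrib]
      refine Finset.sum_congr rfl fun e _ => by ring
    have m1 := hmle _ hp
    have m2 := hmle _ hn
    rw [hlin] at m1 m2
    have hum'' : ∑ e, w e * u e ≤ m := hum'
    have o1 : (fun e => u e + (δ / 2) * d e) ∈ Opt := by
      refine ⟨hp, ?_⟩
      change ∑ e, w e * (u e + (δ / 2) * d e) ≤ m
      rw [hlin]; linarith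
    have o2 : (fun e => u e + (-(δ / 2)) * d e) ∈ Opt := by
      refine ⟨hn, ?_⟩
      change ∑ e, w e * (u e + (-(δ / 2)) * d e) ≤ m
      rw [hlin]; linarith
    have hseg : u ∈ openSegment ℝ (fun e => u e + (δ / 2) * d e)
        (fun e => u e + (-(δ / 2)) * d e) := by
      refine ⟨1 / 2, 1 / 2, by norm_num, by norm_num, by norm_num, ?_⟩
      funext e
      simp only [Pi.add_apply, Pi.smul_apply, smul_eq_mul]
      ring
    have heq := (hext _ o1 _ o2 hseg).1
    have := congrFun heq e1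
    have h3 : δ / 2 * d e1 = 0 := by linarith
    rcases mul_eq_zero.mp h3 with h4 | h4
    · linarith
    · exact he1 h4
  -- coordinates are 0 or 1
  have h01 : ∀ e, u e = 0 ∨ u e = 1 := by
    intro e
    obtain ⟨n, hn⟩ := mem_ZZ.mp (hall e)
    have hle : u e ≤ 1 := by
      rcases hS e with he | he
      · have := k1 {e}
        rw [Finset.sum_singleton] at this
        unfold mask at this
        rw [if_pos he] at this
        exact this.trans (by exact_mod_cast hg1.unit e)
      · have := k2 {e}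
        rw [Finset.sum_singleton] at this
        unfold mask at this
        rw [if_pos he] at this
        exact this.trans (by exact_mod_cast hg2.unit e)
    have hge := k0 e
    rw [← hn] at hle hge ⊢
    have a1 : n ≤ 1 := by exact_mod_cast hle
    have a2 : 0 ≤ n := by exact_mod_cast hge
    have : n = 0 ∨ n = 1 := by omega
    rcases this with h | h
    · left; rw [h]; simp
    · right; rw [h]; simp
  set I : Finset ι := univ.filter (fun e => u e = 1) with hI
  have hIS : ∀ S : Finset ι, ∑ e, mask S u e = ((I ∩ S).card : ℝ) := by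
    intro S
    rw [mask_sum, Finset.univ_inter, Finset.card_eq_sum_ones, Nat.cast_sum]
    have : I ∩ S = S.filter (fun e => u e = 1) := by
      ext e; simp [hI, and_comm]
    rw [this, Finset.sum_filter]
    refine Finset.sum_congr rfl fun e _ => ?_
    rcases h01 e with h | h
    · rw [h]; simp
    · rw [h]; simp
  have hIS' : ∀ S : Finset ι, ∑ e ∈ I ∩ S, mask S u e = ((I ∩ S).card : ℝ) := by
    intro S
    rw [mask_sum, Finset.inter_assoc, Finset.inter_self, Finset.card_eq_sum_ones, Nat.cast_sum]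
    refine Finset.sum_congr rfl fun e he => ?_
    have : u e = 1 := by
      have := (Finset.mem_inter.mp he).1
      simpa [hI] using this
    rw [this]; simp
  have c1 : (I ∩ S1).card = r := by
    have := hIS S1
    rw [k3] at this
    exact_mod_cast this.symm
  have c2 : (I ∩ S2).card = r := by
    have := hIS S2
    rw [k4] at this
    exact_mod_cast this.symm
  refine ⟨I, c1, c2, ?_, ?_, ?_⟩
  · apply le_antisymm
    · rw [← hr1]; exact hg1.mono _ _ (Finset.subset_univ _)
    · have := k1 (I ∩ S1)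
      rw [hIS', c1] at this
      exact_mod_cast this
  · apply le_antisymm
    · rw [← hr2]; exact hg2.mono _ _ (Finset.subset_univ _)
    · have := k2 (I ∩ S2)
      rw [hIS', c2] at this
      exact_mod_cast this
  · have e1 : ∑ e ∈ I, w e = ∑ e, w e * u e := by
      rw [hI, Finset.sum_filter]
      refine Finset.sum_congr rfl fun e _ => ?_
      rcases h01 e with h | h
      · rw [h]; simp
      · rw [h]; simp
    rw [e1]
    exact le_trans hum' (hmle _ hu0)

end main

section pair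
variable {V : Type*} [Fintype V] [DecidableEq V]

/-- pull back of a rank function under the projection, restricted to `S` -/
def pull (f : Finset V → ℕ) (S : Finset (V × Fin 3)) (Y : Finset (V × Fin 3)) : ℕ :=
  f ((Y ∩ S).image Prod.fst)

omit [Fintype V] in
lemma pull_RF {f : Finset V → ℕ} (hf : RF f) (S : Finset (V × Fin 3)) : RF (pull f S) := by
  refine ⟨?_, ?_, ?_, ?_⟩
  · simp [pull, hf.empty]
  · intro A B hAB
    exact hf.mono _ _ (Finset.image_subset_image (Finset.inter_subset_inter_right hAB))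
  · intro A B
    unfold pull
    rw [Finset.union_inter_distrib_right, Finset.image_union]
    refine le_trans (Nat.add_le_add_left ?_ _) (hf.submod _ _)
    apply hf.mono
    rw [Finset.inter_inter_distrib_right]
    exact Finset.image_inter_subset _ _ _
  · intro e
    unfold pull
    by_cases he : e ∈ S
    · rw [Finset.singleton_inter_of_mem he, Finset.image_singleton]
      exact hf.unit _
    · rw [Finset.singleton_inter_of_notMem he, Finset.image_empty, hf.empty]
      exact Nat.zero_le _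

omit [Fintype V] in
lemma RF.card_le {f : Finset V → ℕ} (hf : RF f) (X : Finset V) : f X ≤ X.card := by
  induction X using Finset.induction_on with
  | empty => rw [hf.empty]; simp
  | insert a s ha ih =>
    have h1 := hf.submod {a} s
    have h2 := hf.unit a
    rw [Finset.card_insert_of_notMem ha, Finset.insert_eq]
    omega

/-- integrality for a pair of fractional bases -/
theorem pair (f1 f2 : Finset V → ℕ) (hf1 : RF f1) (hf2 : RF f2) (r : ℕ)
    (h1 : f1 univ = r) (h2 : f2 univ = r) (z1 z2 : V → ℝ) (hz1 : ∀ v, 0 ≤ z1 v)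
    (hz2 : ∀ v, 0 ≤ z2 v) (hz1' : ∀ X : Finset V, ∑ v ∈ X, z1 v ≤ f1 X)
    (hz2' : ∀ X : Finset V, ∑ v ∈ X, z2 v ≤ f2 X) (hs1 : ∑ v, z1 v = r) (hs2 : ∑ v, z2 v = r)
    (a : V → ℝ) (ha : ∀ v, 0 ≤ a v) :
    ∃ R C : Finset V, R.card = r ∧ f1 R = r ∧ C.card = r ∧ f2 C = r ∧
      ∑ v ∈ R ∪ C, a v ≤ ∑ v, a v * max (z1 v) (z2 v) := by
  classical
  set S1 : Finset (V × Fin 3) := univ.filter (fun e => e.2 ≠ 2) with hS1
  set S2 : Finset (V × Fin 3) := univ.filter (fun e => e.2 ≠ 1) with hS2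
  set u0 : V × Fin 3 → ℝ := fun e => if e.2 = 0 then min (z1 e.1) (z2 e.1) else
    if e.2 = 1 then z1 e.1 - min (z1 e.1) (z2 e.1) else z2 e.1 - min (z1 e.1) (z2 e.1) with hu0
  have hS : ∀ e, e ∈ S1 ∨ e ∈ S2 := by
    rintro ⟨v, i⟩
    simp only [hS1, hS2, Finset.mem_filter, Finset.mem_univ, true_and]
    fin_cases i <;> simp
  have hp1 : pull f1 S1 univ = r := by
    unfold pull
    rw [Finset.univ_inter, ← h1]
    congr 1
    ext v
    simp only [Finset.mem_image, Finset.mem_univ, iff_true]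
    exact ⟨(v, 0), by simp [hS1], rfl⟩
  have hp2 : pull f2 S2 univ = r := by
    unfold pull
    rw [Finset.univ_inter, ← h2]
    congr 1
    ext v
    simp only [Finset.mem_image, Finset.mem_univ, iff_true]
    exact ⟨(v, 0), by simp [hS2], rfl⟩
  have hmin1 : ∀ v, 0 ≤ z1 v - min (z1 v) (z2 v) := fun v => by
    have := min_le_left (z1 v) (z2 v); linarith
  have hmin2 : ∀ v, 0 ≤ z2 v - min (z1 v) (z2 v) := fun v => by
    have := min_le_right (z1 v) (z2 v); linarith
  have hmin0 : ∀ v, 0 ≤ min (z1 v) (z2 v) := fun v => le_min (hz1 v) (hz2 v)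
  have hu00 : ∀ e, 0 ≤ u0 e := by
    intro e
    simp only [hu0]
    split_ifs
    · exact hmin0 _
    · exact hmin1 _
    · exact hmin2 _
  -- fibre sums
  have fib1 : ∀ v, ∑ i : Fin 3, mask S1 u0 (v, i) = z1 v := by
    intro v
    rw [Fin.sum_univ_three]
    simp [mask, hS1, hu0]
  have fib2 : ∀ v, ∑ i : Fin 3, mask S2 u0 (v, i) = z2 v := by
    intro v
    rw [Fin.sum_univ_three]
    simp [mask, hS2, hu0]
  have bound : ∀ (S Y : Finset (V × Fin 3)) (z : V → ℝ),
      (∀ v, ∑ i : Fin 3, mask S u0 (v, i) = z v) →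
      ∑ e ∈ Y, mask S u0 e ≤ ∑ v ∈ (Y ∩ S).image Prod.fst, z v := by
    intro S Y z hfib
    have hnn : ∀ e, 0 ≤ mask S u0 e := by
      intro e; unfold mask; split_ifs
      · exact hu00 e
      · exact le_rfl
    calc ∑ e ∈ Y, mask S u0 e = ∑ e ∈ Y ∩ S, u0 e := mask_sum _ _ _
      _ = ∑ e ∈ Y ∩ S, mask S u0 e := by
          rw [mask_sum, Finset.inter_assoc, Finset.inter_self]
      _ ≤ ∑ e ∈ (Y ∩ S).image Prod.fst ×ˢ univ, mask S u0 e := by
          apply Finset.sum_le_sum_of_subset_of_nonneg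
          · intro e he
            exact Finset.mem_product.mpr ⟨Finset.mem_image_of_mem _ he, Finset.mem_univ _⟩
          · intro e _ _; exact hnn e
      _ = _ := by
          rw [Finset.sum_product]
          exact Finset.sum_congr rfl fun v _ => hfib v
  have total : ∀ (S : Finset (V × Fin 3)) (z : V → ℝ),
      (∀ v, ∑ i : Fin 3, mask S u0 (v, i) = z v) → ∑ e, mask S u0 e = ∑ v, z v := by
    intro S z hfib
    rw [Fintype.sum_prod_type]
    exact Finset.sum_congr rfl fun v _ => hfib v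
  have hu0K : u0 ∈ KP S1 S2 (pull f1 S1) (pull f2 S2) r := by
    refine ⟨hu00, fun Y => ?_, fun Y => ?_, ?_, ?_⟩
    · exact (bound S1 Y z1 fib1).trans (hz1' _)
    · exact (bound S2 Y z2 fib2).trans (hz2' _)
    · rw [total S1 z1 fib1, hs1]
    · rw [total S2 z2 fib2, hs2]
  obtain ⟨I, i1, i2, i3, i4, i5⟩ := MI hS (pull_RF hf1 S1) (pull_RF hf2 S2) hp1 hp2 hu0K
    (fun e => a e.1)
  have j1 : f1 ((I ∩ S1).image Prod.fst) = r := by
    have : pull f1 S1 (I ∩ S1) = f1 ((I ∩ S1).image Prod.fst) := by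
      unfold pull; rw [Finset.inter_assoc, Finset.inter_self]
    rw [← this]; exact i3
  have j2 : f2 ((I ∩ S2).image Prod.fst) = r := by
    have : pull f2 S2 (I ∩ S2) = f2 ((I ∩ S2).image Prod.fst) := by
      unfold pull; rw [Finset.inter_assoc, Finset.inter_self]
    rw [← this]; exact i4
  refine ⟨(I ∩ S1).image Prod.fst, (I ∩ S2).image Prod.fst, ?_, j1, ?_, j2, ?_⟩
  · apply le_antisymm
    · rw [← i1]; exact Finset.card_image_le
    · rw [← j1]; exact hf1.card_le _
  · apply le_antisymm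
    · rw [← i2]; exact Finset.card_image_le
    · rw [← j2]; exact hf2.card_le _
  · calc ∑ v ∈ (I ∩ S1).image Prod.fst ∪ (I ∩ S2).image Prod.fst, a v
        ≤ ∑ v ∈ I.image Prod.fst, a v := by
          apply Finset.sum_le_sum_of_subset_of_nonneg
          · rw [← Finset.image_union]
            apply Finset.image_subset_image
            exact Finset.union_subset Finset.inter_subset_left Finset.inter_subset_left
          · intro v _ _; exact ha v
      _ ≤ ∑ e ∈ I, a e.1 := by
          rw [← Finset.sum_fiberwise_of_maps_to (s := I) (t := I.image Prod.fst) (g := Prod.fst)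
            (fun x hx => Finset.mem_image_of_mem _ hx) (fun e => a e.1)]
          refine Finset.sum_le_sum fun v hv => ?_
          obtain ⟨e, he, rfl⟩ := Finset.mem_image.mp hv
          exact Finset.single_le_sum (f := fun e : V × Fin 3 => a e.1) (fun x _ => ha x.1)
            (Finset.mem_filter.mpr ⟨he, rfl⟩)
      _ ≤ ∑ e, a e.1 * u0 e := i5
      _ = ∑ v, a v * max (z1 v) (z2 v) := by
          rw [Fintype.sum_prod_type]
          refine Finset.sum_congr rfl fun v _ => ?_
          rw [Fin.sum_univ_three]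
          simp only [hu0]
          have : max (z1 v) (z2 v) = z1 v + z2 v - min (z1 v) (z2 v) := by
            rw [← max_add_min (z1 v) (z2 v)]; ring
          rw [this]
          simp
          ring

end pair

end IntAux

open scoped Classical in
/-- **Integrality.** -/
theorem integrality {V : Type} [Fintype V] [DecidableEq V] (f₁ f₂ : Finset V → ℕ)
    (hf₁ : IsRankFn f₁) (hf₂ : IsRankFn f₂) (r : ℕ)
    (h₁ : f₁ univ = r) (h₂ : f₂ univ = r)
    (z₁ z₂ : V → ℝ) (hz₁ : ∀ v, 0 ≤ z₁ v) (hz₂ : ∀ v, 0 ≤ z₂ v)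
    (hz₁' : ∀ X : Finset V, ∑ v ∈ X, z₁ v ≤ f₁ X)
    (hz₂' : ∀ X : Finset V, ∑ v ∈ X, z₂ v ≤ f₂ X)
    (hz₁'' : ∑ v, z₁ v = r) (hz₂'' : ∑ v, z₂ v = r)
    (a : V → ℝ) (ha : ∀ v, 0 ≤ a v) :
    ∃ R C : Finset V, R.card = r ∧ f₁ R = r ∧ C.card = r ∧ f₂ C = r ∧
      ∑ v ∈ R ∪ C, a v ≤ ∑ v, a v * max (z₁ v) (z₂ v) :=
  IntAux.pair f₁ f₂ ⟨hf₁.empty, hf₁.mono, hf₁.submod, hf₁.unit⟩
    ⟨hf₂.empty, hf₂.mono, hf₂.submod, hf₂.unit⟩ r h₁ h₂ z₁ z₂ hz₁ hz₂ hz₁' hz₂' hz₁'' hz₂'' a ha

end Pool.Agent.MP_d13902_co
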