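import Pool.Agent.MP_d13902_co.Defs

set_option autoImplicit false

open Finset
open scoped Classical

set_option linter.unusedSectionVars false

namespace Pool.Agent.MP_d13902_co

section Samp

variable {V : Type} [Fintype V] [DecidableEq V]

/-- the functional minimised in `Rq` -/
private def G (f : Finset V → ℕ) (s : ℕ) {t : ℕ} (y : Fin t → V) (X : Finset V) : ℕ :=
  s * f X + (univ.filter (fun i => y i ∉ X)).card

private theorem Rq_le (f : Finset V → ℕ) (s : ℕ) (U : Finset V) {t : ℕ} (y : Fin t → V)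
    (X : Finset V) (hX : U ⊆ X) : Rq f s U y ≤ G f s y X := by
  unfold Rq G
  exact Finset.inf'_le (f := fun X => s * f X + (univ.filter (fun t => y t ∉ X)).card)
    (by simpa using hX)

private theorem Rq_ge (f : Finset V → ℕ) (s : ℕ) (U : Finset V) {t : ℕ} (y : Fin t → V)
    (m : ℕ) (h : ∀ X, U ⊆ X → m ≤ G f s y X) : m ≤ Rq f s U y := by
  unfold Rq
  refine Finset.le_inf' _ _ ?_
  intro X hX
  exact h X (by simpa using hX)

private theorem Rq_exists (f : Finset V → ℕ) (s : ℕ) (U : Finset V) {t : ℕ} (y : Fin t → V) :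
    ∃ X, U ⊆ X ∧ G f s y X = Rq f s U y := by
  unfold Rq G
  obtain ⟨X, hX, hX'⟩ := Finset.exists_mem_eq_inf'
    (s := (univ : Finset (Finset V)).filter (fun X => U ⊆ X)) ⟨univ, by simp⟩
    (fun X => s * f X + (univ.filter (fun t => y t ∉ X)).card)
  exact ⟨X, by simpa using hX, hX'.symm⟩

private theorem card_mod {t : ℕ} (y : Fin t → V) (X Y : Finset V) :
    (univ.filter (fun i => y i ∉ X ∪ Y)).card + (univ.filter (fun i => y i ∉ X ∩ Y)).card =
      (univ.filter (fun i => y i ∉ X)).card + (univ.filter (fun i => y i ∉ Y)).card := by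
  simp only [Finset.card_filter, ← Finset.sum_add_distrib]
  refine Finset.sum_congr rfl fun i _ => ?_
  by_cases h1 : y i ∈ X <;> by_cases h2 : y i ∈ Y <;> simp [h1, h2]

private theorem G_submod (f : Finset V → ℕ) (hf : IsRankFn f) (s : ℕ) {t : ℕ} (y : Fin t → V)
    (X Y : Finset V) : G f s y (X ∪ Y) + G f s y (X ∩ Y) ≤ G f s y X + G f s y Y := by
  unfold G
  have h1 := card_mod y X Y
  have h2 := Nat.mul_le_mul_left s (hf.submod X Y)
  rw [Nat.mul_add, Nat.mul_add] at h2
  omega

/-- the largest minimiser -/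
private theorem exists_largest (f : Finset V → ℕ) (hf : IsRankFn f) (s : ℕ) (U : Finset V)
    {t : ℕ} (y : Fin t → V) :
    ∃ F, U ⊆ F ∧ G f s y F = Rq f s U y ∧ ∀ X, U ⊆ X → G f s y X = Rq f s U y → X ⊆ F := by
  obtain ⟨X0, hX0, hX0'⟩ := Rq_exists f s U y
  obtain ⟨F, hF, hmax⟩ := Finset.exists_max_image
    ((univ : Finset (Finset V)).filter (fun X => U ⊆ X ∧ G f s y X = Rq f s U y)) Finset.card
    ⟨X0, by simp [hX0, hX0']⟩
  simp only [Finset.mem_filter, Finset.mem_univ, true_and] at hF hmax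
  refine ⟨F, hF.1, hF.2, ?_⟩
  intro X hX hX'
  have h1 := G_submod f hf s y F X
  have h2 : Rq f s U y ≤ G f s y (F ∩ X) := Rq_le f s U y _ (Finset.subset_inter hF.1 hX)
  have h3 : Rq f s U y ≤ G f s y (F ∪ X) :=
    Rq_le f s U y _ (hF.1.trans Finset.subset_union_left)
  have h4 : G f s y (F ∪ X) = Rq f s U y := by
    have := hF.2
    omega
  have h5 := hmax (F ∪ X) ⟨hF.1.trans Finset.subset_union_left, h4⟩
  have h6 : F ∪ X = F :=
    (Finset.eq_of_subset_of_card_le Finset.subset_union_left h5).symm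
  rw [← h6]
  exact Finset.subset_union_right

private theorem G_cons (f : Finset V → ℕ) (s : ℕ) {t : ℕ} (v : V) (y : Fin t → V)
    (X : Finset V) : G f s (Fin.cons v y : Fin (t + 1) → V) X =
      G f s y X + (if v ∉ X then 1 else 0) := by
  unfold G
  simp only [Finset.card_filter, Fin.sum_univ_succ, Fin.cons_zero, Fin.cons_succ]
  omega

private theorem step_nat (f : Finset V → ℕ) (hf : IsRankFn f) (s : ℕ) (U : Finset V)
    {t : ℕ} (y : Fin t → V) (r k : ℕ) (hk : Fintype.card V = k)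
    (hdens : ∀ X : Finset V, r * X.card ≤ k * f X) :
    r * (k * Rq f (s + 1) U y) + k * r + k * Rq f s U y ≤
      r * (∑ v, Rq f (s + 1) U (Fin.cons v y : Fin (t + 1) → V)) + k * Rq f (s + 1) U y := by
  obtain ⟨F, hUF, hF, hFmax⟩ := exists_largest f hf (s + 1) U y
  have h1 : ∀ v, Rq f (s + 1) U y + (if v ∉ F then 1 else 0) ≤
      Rq f (s + 1) U (Fin.cons v y : Fin (t + 1) → V) := by
    intro v
    refine Rq_ge _ _ _ _ _ ?_
    intro X hX
    rw [G_cons]
    have hle := Rq_le f (s + 1) U y X hX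
    by_cases hvF : v ∈ F
    · simp only [hvF, not_true_eq_false, if_false]; omega
    · by_cases hvX : v ∈ X
      · have hne : G f (s + 1) y X ≠ Rq f (s + 1) U y := fun he => hvF (hFmax X hX he hvX)
        simp only [hvF, hvX, not_true_eq_false, not_false_eq_true, if_false, if_true]
        omega
      · simp only [hvF, hvX, not_false_eq_true, if_true]
        omega
  have h2 : k * Rq f (s + 1) U y + (Fᶜ).card ≤
      ∑ v, Rq f (s + 1) U (Fin.cons v y : Fin (t + 1) → V) := by
    calc k * Rq f (s + 1) U y + (Fᶜ).card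
        = ∑ v, (Rq f (s + 1) U y + (if v ∉ F then 1 else 0)) := by
          rw [Finset.sum_add_distrib, Finset.sum_const, Finset.card_univ, hk, smul_eq_mul,
            ← Finset.card_filter]
          congr 2
          ext v
          simp
      _ ≤ _ := Finset.sum_le_sum fun v _ => h1 v
  have h3 : Rq f s U y + f F ≤ Rq f (s + 1) U y := by
    have := Rq_le f s U y F hUF
    rw [← hF]
    unfold G at this ⊢
    rw [Nat.add_mul, Nat.one_mul]
    omega
  have h4 : (Fᶜ).card + F.card = k := by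
    rw [← hk, Finset.card_compl]
    have := Finset.card_le_univ F
    omega
  have h5 := hdens F
  have h6 := Nat.mul_le_mul_left r h2
  have h7 := Nat.mul_le_mul_left k h3
  rw [Nat.mul_add] at h6 h7
  have h8 : r * (Fᶜ).card + r * F.card = k * r := by
    rw [← Nat.mul_add, h4, Nat.mul_comm]
  omega

private theorem sum_cons {t : ℕ} (g : (Fin (t + 1) → V) → ℝ) :
    ∑ y, g y = ∑ y : Fin t → V, ∑ v : V, g (Fin.cons v y : Fin (t + 1) → V) := by
  rw [Finset.sum_comm, ← Fintype.sum_prod_type']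
  exact (Fintype.sum_equiv (Fin.consEquiv (fun _ : Fin (t + 1) => V)) _ _ (fun _ => rfl)).symm

/-- the averaged deficiency -/
private theorem main_bound (f : Finset V → ℕ) (hf : IsRankFn f)
    (r k : ℕ) (hr : 0 < r) (h : f univ = r) (hk : Fintype.card V = k)
    (hdens : ∀ X : Finset V, r * X.card ≤ k * f X) (U : Finset V)
    (δ : ℝ) (hδ : 0 < δ) (t : ℕ) : ∀ s : ℕ,
    ∑ y : Fin t → V, ((s : ℝ) * r - Rq f s U y) ≤
      (k : ℝ) ^ t * ((r : ℝ) - f U) * (1 / δ * (1 + δ) ^ s *
        (1 - δ / ((1 + δ) * r)) ^ t) := by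
  have hr1 : (1 : ℝ) ≤ r := by exact_mod_cast hr
  have hfU : (0 : ℝ) ≤ (r : ℝ) - f U := by
    have := hf.mono U univ (Finset.subset_univ _)
    rw [h] at this
    have : (f U : ℝ) ≤ r := by exact_mod_cast this
    linarith
  have h1δ : (0 : ℝ) < 1 + δ := by linarith
  have hρ : (0 : ℝ) ≤ 1 - δ / ((1 + δ) * r) := by
    have : δ / ((1 + δ) * r) ≤ 1 := by
      rw [div_le_one (by positivity)]
      nlinarith
    linarith
  induction t with
  | zero =>
    intro s
    have hge : ∀ y : Fin 0 → V, s * f U ≤ Rq f s U y := by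
      intro y
      refine Rq_ge _ _ _ _ _ ?_
      intro X hX
      unfold G
      have := Nat.mul_le_mul_left s (hf.mono U X hX)
      omega
    have hcard : (univ : Finset (Fin 0 → V)).card = 1 := by simp
    have h1 : ∑ y : Fin 0 → V, ((s : ℝ) * r - Rq f s U y) ≤ s * ((r : ℝ) - f U) := by
      calc ∑ y : Fin 0 → V, ((s : ℝ) * r - Rq f s U y)
          ≤ ∑ y : Fin 0 → V, (s * ((r : ℝ) - f U)) := by
            refine Finset.sum_le_sum fun y _ => ?_
            have : ((s * f U : ℕ) : ℝ) ≤ Rq f s U y := by exact_mod_cast hge y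
            push_cast at this
            linarith
        _ = _ := by rw [Finset.sum_const, hcard, one_smul]
    have h2 : (s : ℝ) ≤ 1 / δ * (1 + δ) ^ s := by
      have hb := one_add_mul_le_pow (a := δ) (by linarith : (-2 : ℝ) ≤ δ) s
      rw [one_div, inv_mul_eq_div, le_div_iff₀ hδ]
      linarith
    have h3 : (s : ℝ) * ((r : ℝ) - f U) ≤ (1 / δ * (1 + δ) ^ s) * ((r : ℝ) - f U) :=
      mul_le_mul_of_nonneg_right h2 hfU
    calc _ ≤ _ := h1
      _ ≤ _ := h3
      _ = _ := by ring
  | succ t ih =>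
    intro s
    rcases s with _ | s
    · have h1 : ∑ y : Fin (t + 1) → V, (((0 : ℕ) : ℝ) * r - Rq f 0 U y) ≤ 0 := by
        refine Finset.sum_nonpos fun y _ => ?_
        have : (0 : ℝ) ≤ (Rq f 0 U y : ℝ) := by positivity
        simp only [Nat.cast_zero, zero_mul]
        linarith
      refine h1.trans ?_
      positivity
    · have ih1 := ih (s + 1)
      have ih0 := ih s
      rw [sum_cons]
      have hstep : ∀ y : Fin t → V,
          ∑ v : V, (((s + 1 : ℕ) : ℝ) * r - Rq f (s + 1) U (Fin.cons v y : Fin (t + 1) → V)) ≤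
            (k : ℝ) * ((1 - 1 / r) * (((s + 1 : ℕ) : ℝ) * r - Rq f (s + 1) U y) +
              1 / r * ((s : ℝ) * r - Rq f s U y)) := by
        intro y
        have hn := step_nat f hf s U y r k hk hdens
        have hn' : (r : ℝ) * (k * Rq f (s + 1) U y) + k * r + k * Rq f s U y ≤
          r * (∑ v, (Rq f (s + 1) U (Fin.cons v y : Fin (t + 1) → V) : ℝ)) +
            k * Rq f (s + 1) U y := by exact_mod_cast hn
        rw [Finset.sum_sub_distrib, Finset.sum_const, Finset.card_univ, hk, nsmul_eq_mul]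
        set A := ∑ v, (Rq f (s + 1) U (Fin.cons v y : Fin (t + 1) → V) : ℝ)
        have hr0 : (0 : ℝ) < r := by linarith
        have e : (k : ℝ) * ((1 - 1 / r) * (((s + 1 : ℕ) : ℝ) * r - Rq f (s + 1) U y) +
              1 / r * ((s : ℝ) * r - Rq f s U y)) =
            (k : ℝ) * (((s + 1 : ℕ) : ℝ) * r) -
              ((r : ℝ) * (k * Rq f (s + 1) U y) + k * r + k * Rq f s U y -
                k * Rq f (s + 1) U y) / r := by
          field_simp
          push_cast
          ring
        rw [e]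
        have : ((r : ℝ) * (k * Rq f (s + 1) U y) + k * r + k * Rq f s U y -
                k * Rq f (s + 1) U y) / r ≤ A := by
          rw [div_le_iff₀ hr0]
          linarith
        linarith
      have hsum := Finset.sum_le_sum (s := (univ : Finset (Fin t → V))) fun y _ => hstep y
      refine hsum.trans ?_
      rw [← Finset.mul_sum, Finset.sum_add_distrib, ← Finset.mul_sum, ← Finset.mul_sum]
      have hr0 : (0 : ℝ) < r := by linarith
      have hk0 : (0 : ℝ) ≤ k := by positivity
      have c1 : (0 : ℝ) ≤ 1 - 1 / r := by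
        have : (1 : ℝ) / r ≤ 1 := by
          rw [div_le_one hr0]; exact hr1
        linarith
      have c2 : (0 : ℝ) ≤ 1 / r := by positivity
      calc (k : ℝ) * ((1 - 1 / r) * ∑ y : Fin t → V, (((s + 1 : ℕ) : ℝ) * r - Rq f (s + 1) U y) +
              1 / r * ∑ y : Fin t → V, ((s : ℝ) * r - Rq f s U y))
          ≤ (k : ℝ) * ((1 - 1 / r) * ((k : ℝ) ^ t * ((r : ℝ) - f U) *
                (1 / δ * (1 + δ) ^ (s + 1) * (1 - δ / ((1 + δ) * r)) ^ t)) +
              1 / r * ((k : ℝ) ^ t * ((r : ℝ) - f U) *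
                (1 / δ * (1 + δ) ^ s * (1 - δ / ((1 + δ) * r)) ^ t))) := by
            gcongr
        _ = (k : ℝ) ^ (t + 1) * ((r : ℝ) - f U) * (1 / δ * (1 + δ) ^ s *
              ((1 - 1 / r) * (1 + δ) + 1 / r) * (1 - δ / ((1 + δ) * r)) ^ t) := by
            ring
        _ = (k : ℝ) ^ (t + 1) * ((r : ℝ) - f U) * (1 / δ * (1 + δ) ^ s *
              ((1 + δ) * (1 - δ / ((1 + δ) * r))) * (1 - δ / ((1 + δ) * r)) ^ t) := by
            have : (1 - 1 / (r : ℝ)) * (1 + δ) + 1 / r = (1 + δ) * (1 - δ / ((1 + δ) * r)) := by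
              field_simp
              ring
            rw [this]
        _ = _ := by ring

end Samp

/-! ## Block SAMP: sampling -/
theorem sampling {V : Type} [Fintype V] [DecidableEq V] (f : Finset V → ℕ) (hf : IsRankFn f)
    (r k : ℕ) (hr : 0 < r) (h : f univ = r) (hk : Fintype.card V = k)
    (hdens : ∀ X : Finset V, r * X.card ≤ k * f X) (U : Finset V) (q T : ℕ) (hq : 0 < q)
    (δ : ℝ) (hδ : 0 < δ) (hT : (1 + δ) * q * r ≤ T) :
    ∑ y : Fin T → V, ((r : ℝ) - (Rq f q U y : ℝ) / q) ≤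
      (k : ℝ) ^ T * ((r : ℝ) - f U) * ((1 + δ) / (δ ^ 2 * q)) := by
  have hr1 : (1 : ℝ) ≤ r := by exact_mod_cast hr
  have hr0 : (0 : ℝ) < r := by linarith
  have hq0 : (0 : ℝ) < q := by exact_mod_cast hq
  have hfU : (0 : ℝ) ≤ (r : ℝ) - f U := by
    have := hf.mono U univ (Finset.subset_univ _)
    rw [h] at this
    have : (f U : ℝ) ≤ r := by exact_mod_cast this
    linarith
  have h1δ : (0 : ℝ) < 1 + δ := by linarith
  have hmain := main_bound f hf r k hr h hk hdens U δ hδ T q
  have hρ : (0 : ℝ) ≤ 1 - δ / ((1 + δ) * r) := by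
    have : δ / ((1 + δ) * r) ≤ 1 := by
      rw [div_le_one (by positivity)]
      nlinarith
    linarith
  have h1 : (1 - δ / ((1 + δ) * r)) ^ T ≤ Real.exp (-(δ * q)) := by
    have ha : 1 - δ / ((1 + δ) * r) ≤ Real.exp (-(δ / ((1 + δ) * r))) := by
      have := Real.add_one_le_exp (-(δ / ((1 + δ) * r)))
      linarith
    calc (1 - δ / ((1 + δ) * r)) ^ T ≤ (Real.exp (-(δ / ((1 + δ) * r)))) ^ T :=
          pow_le_pow_left₀ hρ ha T
      _ = Real.exp (T * (-(δ / ((1 + δ) * r)))) := by rw [← Real.exp_nat_mul]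
      _ ≤ Real.exp (-(δ * q)) := by
          apply Real.exp_le_exp.mpr
          have : δ * q ≤ T * (δ / ((1 + δ) * r)) := by
            rw [mul_div_assoc', le_div_iff₀ (by positivity)]
            nlinarith
          linarith
  have h2 : (1 + δ) ^ q * Real.exp (-(δ * q)) ≤ (1 + δ) / δ := by
    have e : (1 + δ) ^ q * Real.exp (-(δ * q)) = ((1 + δ) * Real.exp (-δ)) ^ q := by
      rw [mul_pow, ← Real.exp_nat_mul]
      congr 2
      ring
    rw [e]
    have hle1 : (1 + δ) * Real.exp (-δ) ≤ 1 := by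
      rw [Real.exp_neg]
      rw [mul_inv_le_iff₀ (Real.exp_pos _)]
      have := Real.add_one_le_exp δ
      linarith
    have hnn : 0 ≤ (1 + δ) * Real.exp (-δ) := by positivity
    calc ((1 + δ) * Real.exp (-δ)) ^ q ≤ (1 + δ) * Real.exp (-δ) :=
          pow_le_of_le_one hnn hle1 (by omega)
      _ ≤ (1 + δ) / δ := by
          rw [Real.exp_neg, div_eq_mul_inv]
          refine mul_le_mul_of_nonneg_left ?_ h1δ.le
          apply inv_anti₀ hδ
          have := Real.add_one_le_exp δ
          linarith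
  have h3 : 1 / δ * (1 + δ) ^ q * (1 - δ / ((1 + δ) * r)) ^ T ≤ (1 + δ) / δ ^ 2 := by
    calc 1 / δ * (1 + δ) ^ q * (1 - δ / ((1 + δ) * r)) ^ T
        ≤ 1 / δ * (1 + δ) ^ q * Real.exp (-(δ * q)) := by gcongr
      _ = 1 / δ * ((1 + δ) ^ q * Real.exp (-(δ * q))) := by ring
      _ ≤ 1 / δ * ((1 + δ) / δ) := by gcongr
      _ = (1 + δ) / δ ^ 2 := by field_simp
  have e1 : ∑ y : Fin T → V, ((r : ℝ) - (Rq f q U y : ℝ) / q) =
      (∑ y : Fin T → V, ((q : ℝ) * r - Rq f q U y)) / q := by
    rw [Finset.sum_div]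
    refine Finset.sum_congr rfl fun y _ => ?_
    field_simp
  rw [e1, div_le_iff₀ hq0]
  calc _ ≤ _ := hmain
    _ ≤ (k : ℝ) ^ T * ((r : ℝ) - f U) * ((1 + δ) / δ ^ 2) := by gcongr
    _ = _ := by field_simp

end Pool.Agent.MP_d13902_co
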