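import Pool.Agent.MP_d13902_co.Int
import Pool.Agent.MP_d13902_co.Cap
import Pool.Agent.MP_d13902_co.Samp

set_option autoImplicit false

open Finset

namespace Pool.Agent.MP_d13902_co

namespace LemA

variable {V : Type} [Fintype V] [DecidableEq V]

/-- one-coordinate averages -/
theorem sum_one {T : ℕ} (g : V → ℝ) (t : Fin T) :
    (Fintype.card V : ℝ) * ∑ y : Fin T → V, g (y t) = (Fintype.card V : ℝ) ^ T * ∑ v, g v := by
  have h := Finset.prod_univ_sum (fun _ : Fin T => (univ : Finset V))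
    (fun i v => if i = t then g v else (1 : ℝ))
  rw [Fintype.piFinset_univ] at h
  have h1 : ∀ y : Fin T → V, (∏ i, if i = t then g (y i) else (1 : ℝ)) = g (y t) := by
    intro y
    rw [Finset.prod_ite_eq' univ t (fun i => g (y i))]
    simp
  simp only [h1] at h
  rw [← h, ← Finset.mul_prod_erase univ _ (Finset.mem_univ t)]
  have h2 : ∏ x ∈ univ.erase t, ∑ v : V, (if x = t then g v else (1 : ℝ))
      = (Fintype.card V : ℝ) ^ (T - 1) := by
    rw [Finset.prod_congr rfl (g := fun _ => (Fintype.card V : ℝ))]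
    · simp [Finset.card_erase_of_mem]
    · intro x hx
      have : x ≠ t := (Finset.mem_erase.mp hx).1
      simp [this]
  rw [h2]
  have hT : T = (T - 1) + 1 := by have := t.2; omega
  simp only [if_true]
  rw [show (Fintype.card V : ℝ) ^ T = (Fintype.card V : ℝ) ^ ((T - 1) + 1) by rw [← hT]]
  ring

/-- two-coordinate averages -/
theorem sum_two {T : ℕ} (a b : V → ℝ) (t s : Fin T) (hts : t ≠ s) :
    (Fintype.card V : ℝ) ^ 2 * ∑ y : Fin T → V, a (y t) * b (y s) =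
      (Fintype.card V : ℝ) ^ T * ((∑ v, a v) * ∑ v, b v) := by
  have h := Finset.prod_univ_sum (fun _ : Fin T => (univ : Finset V))
    (fun i v => (if i = t then a v else (1 : ℝ)) * (if i = s then b v else (1 : ℝ)))
  rw [Fintype.piFinset_univ] at h
  have h1 : ∀ y : Fin T → V, (∏ i, (if i = t then a (y i) else (1 : ℝ)) *
      (if i = s then b (y i) else (1 : ℝ))) = a (y t) * b (y s) := by
    intro y
    rw [Finset.prod_mul_distrib, Finset.prod_ite_eq' univ t (fun i => a (y i)),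
      Finset.prod_ite_eq' univ s (fun i => b (y i))]
    simp
  simp only [h1] at h
  rw [← h, ← Finset.mul_prod_erase univ _ (Finset.mem_univ t),
    ← Finset.mul_prod_erase (univ.erase t) _ (Finset.mem_erase.mpr ⟨hts.symm, Finset.mem_univ s⟩)]
  have h2 : ∏ x ∈ (univ.erase t).erase s, ∑ v : V, ((if x = t then a v else (1 : ℝ)) *
      (if x = s then b v else (1 : ℝ))) = (Fintype.card V : ℝ) ^ (T - 2) := by
    rw [Finset.prod_congr rfl (g := fun _ => (Fintype.card V : ℝ))]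
    · rw [Finset.prod_const, Finset.card_erase_of_mem
        (Finset.mem_erase.mpr ⟨hts.symm, Finset.mem_univ s⟩),
        Finset.card_erase_of_mem (Finset.mem_univ t)]
      simp [Nat.sub_sub]
    · intro x hx
      have h1 : x ≠ s := (Finset.mem_erase.mp hx).1
      have h2 : x ≠ t := (Finset.mem_erase.mp (Finset.mem_erase.mp hx).2).1
      simp [h1, h2]
  rw [h2]
  have hT : T = (T - 2) + 2 := by
    have h1 := t.2
    have h2 := s.2
    have h3 : (t : ℕ) ≠ s := fun h => hts (Fin.ext h)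
    omega
  simp only [if_true, hts, hts.symm, if_false, mul_one, one_mul]
  rw [show (Fintype.card V : ℝ) ^ T = (Fintype.card V : ℝ) ^ ((T - 2) + 2) by rw [← hT]]
  ring

/-- number of hits of `v` by the sample -/
def cnt {T : ℕ} (y : Fin T → V) (v : V) : ℕ := (univ.filter (fun t => y t = v)).card

theorem card_not_mem {T : ℕ} (y : Fin T → V) (X : Finset V) :
    (univ.filter (fun t => y t ∉ X)).card = ∑ v ∈ Xᶜ, cnt y v := by
  rw [Finset.card_eq_sum_card_fiberwise (f := y) (t := Xᶜ)]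
  · apply Finset.sum_congr rfl
    intro v hv
    rw [Finset.mem_compl] at hv
    unfold cnt
    congr 1
    ext t
    simp only [Finset.mem_filter, Finset.mem_univ, true_and]
    constructor
    · exact fun h => h.2
    · exact fun h => ⟨h ▸ hv, h⟩
  · intro t ht
    simpa using ht

theorem sum_cnt {T : ℕ} (y : Fin T → V) (a : V → ℝ) :
    ∑ v, a v * (cnt y v : ℝ) = ∑ t, a (y t) := by
  have : ∀ v, a v * (cnt y v : ℝ) = ∑ t, if y t = v then a v else 0 := by
    intro v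
    unfold cnt
    rw [← Finset.sum_filter, Finset.sum_const, nsmul_eq_mul]
    ring
  simp only [this]
  rw [Finset.sum_comm]
  apply Finset.sum_congr rfl
  intro t _
  simp

theorem Rq_le {f : Finset V → ℕ} {q : ℕ} {U X : Finset V} {T : ℕ} (y : Fin T → V) (hUX : U ⊆ X) :
    Rq f q U y ≤ q * f X + (univ.filter (fun t => y t ∉ X)).card := by
  unfold Rq
  exact Finset.inf'_le (f := fun X => q * f X + (univ.filter (fun t => y t ∉ X)).card) (by simp [hUX])

/-- weights as sums over levels -/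
theorem sum_levels (w : V → ℕ) (k : ℕ) (hk : ∀ v, w v ≤ k) (o : V → ℝ) :
    ∑ v, (w v : ℝ) * o v = ∑ θ ∈ range k, ∑ v with θ < w v, o v := by
  have : ∀ θ ∈ range k, ∑ v with θ < w v, o v = ∑ v, if θ < w v then o v else 0 := by
    intro θ _
    rw [Finset.sum_filter]
  rw [Finset.sum_congr rfl this, Finset.sum_comm]
  apply Finset.sum_congr rfl
  intro v _
  rw [← Finset.sum_filter, Finset.sum_const, nsmul_eq_mul]
  congr 2
  have : (range k).filter (fun θ => θ < w v) = range (w v) := by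
    ext θ
    simp only [Finset.mem_filter, Finset.mem_range]
    have := hk v
    omega
  rw [this, Finset.card_range]

/-- pairs of neighbours in `J` -/
theorem pairs_le (N : V → Finset V) (hsym : ∀ u v, u ∈ N v ↔ v ∈ N u) (J S : Finset V) :
    ((J ×ˢ J).filter (fun p => p.1 ∈ N p.2)).card ≤
      ∑ v ∈ J, ((N v ∩ S).card + if v ∈ S then 0 else (N v).card) := by
  have h1 : ((J ×ˢ J).filter (fun p => p.1 ∈ N p.2)).card =
      ∑ p ∈ J ×ˢ J, if p.1 ∈ N p.2 then 1 else 0 := by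
    rw [Finset.card_filter]
  rw [h1]
  have h2 : ∑ p ∈ J ×ˢ J, (if p.1 ∈ N p.2 then 1 else 0) ≤
      ∑ p ∈ J ×ˢ J, ((if p.1 ∈ N p.2 ∧ p.1 ∈ S then 1 else 0) +
        (if p.2 ∈ N p.1 ∧ p.1 ∉ S then 1 else 0)) := by
    apply Finset.sum_le_sum
    intro p _
    by_cases hp : p.1 ∈ N p.2
    · have := (hsym p.1 p.2).mp hp
      by_cases hs : p.1 ∈ S <;> simp [hp, hs, this]
    · simp [hp]
  refine h2.trans ?_
  rw [Finset.sum_add_distrib, Finset.sum_add_distrib]
  apply Nat.add_le_add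
  · rw [Finset.sum_product_right]
    apply Finset.sum_le_sum
    intro v _
    rw [← Finset.card_filter]
    apply Finset.card_le_card
    intro u hu
    simp only [Finset.mem_filter, Finset.mem_inter] at hu ⊢
    exact hu.2
  · rw [Finset.sum_product]
    apply Finset.sum_le_sum
    intro v _
    by_cases hs : v ∈ S
    · simp [hs]
    · simp only [hs, not_false_eq_true, and_true, if_false]
      rw [← Finset.card_filter]
      apply Finset.card_le_card
      intro u hu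
      simp only [Finset.mem_filter] at hu
      exact hu.2

theorem step (f₁ f₂ : Finset V → ℕ) (r k : ℕ) (hf₁ : IsRankFn f₁) (hf₂ : IsRankFn f₂)
    (hk : Fintype.card V = k) (h₁ : f₁ univ = r) (h₂ : f₂ univ = r)
    (N : V → Finset V) (hN : ∀ v, v ∈ N v) (hsym : ∀ u v, u ∈ N v ↔ v ∈ N u)
    (q T : ℕ) (hq : 0 < q) (Λ : ℝ) (hΛ : 0 ≤ Λ) (y : Fin T → V) :
    ∃ R C : Finset V, R.card = r ∧ f₁ R = r ∧ C.card = r ∧ f₂ C = r ∧
      ∑ v ∈ R ∪ C, ((N v).card : ℝ) +
        Λ * ((((R ∪ C) ×ˢ (R ∪ C)).filter (fun p => p.1 ∈ N p.2)).card : ℝ) ≤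
      1 / (q : ℝ) * (∑ t, ((N (y t)).card : ℝ) +
        Λ * ∑ t, ∑ s, (if y s ∈ N (y t) then (1 : ℝ) else 0)) +
      (1 + 2 * Λ) * (∑ θ ∈ range k, ((r : ℝ) -
          (Rq f₁ q (univ.filter (fun v => (N v).card ≤ θ)) y : ℝ) / q) +
        ∑ θ ∈ range k, ((r : ℝ) -
          (Rq f₂ q (univ.filter (fun v => (N v).card ≤ θ)) y : ℝ) / q)) := by
  classical
  have hq' : (0 : ℝ) < q := by exact_mod_cast hq
  set S : Finset V := univ.image y with hS
  set c : V → ℝ := fun v => (cnt y v : ℝ) / q with hc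
  have hc0 : ∀ v, 0 ≤ c v := fun v => by positivity
  have hwk : ∀ v, (N v).card ≤ k := fun v => by
    rw [← hk]; exact Finset.card_le_univ _
  have hg : ∀ f : Finset V → ℕ, ∀ θ : ℕ, ∀ X : Finset V, (∀ v, (N v).card ≤ θ → v ∈ X) →
      (Rq f q (univ.filter (fun v => (N v).card ≤ θ)) y : ℝ) / q ≤ f X + ∑ v ∈ Xᶜ, c v := by
    intro f θ X hX
    have h := Rq_le (f := f) (q := q) (U := univ.filter (fun v => (N v).card ≤ θ)) (X := X) y
      (by intro v hv; simp only [Finset.mem_filter, Finset.mem_univ, true_and] at hv; exact hX v hv)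
    rw [card_not_mem] at h
    have h' : (Rq f q (univ.filter (fun v => (N v).card ≤ θ)) y : ℝ) ≤
        q * f X + ∑ v ∈ Xᶜ, (cnt y v : ℝ) := by exact_mod_cast h
    rw [div_le_iff₀ hq', hc, ← Finset.sum_div]
    calc _ ≤ _ := h'
      _ = _ := by field_simp
  obtain ⟨z₁, hz₁, hz₁', hz₁s, hz₁o⟩ := capacity f₁ hf₁ r h₁ c hc0 (fun v => (N v).card)
    (fun θ => (Rq f₁ q (univ.filter (fun v => (N v).card ≤ θ)) y : ℝ) / q) (hg f₁)
  obtain ⟨z₂, hz₂, hz₂', hz₂s, hz₂o⟩ := capacity f₂ hf₂ r h₂ c hc0 (fun v => (N v).card)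
    (fun θ => (Rq f₂ q (univ.filter (fun v => (N v).card ≤ θ)) y : ℝ) / q) (hg f₂)
  set a : V → ℝ := fun v => ((N v).card : ℝ) + Λ * (((N v ∩ S).card + if v ∈ S then 0 else
    (N v).card : ℕ) : ℝ) with ha
  have ha0 : ∀ v, 0 ≤ a v := fun v => by positivity
  obtain ⟨R, C, hR, hR', hC, hC', hRC⟩ := integrality f₁ f₂ hf₁ hf₂ r h₁ h₂ z₁ z₂ hz₁ hz₂ hz₁' hz₂'
    hz₁s hz₂s a ha0
  refine ⟨R, C, hR, hR', hC, hC', ?_⟩
  have hL : ∑ v ∈ R ∪ C, ((N v).card : ℝ) +
      Λ * ((((R ∪ C) ×ˢ (R ∪ C)).filter (fun p => p.1 ∈ N p.2)).card : ℝ) ≤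
      ∑ v ∈ R ∪ C, a v := by
    rw [ha, Finset.sum_add_distrib, ← Finset.mul_sum]
    have h := pairs_le N hsym (R ∪ C) S
    have h' : ((((R ∪ C) ×ˢ (R ∪ C)).filter (fun p => p.1 ∈ N p.2)).card : ℝ) ≤
        ∑ v ∈ R ∪ C, (((N v ∩ S).card + if v ∈ S then 0 else (N v).card : ℕ) : ℝ) := by
      exact_mod_cast h
    have := mul_le_mul_of_nonneg_left h' hΛ
    linarith
  refine hL.trans (hRC.trans ?_)
  have hmax : ∀ v, a v * max (z₁ v) (z₂ v) ≤ a v * c v +
      (1 + 2 * Λ) * (((N v).card : ℝ) * max (z₁ v - c v) 0 + ((N v).card : ℝ) * max (z₂ v - c v) 0) := by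
    intro v
    have h1 : max (z₁ v) (z₂ v) ≤ c v + (max (z₁ v - c v) 0 + max (z₂ v - c v) 0) := by
      apply max_le
      · have := le_max_left (z₁ v - c v) 0
        have := le_max_right (z₂ v - c v) 0
        linarith
      · have := le_max_left (z₂ v - c v) 0
        have := le_max_right (z₁ v - c v) 0
        linarith
    have h2 : a v ≤ (1 + 2 * Λ) * ((N v).card : ℝ) := by
      have h3 : (((N v ∩ S).card + if v ∈ S then 0 else (N v).card : ℕ) : ℝ) ≤ 2 * ((N v).card : ℝ) := by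
        have : ((N v ∩ S).card + if v ∈ S then 0 else (N v).card) ≤ 2 * (N v).card := by
          have := Finset.card_le_card (Finset.inter_subset_left (s₁ := N v) (s₂ := S))
          split_ifs <;> omega
        exact_mod_cast this
      have := mul_le_mul_of_nonneg_left h3 hΛ
      simp only [ha]
      linarith
    have h4 : 0 ≤ max (z₁ v - c v) 0 + max (z₂ v - c v) 0 :=
      add_nonneg (le_max_right _ _) (le_max_right _ _)
    calc a v * max (z₁ v) (z₂ v) ≤ a v * (c v + (max (z₁ v - c v) 0 + max (z₂ v - c v) 0)) :=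
          mul_le_mul_of_nonneg_left h1 (ha0 v)
      _ = a v * c v + a v * (max (z₁ v - c v) 0 + max (z₂ v - c v) 0) := by ring
      _ ≤ a v * c v + ((1 + 2 * Λ) * ((N v).card : ℝ)) * (max (z₁ v - c v) 0 + max (z₂ v - c v) 0) := by
          have := mul_le_mul_of_nonneg_right h2 h4
          linarith
      _ = _ := by ring
  refine (Finset.sum_le_sum (fun v _ => hmax v)).trans ?_
  rw [Finset.sum_add_distrib, ← Finset.mul_sum, Finset.sum_add_distrib]
  have hout : ∀ z : V → ℝ, ∀ f : Finset V → ℕ,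
      (∀ θ : ℕ, ∑ v with θ < (N v).card, max (z v - c v) 0 ≤
        r - (Rq f q (univ.filter (fun v => (N v).card ≤ θ)) y : ℝ) / q) →
      ∑ v, ((N v).card : ℝ) * max (z v - c v) 0 ≤ ∑ θ ∈ range k, ((r : ℝ) -
          (Rq f q (univ.filter (fun v => (N v).card ≤ θ)) y : ℝ) / q) := by
    intro z f h
    rw [sum_levels (fun v => (N v).card) k hwk (fun v => max (z v - c v) 0)]
    exact Finset.sum_le_sum (fun θ _ => h θ)
  have ho1 := hout z₁ f₁ hz₁o
  have ho2 := hout z₂ f₂ hz₂o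
  have hac : ∑ v, a v * c v ≤ 1 / (q : ℝ) * (∑ t, ((N (y t)).card : ℝ) +
        Λ * ∑ t, ∑ s, (if y s ∈ N (y t) then (1 : ℝ) else 0)) := by
    have e1 : ∑ v, a v * c v = 1 / (q : ℝ) * ∑ t, a (y t) := by
      rw [← sum_cnt, Finset.mul_sum]
      apply Finset.sum_congr rfl
      intro v _
      simp only [hc]
      ring
    rw [e1]
    apply mul_le_mul_of_nonneg_left _ (by positivity)
    rw [Finset.mul_sum, ← Finset.sum_add_distrib]
    apply Finset.sum_le_sum
    intro t _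
    have hyt : y t ∈ S := by rw [hS]; exact Finset.mem_image_of_mem y (Finset.mem_univ t)
    simp only [ha, hyt, if_true, add_zero]
    have h5 : ((N (y t) ∩ S).card : ℝ) ≤ ∑ s, (if y s ∈ N (y t) then (1 : ℝ) else 0) := by
      rw [Finset.sum_boole]
      have : (N (y t) ∩ S).card ≤ (univ.filter (fun s => y s ∈ N (y t))).card := by
        have : N (y t) ∩ S ⊆ (univ.filter (fun s => y s ∈ N (y t))).image y := by
          intro v hv
          simp only [hS, Finset.mem_inter, Finset.mem_image, Finset.mem_univ, true_and] at hv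
          obtain ⟨hv1, s, rfl⟩ := hv
          exact Finset.mem_image_of_mem y (by simp [hv1])
        exact (Finset.card_le_card this).trans Finset.card_image_le
      exact_mod_cast this
    have := mul_le_mul_of_nonneg_left h5 hΛ
    linarith
  have h6 : (0 : ℝ) ≤ 1 + 2 * Λ := by linarith
  have := mul_le_mul_of_nonneg_left (add_le_add ho1 ho2) h6
  linarith

theorem avg_first (N : V → Finset V) (k : ℕ) (hk : Fintype.card V = k) (hk0 : 0 < k) (T : ℕ) :
    ∑ y : Fin T → V, ∑ t, ((N (y t)).card : ℝ) =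
      (k : ℝ) ^ T * (T * (∑ v, ((N v).card : ℝ)) / k) := by
  have hk' : (0 : ℝ) < k := by exact_mod_cast hk0
  rw [Finset.sum_comm]
  have : ∀ t : Fin T, ∑ y : Fin T → V, ((N (y t)).card : ℝ) =
      (k : ℝ) ^ T * (∑ v, ((N v).card : ℝ)) / k := by
    intro t
    have h := sum_one (fun v => ((N v).card : ℝ)) t
    rw [hk] at h
    field_simp
    linarith
  simp only [this, Finset.sum_const, Finset.card_univ, Fintype.card_fin, nsmul_eq_mul]
  ring

theorem avg_second (N : V → Finset V) (k : ℕ) (hk : Fintype.card V = k) (hk0 : 0 < k) (T : ℕ) :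
    ∑ y : Fin T → V, ∑ t, ∑ s, (if y s ∈ N (y t) then (1 : ℝ) else 0) ≤
      (k : ℝ) ^ T * (T + (T : ℝ) ^ 2 * (∑ v, ((N v).card : ℝ)) / (k : ℝ) ^ 2) := by
  have hk' : (0 : ℝ) < k := by exact_mod_cast hk0
  have hW : 0 ≤ ∑ v, ((N v).card : ℝ) := Finset.sum_nonneg (fun v _ => by positivity)
  have key : ∀ t s : Fin T, ∑ y : Fin T → V, (if y s ∈ N (y t) then (1 : ℝ) else 0) ≤
      (if t = s then (k : ℝ) ^ T else 0) +
        (k : ℝ) ^ T * (∑ v, ((N v).card : ℝ)) / (k : ℝ) ^ 2 := by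
    intro t s
    by_cases hts : t = s
    · rw [if_pos hts]
      have h1 : ∑ y : Fin T → V, (if y s ∈ N (y t) then (1 : ℝ) else 0) ≤
          ∑ y : Fin T → V, (1 : ℝ) := by
        apply Finset.sum_le_sum
        intro y _
        split_ifs <;> norm_num
      have h2 : ∑ y : Fin T → V, (1 : ℝ) = (k : ℝ) ^ T := by
        simp [hk]
      have h3 : 0 ≤ (k : ℝ) ^ T * (∑ v, ((N v).card : ℝ)) / (k : ℝ) ^ 2 := by positivity
      linarith
    · rw [if_neg hts, zero_add]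
      have h1 : ∀ y : Fin T → V, (if y s ∈ N (y t) then (1 : ℝ) else 0) =
          ∑ x : V, (if y t = x then (1 : ℝ) else 0) * (if y s ∈ N x then (1 : ℝ) else 0) := by
        intro y
        rw [Finset.sum_eq_single (y t)]
        · simp
        · intro b _ hb
          rw [if_neg (Ne.symm hb), zero_mul]
        · intro h
          exact absurd (Finset.mem_univ _) h
      simp only [h1]
      rw [Finset.sum_comm]
      have h2 : ∀ x : V, ∑ y : Fin T → V, (if y t = x then (1 : ℝ) else 0) *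
          (if y s ∈ N x then (1 : ℝ) else 0) = (k : ℝ) ^ T * ((N x).card : ℝ) / (k : ℝ) ^ 2 := by
        intro x
        have h := sum_two (fun v => if v = x then (1 : ℝ) else 0)
          (fun v => if v ∈ N x then (1 : ℝ) else 0) t s hts
        rw [hk] at h
        simp only [Finset.sum_ite_eq', Finset.mem_univ, if_true, one_mul, Finset.sum_boole,
          Finset.filter_mem_eq_inter, Finset.univ_inter] at h
        field_simp
        linarith
      simp only [h2]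
      rw [← Finset.sum_div, ← Finset.mul_sum]
  rw [Finset.sum_comm]
  have e : ∀ t : Fin T, ∑ y : Fin T → V, ∑ s, (if y s ∈ N (y t) then (1 : ℝ) else 0) ≤
      (k : ℝ) ^ T + T * ((k : ℝ) ^ T * (∑ v, ((N v).card : ℝ)) / (k : ℝ) ^ 2) := by
    intro t
    rw [Finset.sum_comm]
    refine (Finset.sum_le_sum (fun s _ => key t s)).trans ?_
    rw [Finset.sum_add_distrib]
    simp
  refine (Finset.sum_le_sum (fun t _ => e t)).trans ?_
  simp only [Finset.sum_const, Finset.card_univ, Fintype.card_fin, nsmul_eq_mul]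
  apply le_of_eq
  ring

theorem avg_third (f : Finset V → ℕ) (hf : IsRankFn f) (N : V → Finset V) (r k : ℕ) (hr : 0 < r)
    (hfu : f univ = r) (hk : Fintype.card V = k) (hk0 : 0 < k)
    (hdens : ∀ X : Finset V, r * X.card ≤ k * f X) (q T : ℕ) (hq : 0 < q)
    (δ : ℝ) (hδ : 0 < δ) (hT : (1 + δ) * q * r ≤ T) :
    ∑ y : Fin T → V, ∑ θ ∈ range k, ((r : ℝ) -
          (Rq f q (univ.filter (fun v => (N v).card ≤ θ)) y : ℝ) / q) ≤
      (k : ℝ) ^ T * (((1 + δ) / (δ ^ 2 * q)) * (r * (∑ v, ((N v).card : ℝ)) / k)) := by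
  have hk' : (0 : ℝ) < k := by exact_mod_cast hk0
  have hq' : (0 : ℝ) < q := by exact_mod_cast hq
  rw [Finset.sum_comm]
  have h1 : ∀ θ ∈ range k, ∑ y : Fin T → V, ((r : ℝ) -
          (Rq f q (univ.filter (fun v => (N v).card ≤ θ)) y : ℝ) / q) ≤
      (k : ℝ) ^ T * ((1 + δ) / (δ ^ 2 * q)) * (r / k * ∑ v with θ < (N v).card, (1 : ℝ)) := by
    intro θ _
    refine (sampling f hf r k hr hfu hk hdens _ q T hq δ hδ hT).trans ?_
    have h2 : (r : ℝ) - f (univ.filter (fun v => (N v).card ≤ θ)) ≤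
        r / k * ∑ v with θ < (N v).card, (1 : ℝ) := by
      have h3 := hdens (univ.filter (fun v => (N v).card ≤ θ))
      have h4 : (univ.filter (fun v => (N v).card ≤ θ)).card +
          (univ.filter (fun v => θ < (N v).card)).card = k := by
        rw [← hk, ← Finset.card_univ]
        rw [← Finset.card_filter_add_card_filter_not (s := (univ : Finset V)) (fun v => (N v).card ≤ θ)]
        congr 2
        ext v
        simp
      have h3' : (r : ℝ) * (univ.filter (fun v => (N v).card ≤ θ)).card ≤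
          k * f (univ.filter (fun v => (N v).card ≤ θ)) := by exact_mod_cast h3
      have h4' : ((univ.filter (fun v => (N v).card ≤ θ)).card : ℝ) +
          (univ.filter (fun v => θ < (N v).card)).card = k := by exact_mod_cast h4
      rw [Finset.sum_const, nsmul_eq_mul, mul_one, div_mul_eq_mul_div, le_div_iff₀ hk']
      nlinarith
    have h5 : 0 ≤ (k : ℝ) ^ T * ((1 + δ) / (δ ^ 2 * q)) := by positivity
    calc (k : ℝ) ^ T * ((r : ℝ) - f (univ.filter (fun v => (N v).card ≤ θ))) *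
          ((1 + δ) / (δ ^ 2 * q))
        = (k : ℝ) ^ T * ((1 + δ) / (δ ^ 2 * q)) *
          ((r : ℝ) - f (univ.filter (fun v => (N v).card ≤ θ))) := by ring
      _ ≤ _ := mul_le_mul_of_nonneg_left h2 h5
  refine (Finset.sum_le_sum h1).trans ?_
  rw [← Finset.mul_sum, ← Finset.mul_sum]
  have h6 := sum_levels (fun v => (N v).card) k (fun v => by
    rw [← hk]; exact Finset.card_le_univ _) (fun _ => (1 : ℝ))
  simp only [mul_one] at h6
  rw [← h6]
  apply le_of_eq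
  ring

/-- existence of a good sample, with explicit parameters -/
theorem good (f₁ f₂ : Finset V → ℕ) (r k : ℕ) (hf₁ : IsRankFn f₁) (hf₂ : IsRankFn f₂) (hr : 0 < r)
    (hk : Fintype.card V = k) (hk0 : 0 < k) (h₁ : f₁ univ = r) (h₂ : f₂ univ = r)
    (hd₁ : ∀ X : Finset V, r * X.card ≤ k * f₁ X) (hd₂ : ∀ X : Finset V, r * X.card ≤ k * f₂ X)
    (N : V → Finset V) (hN : ∀ v, v ∈ N v) (hsym : ∀ u v, u ∈ N v ↔ v ∈ N u)
    (q T : ℕ) (hq : 0 < q) (Λ δ : ℝ) (hΛ : 0 ≤ Λ) (hδ : 0 < δ) (hT : (1 + δ) * q * r ≤ T) :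
    ∃ R C : Finset V, R.card = r ∧ f₁ R = r ∧ C.card = r ∧ f₂ C = r ∧
      ∑ v ∈ R ∪ C, ((N v).card : ℝ) +
        Λ * ((((R ∪ C) ×ˢ (R ∪ C)).filter (fun p => p.1 ∈ N p.2)).card : ℝ) ≤
      1 / (q : ℝ) * (T * (∑ v, ((N v).card : ℝ)) / k +
        Λ * (T + (T : ℝ) ^ 2 * (∑ v, ((N v).card : ℝ)) / (k : ℝ) ^ 2)) +
      (1 + 2 * Λ) * (2 * (((1 + δ) / (δ ^ 2 * q)) * (r * (∑ v, ((N v).card : ℝ)) / k))) := by
  classical
  have hk' : (0 : ℝ) < k := by exact_mod_cast hk0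
  have hq' : (0 : ℝ) < q := by exact_mod_cast hq
  have : Nonempty V := by
    rw [← Fintype.card_pos_iff, hk]; exact hk0
  set B : ℝ := 1 / (q : ℝ) * (T * (∑ v, ((N v).card : ℝ)) / k +
        Λ * (T + (T : ℝ) ^ 2 * (∑ v, ((N v).card : ℝ)) / (k : ℝ) ^ 2)) +
      (1 + 2 * Λ) * (2 * (((1 + δ) / (δ ^ 2 * q)) * (r * (∑ v, ((N v).card : ℝ)) / k))) with hB
  have hsum : ∑ y : Fin T → V, (1 / (q : ℝ) * (∑ t, ((N (y t)).card : ℝ) +
        Λ * ∑ t, ∑ s, (if y s ∈ N (y t) then (1 : ℝ) else 0)) +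
      (1 + 2 * Λ) * (∑ θ ∈ range k, ((r : ℝ) -
          (Rq f₁ q (univ.filter (fun v => (N v).card ≤ θ)) y : ℝ) / q) +
        ∑ θ ∈ range k, ((r : ℝ) -
          (Rq f₂ q (univ.filter (fun v => (N v).card ≤ θ)) y : ℝ) / q))) ≤
      ∑ y : Fin T → V, B := by
    rw [Finset.sum_add_distrib, ← Finset.mul_sum, ← Finset.mul_sum, Finset.sum_add_distrib,
      Finset.sum_add_distrib, ← Finset.mul_sum]
    have e1 := avg_first N k hk hk0 T
    have e2 := avg_second N k hk hk0 T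
    have e3 := avg_third f₁ hf₁ N r k hr h₁ hk hk0 hd₁ q T hq δ hδ hT
    have e4 := avg_third f₂ hf₂ N r k hr h₂ hk hk0 hd₂ q T hq δ hδ hT
    rw [e1]
    have e5 : ∑ y : Fin T → V, B = (k : ℝ) ^ T * B := by
      simp [hk]
    rw [e5, hB]
    have e6 := mul_le_mul_of_nonneg_left e2 hΛ
    have e7 : (0 : ℝ) ≤ 1 / q := by positivity
    have e8 : (0 : ℝ) ≤ 1 + 2 * Λ := by linarith
    have e9 := mul_le_mul_of_nonneg_left e6 e7
    have e10 := mul_le_mul_of_nonneg_left (add_le_add e3 e4) e8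
    refine (add_le_add (?_ : _ ≤ 1 / (q : ℝ) * ((k : ℝ) ^ T * (T * (∑ v, ((N v).card : ℝ)) / k) +
      Λ * ((k : ℝ) ^ T * (T + (T : ℝ) ^ 2 * (∑ v, ((N v).card : ℝ)) / (k : ℝ) ^ 2)))) e10).trans ?_
    · rw [mul_add, mul_add]
      linarith
    · apply le_of_eq
      ring
  obtain ⟨y, _, hy⟩ := Finset.exists_le_of_sum_le (s := (univ : Finset (Fin T → V)))
    ⟨fun _ => Classical.arbitrary V, Finset.mem_univ _⟩ hsum
  obtain ⟨R, C, hR, hR', hC, hC', h⟩ := step f₁ f₂ r k hf₁ hf₂ hk h₁ h₂ N hN hsym q T hq Λ hΛ y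
  exact ⟨R, C, hR, hR', hC, hC', h.trans hy⟩

/-- the numerical part of the proof of `lemmaA` -/
theorem numeric (e q T W k r : ℝ) (he : 0 < e) (he1 : e ≤ 1) (hq' : 1 ≤ q)
    (hq1 : 8 * (1 + 2 * (4 / e)) * (1 + e / 8) / ((e / 8) ^ 2 * e) ≤ q)
    (hr' : 1 ≤ r) (hk' : 0 < k) (hW0 : 0 ≤ W) (hT0 : 0 ≤ T)
    (hT2 : T ≤ (1 + 2 * (e / 8)) * q * r) (hkW : k * k ≤ r * W)
    (hmk' : 32 * (4 / e) * q * r ≤ e * k) :
    1 / q * (T * W / k + 4 / e * (T + T ^ 2 * W / k ^ 2)) +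
      (1 + 2 * (4 / e)) * (2 * (((1 + e / 8) / ((e / 8) ^ 2 * q)) * (r * W / k))) ≤
      (1 + e) * (r * W / k) := by
  obtain ⟨L, hL⟩ : ∃ L : ℝ, L = 4 / e := ⟨_, rfl⟩
  obtain ⟨d, hd⟩ : ∃ d : ℝ, d = e / 8 := ⟨_, rfl⟩
  have hL0 : 0 < L := by rw [hL]; positivity
  have hd0 : 0 < d := by rw [hd]; positivity
  have hq0 : 0 < q := by linarith
  rw [← hL, ← hd] at hq1
  rw [← hd] at hT2
  rw [← hL] at hmk'
  rw [← hL, ← hd]
  obtain ⟨A, hA⟩ : ∃ A : ℝ, A = r * W / k := ⟨_, rfl⟩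
  have hkA : k ≤ A := by
    rw [hA, le_div_iff₀ hk']
    exact hkW
  have hA0 : 0 < A := lt_of_lt_of_le hk' hkA
  have hTq : T ≤ 2 * q * r := by
    refine hT2.trans ?_
    have : 1 + 2 * d ≤ 2 := by rw [hd]; linarith
    have h0 : 0 ≤ q * r := by positivity
    nlinarith
  have t1 : 1 / q * (T * W / k) ≤ (1 + 2 * d) * A := by
    have : 1 / q * (T * W / k) = T * (W / k) / q := by field_simp
    rw [this, div_le_iff₀ hq0]
    have h1 : T * (W / k) ≤ (1 + 2 * d) * q * r * (W / k) :=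
      mul_le_mul_of_nonneg_right hT2 (by positivity)
    refine h1.trans (le_of_eq ?_)
    rw [hA]
    ring
  have t2 : 1 / q * (L * T) ≤ e / 8 * A := by
    have : 1 / q * (L * T) = L * T / q := by field_simp
    rw [this, div_le_iff₀ hq0]
    have h2 : L * T ≤ L * (2 * q * r) := mul_le_mul_of_nonneg_left hTq hL0.le
    have h3 : L * (2 * q * r) ≤ e / 8 * k := by
      have : 16 * (L * (2 * q * r)) ≤ e * k := by linarith
      have h30 : 0 ≤ e * k := by positivity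
      linarith
    have h4 : e / 8 * k ≤ e / 8 * A := mul_le_mul_of_nonneg_left hkA (by positivity)
    have h5 : e / 8 * A ≤ e / 8 * A * q := by
      have : 0 ≤ e / 8 * A := by positivity
      nlinarith
    linarith
  have t3 : 1 / q * (L * (T ^ 2 * W / k ^ 2)) ≤ e / 8 * A := by
    have h2 : T ^ 2 ≤ (2 * q * r) ^ 2 := by
      apply pow_le_pow_left₀ hT0 hTq
    have h3 : 1 / q * (L * (T ^ 2 * W / k ^ 2)) ≤
        1 / q * (L * ((2 * q * r) ^ 2 * W / k ^ 2)) := by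
      gcongr
    refine h3.trans ?_
    have h4 : 1 / q * (L * ((2 * q * r) ^ 2 * W / k ^ 2)) =
        (4 * L * q * r / k) * A := by
      rw [hA]
      field_simp
      ring
    rw [h4]
    apply mul_le_mul_of_nonneg_right _ hA0.le
    rw [div_le_iff₀ hk']
    linarith
  have t4 : (1 + 2 * L) * (2 * (((1 + d) / (d ^ 2 * q)) * A)) ≤ e / 4 * A := by
    have h1 : (1 + 2 * L) * (2 * (((1 + d) / (d ^ 2 * q)) * A)) =
        ((1 + 2 * L) * 2 * (1 + d) / (d ^ 2 * q)) * A := by ring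
    rw [h1]
    apply mul_le_mul_of_nonneg_right _ hA0.le
    rw [div_le_iff₀ (by positivity)]
    rw [div_le_iff₀ (by positivity)] at hq1
    linarith
  rw [← hA]
  have : 1 / q * (T * W / k + L * (T + T ^ 2 * W / k ^ 2)) =
      1 / q * (T * W / k) + 1 / q * (L * T) + 1 / q * (L * (T ^ 2 * W / k ^ 2)) := by ring
  rw [this]
  have hd' : (1 + 2 * d) * A = A + e / 4 * A := by rw [hd]; ring
  have hAe : (1 + e) * A = A + e * A := by ring
  have : 0 ≤ e * A := by positivity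
  linarith

end LemA

theorem lemmaA (η : ℝ) (hη : 0 < η) : ∃ m₀ : ℝ, 0 < m₀ ∧
    ∀ (V : Type) [Fintype V] [DecidableEq V] (f₁ f₂ : Finset V → ℕ) (r k : ℕ),
      IsRankFn f₁ → IsRankFn f₂ → 0 < r → Fintype.card V = k → f₁ univ = r → f₂ univ = r →
      (∀ X : Finset V, r * X.card ≤ k * f₁ X) → (∀ X : Finset V, r * X.card ≤ k * f₂ X) →
      ∀ N : V → Finset V, (∀ v, v ∈ N v) → (∀ u v, u ∈ N v ↔ v ∈ N u) →
      (∀ v, k ≤ r * (N v).card) → m₀ * r ≤ k →
      ∃ R C : Finset V, R.card = r ∧ f₁ R = r ∧ C.card = r ∧ f₂ C = r ∧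
        (k : ℝ) * ∑ v ∈ R ∪ C, ((N v).card : ℝ) ≤ (1 + η) * r * ∑ v, ((N v).card : ℝ) ∧
        (k : ℝ) * ((((R ∪ C) ×ˢ (R ∪ C)).filter (fun p => p.1 ∈ N p.2)).card : ℝ) ≤
          η * r * ∑ v, ((N v).card : ℝ) := by
  -- parameters
  obtain ⟨e, he, he1, heη⟩ : ∃ e : ℝ, 0 < e ∧ e ≤ 1 ∧ e ≤ η :=
    ⟨min η 1, lt_min hη one_pos, min_le_right _ _, min_le_left _ _⟩
  obtain ⟨δ, hδ⟩ : ∃ δ : ℝ, δ = e / 8 := ⟨_, rfl⟩
  have hδ0 : 0 < δ := by rw [hδ]; positivity
  obtain ⟨Λ, hΛ⟩ : ∃ Λ : ℝ, Λ = 4 / e := ⟨_, rfl⟩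
  have hΛ0 : 0 < Λ := by rw [hΛ]; positivity
  obtain ⟨q, hq⟩ := exists_nat_ge (max (8 * (1 + 2 * Λ) * (1 + δ) / (δ ^ 2 * e)) (1 / δ + 1))
  have hq1 : 8 * (1 + 2 * Λ) * (1 + δ) / (δ ^ 2 * e) ≤ q := (le_max_left _ _).trans hq
  have hq2 : 1 / δ + 1 ≤ q := (le_max_right _ _).trans hq
  have hq0' : (1 : ℝ) ≤ q := by
    have : 0 < 1 / δ := by positivity
    linarith
  have hq0 : 0 < q := by
    have : (0 : ℝ) < q := by linarith
    exact_mod_cast this
  have hq' : (0 : ℝ) < q := by linarith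
  refine ⟨32 * Λ * q / e, by positivity, ?_⟩
  intro V _ _ f₁ f₂ r k hf₁ hf₂ hr hk h₁ h₂ hd₁ hd₂ N hN hsym hNk hmk
  have hr' : (1 : ℝ) ≤ r := by exact_mod_cast hr
  have hk' : (0 : ℝ) < k := by
    refine lt_of_lt_of_le ?_ hmk
    positivity
  have hk0 : 0 < k := by exact_mod_cast hk'
  obtain ⟨W, hW⟩ : ∃ W : ℝ, W = ∑ v, ((N v).card : ℝ) := ⟨_, rfl⟩
  have hW0 : 0 ≤ W := by rw [hW]; exact Finset.sum_nonneg (fun v _ => by positivity)
  obtain ⟨T, hT⟩ : ∃ T : ℕ, T = ⌈(1 + δ) * q * r⌉₊ := ⟨_, rfl⟩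
  have hT1 : (1 + δ) * q * r ≤ T := by rw [hT]; exact Nat.le_ceil _
  have hT2 : (T : ℝ) ≤ (1 + 2 * δ) * q * r := by
    have h1 : (T : ℝ) < (1 + δ) * q * r + 1 := by
      rw [hT]; exact Nat.ceil_lt_add_one (by positivity)
    have h2 : 1 ≤ δ * q * r := by
      have h3 : 1 ≤ δ * q := by
        have h4 : 1 / δ ≤ q := by linarith
        rw [div_le_iff₀ hδ0] at h4
        linarith
      nlinarith
    nlinarith
  obtain ⟨R, C, hR, hR', hC, hC', h⟩ := LemA.good f₁ f₂ r k hf₁ hf₂ hr hk hk0 h₁ h₂ hd₁ hd₂ N hN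
    hsym q T hq0 Λ δ hΛ0.le hδ0 hT1
  rw [← hW] at h
  -- `k² ≤ r W`
  have hkW : (k : ℝ) * k ≤ r * W := by
    have h1 : ∑ v : V, (k : ℝ) ≤ ∑ v, (r : ℝ) * ((N v).card : ℝ) := by
      apply Finset.sum_le_sum
      intro v _
      exact_mod_cast hNk v
    rw [← Finset.mul_sum, Finset.sum_const, Finset.card_univ, hk, nsmul_eq_mul, ← hW] at h1
    exact h1
  obtain ⟨A, hA⟩ : ∃ A : ℝ, A = r * W / k := ⟨_, rfl⟩
  have hkA : (k : ℝ) ≤ A := by
    rw [hA, le_div_iff₀ hk']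
    exact hkW
  have hA0 : 0 < A := lt_of_lt_of_le hk' hkA
  have hmk' : 32 * Λ * q * r ≤ e * k := by
    have : 32 * Λ * q / e * r = 32 * Λ * q * r / e := by ring
    rw [this, div_le_iff₀ he] at hmk
    linarith
  have hfin : ∑ v ∈ R ∪ C, ((N v).card : ℝ) +
        Λ * ((((R ∪ C) ×ˢ (R ∪ C)).filter (fun p => p.1 ∈ N p.2)).card : ℝ) ≤ (1 + e) * A := by
    rw [hΛ] at hmk' h ⊢
    rw [hδ] at h hT2
    rw [hΛ, hδ] at hq1
    rw [hA]
    exact h.trans (LemA.numeric e q T W k r he he1 hq0' hq1 hr' hk' hW0 (by positivity) hT2 hkW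
      hmk')
  have hAk : (k : ℝ) * A = r * W := by
    rw [hA]; field_simp
  have hP0 : (0 : ℝ) ≤ ((((R ∪ C) ×ˢ (R ∪ C)).filter (fun p => p.1 ∈ N p.2)).card : ℝ) := by
    positivity
  have hw0 : (0 : ℝ) ≤ ∑ v ∈ R ∪ C, ((N v).card : ℝ) :=
    Finset.sum_nonneg (fun v _ => by positivity)
  have hrW : 0 ≤ (r : ℝ) * W := by positivity
  rw [← hW]
  refine ⟨R, C, hR, hR', hC, hC', ?_, ?_⟩
  · have h1 : ∑ v ∈ R ∪ C, ((N v).card : ℝ) ≤ (1 + e) * A := by
      have : 0 ≤ Λ * ((((R ∪ C) ×ˢ (R ∪ C)).filter (fun p => p.1 ∈ N p.2)).card : ℝ) := by positivity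
      linarith
    calc (k : ℝ) * ∑ v ∈ R ∪ C, ((N v).card : ℝ) ≤ k * ((1 + e) * A) :=
          mul_le_mul_of_nonneg_left h1 hk'.le
      _ = (1 + e) * (k * A) := by ring
      _ = (1 + e) * (r * W) := by rw [hAk]
      _ ≤ (1 + η) * (r * W) := mul_le_mul_of_nonneg_right (by linarith) hrW
      _ = (1 + η) * r * W := by ring
  · have h1 : Λ * ((((R ∪ C) ×ˢ (R ∪ C)).filter (fun p => p.1 ∈ N p.2)).card : ℝ) ≤ 2 * A := by
      have : (1 + e) * A ≤ 2 * A := mul_le_mul_of_nonneg_right (by linarith) hA0.le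
      linarith
    have h2 : ((((R ∪ C) ×ˢ (R ∪ C)).filter (fun p => p.1 ∈ N p.2)).card : ℝ) ≤ e * A := by
      have h3 : Λ * (e * A) = 4 * A := by rw [hΛ]; field_simp
      have h4 : Λ * ((((R ∪ C) ×ˢ (R ∪ C)).filter (fun p => p.1 ∈ N p.2)).card : ℝ) ≤
          Λ * (e * A) := by rw [h3]; linarith
      exact le_of_mul_le_mul_left h4 hΛ0
    calc (k : ℝ) * ((((R ∪ C) ×ˢ (R ∪ C)).filter (fun p => p.1 ∈ N p.2)).card : ℝ) ≤
          k * (e * A) := mul_le_mul_of_nonneg_left h2 hk'.le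
      _ = e * (k * A) := by ring
      _ = e * (r * W) := by rw [hAk]
      _ ≤ η * (r * W) := mul_le_mul_of_nonneg_right heη hrW
      _ = η * r * W := by ring

end Pool.Agent.MP_d13902_co
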