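import Pool.Agent.MP_d13902_co.Defs

set_option autoImplicit false

open Finset
open scoped Classical

namespace Pool.Agent.MP_d13902_co

theorem lin_rowFn_eq {V : Type} (M : Matrix V V ℝ) (X : Finset V) :
    rowFn M X = Module.finrank ℝ (Submodule.span ℝ ((fun i j => M i j : V → (V → ℝ)) '' (X : Set V))) :=
  rfl

theorem lin_colFn_eq {V : Type} (M : Matrix V V ℝ) (X : Finset V) :
    colFn M X = Module.finrank ℝ (Submodule.span ℝ ((fun j i => M i j : V → (V → ℝ)) '' (X : Set V))) :=
  rfl

theorem isRankFn_rowFn {V : Type} [Fintype V] [DecidableEq V] (M : Matrix V V ℝ) :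
    IsRankFn (rowFn M) := by
  refine ⟨?_, ?_, ?_, ?_⟩
  · rw [lin_rowFn_eq]
    simp
  · intro X Y h
    rw [lin_rowFn_eq, lin_rowFn_eq]
    apply Submodule.finrank_mono
    apply Submodule.span_mono
    exact Set.image_mono (by exact_mod_cast h)
  · intro X Y
    simp only [lin_rowFn_eq]
    set f : V → (V → ℝ) := fun i j => M i j
    have h1 : Submodule.span ℝ (f '' ((X ∪ Y : Finset V) : Set V)) =
        Submodule.span ℝ (f '' (X : Set V)) ⊔ Submodule.span ℝ (f '' (Y : Set V)) := by
      rw [← Submodule.span_union, ← Set.image_union]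
      simp
    have h2 : Submodule.span ℝ (f '' ((X ∩ Y : Finset V) : Set V)) ≤
        Submodule.span ℝ (f '' (X : Set V)) ⊓ Submodule.span ℝ (f '' (Y : Set V)) := by
      apply le_inf
      · apply Submodule.span_mono
        apply Set.image_mono
        simp
      · apply Submodule.span_mono
        apply Set.image_mono
        simp
    rw [h1, ← Submodule.finrank_sup_add_finrank_inf_eq (Submodule.span ℝ (f '' (X : Set V)))
      (Submodule.span ℝ (f '' (Y : Set V)))]
    exact Nat.add_le_add_left (Submodule.finrank_mono h2) _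
  · intro v
    rw [lin_rowFn_eq]
    set f : V → (V → ℝ) := fun i j => M i j
    have : f '' (({v} : Finset V) : Set V) = {f v} := by simp
    rw [this]
    have := finrank_span_le_card (R := ℝ) ({f v} : Set (V → ℝ))
    simpa using this

theorem rowFn_univ {V : Type} [Fintype V] [DecidableEq V] (M : Matrix V V ℝ) :
    rowFn M univ = M.rank := by
  rw [Matrix.rank_eq_finrank_span_row, lin_rowFn_eq]
  have h : (fun i j => M i j : V → (V → ℝ)) '' ((univ : Finset V) : Set V) =
      Set.range (fun i j => M i j : V → (V → ℝ)) := by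
    rw [coe_univ, Set.image_univ]
  rw [h]
  rfl

theorem lin_colFn_univ {V : Type} [Fintype V] [DecidableEq V] (M : Matrix V V ℝ) :
    colFn M univ = M.rank := by
  unfold colFn
  rw [rowFn_univ, Matrix.rank_transpose]

/-- ranks of submatrices: restricting the columns does not increase the rank of a set of rows -/
theorem lin_prin_rank_le {V : Type} [Fintype V] [DecidableEq V] (A : Matrix V V ℝ)
    (S : Finset V) (X : Finset {x // x ∈ S}) :
    (prin A (X.map (Function.Embedding.subtype _))).rank ≤ rowFn (prin A S) X := by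
  rw [Matrix.rank_eq_finrank_span_row, lin_rowFn_eq]
  set S' : Finset V := X.map (Function.Embedding.subtype _) with hS'
  have hsub : ∀ x, x ∈ S' → x ∈ S := by
    intro x hx
    rw [hS', Finset.mem_map] at hx
    obtain ⟨y, _, rfl⟩ := hx
    exact y.2
  -- the restriction map
  let L : ({x // x ∈ S} → ℝ) →ₗ[ℝ] ({x // x ∈ S'} → ℝ) :=
    LinearMap.funLeft ℝ ℝ (fun x => ⟨x.1, hsub x.1 x.2⟩)
  have hspan : Submodule.span ℝ (Set.range (prin A S').row) ≤
      (Submodule.span ℝ ((fun i j => prin A S i j : {x // x ∈ S} → ({x // x ∈ S} → ℝ)) ''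
        (X : Set {x // x ∈ S}))).map L := by
    rw [Submodule.map_span]
    apply Submodule.span_mono
    rintro _ ⟨x, rfl⟩
    have hmm : ∀ z : V, z ∈ S' → ∃ y ∈ X, (y : V) = z := by
      intro z hz
      rw [hS', Finset.mem_map] at hz
      exact hz
    obtain ⟨y, hy, hyx⟩ := hmm x x.2
    refine ⟨fun j => prin A S y j, ⟨y, by exact_mod_cast hy, rfl⟩, ?_⟩
    ext j
    simp only [L, LinearMap.funLeft_apply, prin, Matrix.submatrix_apply, Matrix.row]
    have : (y : V) = x := hyx
    rw [this]
  calc Module.finrank ℝ (Submodule.span ℝ (Set.range (prin A S').row))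
      ≤ Module.finrank ℝ ((Submodule.span ℝ ((fun i j => prin A S i j :
        {x // x ∈ S} → ({x // x ∈ S} → ℝ)) '' (X : Set {x // x ∈ S}))).map L) :=
        Submodule.finrank_mono hspan
    _ ≤ _ := Submodule.finrank_map_le _ _

theorem lin_prin_transpose {V : Type} (A : Matrix V V ℝ) (S : Finset V) :
    prin A.transpose S = (prin A S).transpose := rfl

theorem exists_dense {V : Type} [Fintype V] [DecidableEq V] [Nonempty V] (A : Matrix V V ℝ) :
    ∃ S : Finset V, S.Nonempty ∧
      (prin A S).rank * Fintype.card V ≤ S.card * A.rank ∧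
      (∀ X : Finset {x // x ∈ S}, (prin A S).rank * X.card ≤ S.card * rowFn (prin A S) X) ∧
      (∀ X : Finset {x // x ∈ S}, (prin A S).rank * X.card ≤ S.card * colFn (prin A S) X) := by
  obtain ⟨S, hS, hmin⟩ := Finset.exists_min_image
    ((univ : Finset (Finset V)).filter (fun S => S.Nonempty))
    (fun S => ((prin A S).rank : ℚ) / (S.card : ℚ)) ⟨univ, by simp⟩
  simp only [mem_filter, mem_univ, true_and] at hS hmin
  have hScard : (0 : ℚ) < S.card := by exact_mod_cast hS.card_pos
  have key : ∀ S' : Finset V, (prin A S).rank * S'.card ≤ S.card * (prin A S').rank := by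
    intro S'
    rcases S'.eq_empty_or_nonempty with h | h
    · subst h; simp
    · have h1 := hmin S' h
      have h2 : (0 : ℚ) < S'.card := by exact_mod_cast h.card_pos
      rw [div_le_div_iff₀ hScard h2] at h1
      have h3 : (prin A S).rank * S'.card ≤ (prin A S').rank * S.card := by exact_mod_cast h1
      rw [mul_comm S.card]
      exact h3
  have hprin_univ : (prin A univ).rank = A.rank := by
    have : prin A univ = A.submatrix (Equiv.subtypeUnivEquiv (p := fun x => x ∈ (univ : Finset V))
      (fun x => mem_univ x)) (Equiv.subtypeUnivEquiv (p := fun x => x ∈ (univ : Finset V))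
      (fun x => mem_univ x)) := rfl
    rw [this, Matrix.rank_submatrix]
  have hcard : ∀ X : Finset {x // x ∈ S}, (X.map (Function.Embedding.subtype _)).card = X.card :=
    fun X => Finset.card_map _
  refine ⟨S, hS, ?_, ?_, ?_⟩
  · have := key univ
    rw [hprin_univ] at this
    simpa using this
  · intro X
    have h1 := key (X.map (Function.Embedding.subtype _))
    rw [hcard] at h1
    exact h1.trans (Nat.mul_le_mul_left _ (lin_prin_rank_le A S X))
  · intro X
    have h1 := key (X.map (Function.Embedding.subtype _))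
    rw [hcard] at h1
    refine h1.trans (Nat.mul_le_mul_left _ ?_)
    have h2 := lin_prin_rank_le A.transpose S X
    rw [lin_prin_transpose, lin_prin_transpose, Matrix.rank_transpose] at h2
    exact h2

theorem support_ge {V : Type} [Fintype V] [DecidableEq V] (M : Matrix V V ℝ)
    (hM : ∀ i, M i i ≠ 0)
    (hdens : ∀ X : Finset V, M.rank * X.card ≤ Fintype.card V * colFn M X) (i : V) :
    Fintype.card V ≤ M.rank * (univ.filter (fun j => M i j ≠ 0)).card := by
  set Z : Finset V := univ.filter (fun j => M i j = 0) with hZ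
  have hcomp : Z.card + (univ.filter (fun j => M i j ≠ 0)).card = Fintype.card V := by
    rw [hZ]
    have := Finset.card_filter_add_card_filter_not (s := (univ : Finset V)) (fun j => M i j = 0)
    simpa using this
  have hlt : colFn M Z < M.rank := by
    rw [← lin_colFn_univ M, lin_colFn_eq, lin_colFn_eq]
    set f : V → (V → ℝ) := fun j i => M i j with hf
    apply Submodule.finrank_lt_finrank_of_lt
    refine lt_of_le_of_ne ?_ ?_
    · apply Submodule.span_mono
      apply Set.image_mono
      simp
    · intro heq
      have h1 : f i ∈ Submodule.span ℝ (f '' (Z : Set V)) := by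
        rw [heq]
        apply Submodule.subset_span
        exact ⟨i, by simp, rfl⟩
      have h2 : Submodule.span ℝ (f '' (Z : Set V)) ≤ LinearMap.ker (LinearMap.proj (R := ℝ)
          (φ := fun _ : V => ℝ) i) := by
        rw [Submodule.span_le]
        rintro _ ⟨j, hj, rfl⟩
        simp only [hZ, coe_filter, mem_univ, true_and, Set.mem_ofPred_eq] at hj
        simp only [SetLike.mem_coe, LinearMap.mem_ker, LinearMap.proj_apply, hf]
        exact hj
      have h3 := h2 h1
      simp only [LinearMap.mem_ker, LinearMap.proj_apply, hf] at h3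
      exact hM i h3
  have h1 := hdens Z
  obtain ⟨s, hs⟩ : ∃ s, M.rank = colFn M Z + 1 + s := ⟨M.rank - (colFn M Z + 1), by omega⟩
  have h2 : Fintype.card V * (colFn M Z + 1) ≤ Fintype.card V * M.rank :=
    Nat.mul_le_mul_left _ hlt
  have h3 : M.rank * Z.card + M.rank * (univ.filter (fun j => M i j ≠ 0)).card =
      M.rank * Fintype.card V := by rw [← mul_add, hcomp]
  nlinarith

theorem lin_span_eq {V : Type} [Fintype V] [DecidableEq V] (f : V → (V → ℝ)) (X : Finset V)
    (h : Module.finrank ℝ (Submodule.span ℝ (Set.range f)) ≤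
      Module.finrank ℝ (Submodule.span ℝ (f '' (X : Set V)))) (i : V) :
    f i ∈ Submodule.span ℝ (f '' (X : Set V)) := by
  have hle : Submodule.span ℝ (f '' (X : Set V)) ≤ Submodule.span ℝ (Set.range f) :=
    Submodule.span_mono (Set.image_subset_range _ _)
  have := Submodule.eq_of_le_of_finrank_le hle h
  rw [this]
  exact Submodule.subset_span ⟨i, rfl⟩

theorem basis_det {V : Type} [Fintype V] [DecidableEq V] (M : Matrix V V ℝ) (r : ℕ)
    (hr : M.rank = r) (R C : Finset V) (hR : R.card = r) (hC : C.card = r)
    (hR' : rowFn M R = r) (hC' : colFn M C = r) (eR eC : Fin r → V)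
    (heR : Set.range eR = (R : Set V)) (heC : Set.range eC = (C : Set V)) :
    (M.submatrix eR eC).det ≠ 0 := by
  intro hdet
  obtain ⟨w, hw0, hw⟩ := Matrix.exists_mulVec_eq_zero_iff.mpr hdet
  apply hw0
  -- columns are linearly independent
  have hcols : LinearIndependent ℝ (fun b : Fin r => (fun i => M i (eC b) : V → ℝ)) := by
    rw [linearIndependent_iff_card_eq_finrank_span]
    rw [Fintype.card_fin, Set.finrank]
    have h1 : Set.range (fun b : Fin r => (fun i => M i (eC b) : V → ℝ)) =
        (fun j i => M i j : V → (V → ℝ)) '' (C : Set V) := by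
      rw [← heC, ← Set.range_comp]
      rfl
    rw [h1, ← lin_colFn_eq, hC']
  have hrows : ∀ i, (fun j => M i j : V → ℝ) ∈ Submodule.span ℝ
      (Set.range (fun a : Fin r => (fun j => M (eR a) j : V → ℝ))) := by
    intro i
    have h1 : Set.range (fun a : Fin r => (fun j => M (eR a) j : V → ℝ)) =
        (fun i j => M i j : V → (V → ℝ)) '' (R : Set V) := by
      rw [← heR, ← Set.range_comp]
      rfl
    rw [h1]
    apply lin_span_eq (fun i j => M i j : V → (V → ℝ)) R
    rw [← lin_rowFn_eq, hR', ← hr, Matrix.rank_eq_finrank_span_row]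
    rfl
  have hzero : ∑ b, w b • (fun i => M i (eC b) : V → ℝ) = 0 := by
    ext i
    simp only [Finset.sum_apply, Pi.smul_apply, smul_eq_mul, Pi.zero_apply]
    -- the functional `x ↦ ∑ b, w b * x (eC b)` vanishes on the rows in `R`
    let φ : (V → ℝ) →ₗ[ℝ] ℝ :=
      ∑ b, w b • (LinearMap.proj (R := ℝ) (φ := fun _ : V => ℝ) (eC b))
    have hφ : ∀ x : V → ℝ, φ x = ∑ b, w b * x (eC b) := by
      intro x
      simp [φ]
    have h2 : Submodule.span ℝ (Set.range (fun a : Fin r => (fun j => M (eR a) j : V → ℝ))) ≤
        LinearMap.ker φ := by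
      rw [Submodule.span_le]
      rintro _ ⟨a, rfl⟩
      simp only [SetLike.mem_coe, LinearMap.mem_ker, hφ]
      have h3 := congrFun hw a
      simp only [Matrix.mulVec, dotProduct, Matrix.submatrix_apply, Pi.zero_apply] at h3
      rw [← h3]
      exact Finset.sum_congr rfl (fun b _ => mul_comm _ _)
    have h4 := h2 (hrows i)
    rw [LinearMap.mem_ker, hφ] at h4
    exact h4
  have := (Fintype.linearIndependent_iff.mp hcols) w hzero
  ext b
  exact this b

theorem skeleton {V : Type} [Fintype V] [DecidableEq V] (M : Matrix V V ℝ) (r : ℕ)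
    (hr : M.rank ≤ r) (eR eC : Fin r → V) (hdet : (M.submatrix eR eC).det ≠ 0) (i j : V) :
    (M.submatrix eR eC).det * M i j =
      ∑ a : Fin r, ∑ b : Fin r, M i (eC a) * (M.submatrix eR eC).adjugate a b * M (eR b) j := by
  set B := M.submatrix eR eC with hB
  -- rows `eR` are linearly independent
  have hli : LinearIndependent ℝ (fun a : Fin r => (fun j => M (eR a) j : V → ℝ)) := by
    rw [Fintype.linearIndependent_iff]
    intro g hg
    have h1 : Matrix.vecMul g B = 0 := by
      ext c
      have := congrFun hg (eC c)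
      simp only [Finset.sum_apply, Pi.smul_apply, smul_eq_mul, Pi.zero_apply] at this
      simp only [Matrix.vecMul, dotProduct, hB, Matrix.submatrix_apply, Pi.zero_apply]
      exact this
    have h2 : g = 0 := by
      by_contra hne
      exact hdet (Matrix.exists_vecMul_eq_zero_iff.mp ⟨g, hne, h1⟩)
    intro a
    rw [h2]; rfl
  have hcard : Module.finrank ℝ (Submodule.span ℝ
      (Set.range (fun a : Fin r => (fun j => M (eR a) j : V → ℝ)))) = r := by
    have := linearIndependent_iff_card_eq_finrank_span.mp hli
    rw [Fintype.card_fin, Set.finrank] at this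
    exact this.symm
  have hmem : (fun j => M i j : V → ℝ) ∈ Submodule.span ℝ
      (Set.range (fun a : Fin r => (fun j => M (eR a) j : V → ℝ))) := by
    have hle : Submodule.span ℝ (Set.range (fun a : Fin r => (fun j => M (eR a) j : V → ℝ))) ≤
        Submodule.span ℝ (Set.range (fun i j => M i j : V → (V → ℝ))) := by
      apply Submodule.span_mono
      rintro _ ⟨a, rfl⟩
      exact ⟨eR a, rfl⟩
    have hfr : Module.finrank ℝ (Submodule.span ℝ (Set.range (fun i j => M i j : V → (V → ℝ)))) ≤
        Module.finrank ℝ (Submodule.span ℝ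
      (Set.range (fun a : Fin r => (fun j => M (eR a) j : V → ℝ)))) := by
      rw [hcard]
      refine le_trans (le_of_eq ?_) hr
      rw [Matrix.rank_eq_finrank_span_row]
      rfl
    rw [Submodule.eq_of_le_of_finrank_le hle hfr]
    exact Submodule.subset_span ⟨i, rfl⟩
  rw [Submodule.mem_span_range_iff_exists_fun] at hmem
  obtain ⟨l, hl⟩ := hmem
  have hl' : ∀ j, M i j = ∑ a, l a * M (eR a) j := by
    intro j
    have := congrFun hl j
    simp only [Finset.sum_apply, Pi.smul_apply, smul_eq_mul] at this
    exact this.symm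
  have hadj : ∀ b, ∑ a, M i (eC a) * B.adjugate a b = B.det * l b := by
    intro b
    have h1 : ∀ a, M i (eC a) = ∑ c, l c * B c a := by
      intro a
      rw [hl' (eC a)]
      rfl
    have h2 : Matrix.vecMul (Matrix.vecMul l B) B.adjugate b = B.det * l b := by
      rw [Matrix.vecMul_vecMul, Matrix.mul_adjugate, Matrix.vecMul_smul, Matrix.vecMul_one]
      simp
    rw [← h2]
    simp only [Matrix.vecMul, dotProduct]
    exact Finset.sum_congr rfl (fun a _ => by rw [h1 a])
  rw [Finset.sum_comm]
  calc B.det * M i j = ∑ b, (B.det * l b) * M (eR b) j := by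
        rw [hl' j, Finset.mul_sum]
        exact Finset.sum_congr rfl (fun b _ => by ring)
    _ = ∑ b, (∑ a, M i (eC a) * B.adjugate a b) * M (eR b) j := by
        exact Finset.sum_congr rfl (fun b _ => by rw [hadj b])
    _ = _ := by
        refine Finset.sum_congr rfl (fun b _ => ?_)
        rw [Finset.sum_mul]

end Pool.Agent.MP_d13902_co
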