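import Pool.Agent.MP_d13902_co.Defs

set_option autoImplicit false

open Finset
open scoped Classical

namespace Pool.Agent.MP_d13902_co

/-- Number of graphs containing `H`. -/
theorem card_supergraphs' {n : ℕ} (H : SimpleGraph (Fin n)) :
    (univ.filter (fun G : SimpleGraph (Fin n) => H ≤ G)).card * 2 ^ H.edgeFinset.card ≤
      Fintype.card (SimpleGraph (Fin n)) := by
  rw [← Finset.card_powerset, ← Finset.card_product, ← Finset.card_univ]
  apply Finset.card_le_card_of_injOn (fun p : SimpleGraph (Fin n) × Finset (Sym2 (Fin n)) =>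
    p.1.deleteEdges (p.2 : Set (Sym2 (Fin n))))
  · intro p _
    simp
  · rintro ⟨G, F⟩ hp ⟨G', F'⟩ hp' h
    simp only [coe_product, coe_filter, mem_univ, true_and, Set.mem_prod, Set.mem_ofPred_eq,
      coe_powerset, Set.mem_preimage, Set.mem_powerset_iff, coe_subset] at hp hp'
    simp only at h
    have key : ∀ e : Sym2 (Fin n), (e ∈ G.edgeSet ∧ e ∉ F) ↔ (e ∈ G'.edgeSet ∧ e ∉ F') := by
      intro e
      have := congrArg (fun K : SimpleGraph (Fin n) => e ∈ K.edgeSet) h
      simp only [SimpleGraph.edgeSet_deleteEdges, Set.mem_sdiff, Finset.mem_coe] at this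
      exact iff_of_eq this
    have hFG : ∀ e ∈ F, e ∈ H.edgeSet := fun e he => by
      have := hp.2 he
      simpa using this
    have hFG' : ∀ e ∈ F', e ∈ H.edgeSet := fun e he => by
      have := hp'.2 he
      simpa using this
    have hHG : ∀ e ∈ H.edgeSet, e ∈ G.edgeSet := fun e he => SimpleGraph.edgeSet_mono hp.1 he
    have hHG' : ∀ e ∈ H.edgeSet, e ∈ G'.edgeSet := fun e he => SimpleGraph.edgeSet_mono hp'.1 he
    have hF : F = F' := by
      ext e
      constructor
      · intro he
        by_contra hne
        have := (key e).2 ⟨hHG' e (hFG e he), hne⟩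
        exact this.2 he
      · intro he
        by_contra hne
        have := (key e).1 ⟨hHG e (hFG' e he), hne⟩
        exact this.2 he
    subst hF
    have hG : G = G' := by
      apply SimpleGraph.edgeSet_injective
      ext e
      by_cases he : e ∈ F
      · exact ⟨fun _ => hHG' e (hFG e he), fun _ => hHG e (hFG e he)⟩
      · have := key e
        constructor
        · intro h1
          exact (this.1 ⟨h1, he⟩).1
        · intro h1
          exact (this.2 ⟨h1, he⟩).1
    rw [hG]

/-- symmetrised support -/
def sym {n : ℕ} (σ : Finset (Fin n × Fin n)) : Finset (Fin n × Fin n) :=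
  univ.filter (fun p => p ∈ σ ∨ p.swap ∈ σ)

/-- diagonal part of the support -/
def diag {n : ℕ} (σ : Finset (Fin n × Fin n)) : Finset (Fin n) :=
  univ.filter (fun i => (i, i) ∈ σ)

/-- The support graph. -/
def supG {n : ℕ} (σ : Finset (Fin n × Fin n)) : SimpleGraph (Fin n) where
  Adj i j := i ≠ j ∧ ((i, j) ∈ σ ∨ (j, i) ∈ σ)
  symm := ⟨fun _ _ h => ⟨h.1.symm, h.2.symm⟩⟩
  loopless := ⟨fun _ h => h.1 rfl⟩

theorem two_mul_card_edge {n : ℕ} (σ : Finset (Fin n × Fin n)) :
    2 * (supG σ).edgeFinset.card + (diag σ).card = (sym σ).card := by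
  have h1 : 2 * (supG σ).edgeFinset.card =
      (univ.filter (fun p : Fin n × Fin n => (supG σ).Adj p.1 p.2)).card := by
    rw [← SimpleGraph.sum_degrees_eq_twice_card_edges]
    rw [← Finset.univ_product_univ]
    rw [Finset.card_filter, Finset.sum_product]
    apply Finset.sum_congr rfl
    intro v _
    rw [← Finset.card_filter, ← SimpleGraph.card_neighborFinset_eq_degree]
    congr 1
    ext w
    simp
  have h2 : (diag σ).card =
      (univ.filter (fun p : Fin n × Fin n => p.1 = p.2 ∧ p ∈ σ)).card := by
    apply Finset.card_bij (fun i _ => (i, i))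
    · intro i hi
      simpa [diag] using hi
    · intro i _ j _ h
      simpa using h
    · rintro ⟨i, j⟩ hp
      simp only [mem_filter, mem_univ, true_and] at hp
      obtain ⟨h1, h2⟩ := hp
      subst h1
      exact ⟨i, by simpa [diag] using h2, rfl⟩
  rw [h1, h2, ← Finset.card_union_of_disjoint]
  · congr 1
    ext ⟨i, j⟩
    simp only [mem_union, mem_filter, mem_univ, true_and, supG, sym, Prod.swap_prod_mk]
    by_cases hij : i = j
    · subst hij; simp
    · simp [hij]
  · rw [Finset.disjoint_filter]
    rintro ⟨i, j⟩ _ h1 h2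
    exact h1.1 h2.1

theorem card_le_card_sym {n : ℕ} (σ : Finset (Fin n × Fin n)) : σ.card ≤ (sym σ).card := by
  apply Finset.card_le_card
  intro p hp
  simp [sym, hp]

theorem card_sym_le {n : ℕ} (σ : Finset (Fin n × Fin n)) : (sym σ).card ≤ n ^ 2 := by
  calc (sym σ).card ≤ (univ : Finset (Fin n × Fin n)).card := Finset.card_le_univ _
    _ = n ^ 2 := by simp [sq]

theorem card_diag_le {n : ℕ} (σ : Finset (Fin n × Fin n)) : (diag σ).card ≤ n := by
  calc (diag σ).card ≤ (univ : Finset (Fin n)).card := Finset.card_le_univ _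
    _ = n := by simp

end Pool.Agent.MP_d13902_co
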