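import Pool.Agent.MP_d13902_co.Defs

set_option autoImplicit false

open Finset
open scoped Classical

namespace Pool.Agent.MP_d13902_co

namespace RbgAux

/-- Zero-pattern count, abstract form. -/
theorem zero_patterns {F : Type*} [Field F] {σ ι : Type*}
    (f : ι → MvPolynomial σ F) (𝒮 : Finset (Finset ι)) (p : Finset ι → σ → F)
    (hp : ∀ S ∈ 𝒮, ∀ z, z ∈ S ↔ MvPolynomial.eval (p S) (f z) ≠ 0)
    (𝒩 : Finset (σ →₀ ℕ)) (hN : ∀ S ∈ 𝒮, (∏ z ∈ S, f z).support ⊆ 𝒩) :
    𝒮.card ≤ 𝒩.card := by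
  -- evaluation criterion
  have hev : ∀ S ∈ 𝒮, ∀ T : Finset ι,
      MvPolynomial.eval (p S) (∏ z ∈ T, f z) ≠ 0 ↔ T ⊆ S := by
    intro S hS T
    rw [map_prod, Finset.prod_ne_zero_iff]
    constructor
    · intro h z hz
      exact (hp S hS z).2 (h z hz)
    · intro h z hz
      exact (hp S hS z).1 (h hz)
  let v : 𝒮 → (𝒩 → F) := fun S m => MvPolynomial.coeff (m : σ →₀ ℕ) (∏ z ∈ (S : Finset ι), f z)
  have hli : LinearIndependent F v := by
    rw [Fintype.linearIndependent_iff]
    intro c hc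
    by_contra hne
    push Not at hne
    obtain ⟨S0, hS0⟩ := hne
    -- minimal element with nonzero coefficient
    have hfin : (Finset.univ.filter (fun S : 𝒮 => c S ≠ 0)).Nonempty := ⟨S0, by simp [hS0]⟩
    obtain ⟨S, hSmem, hSmin⟩ := Finset.exists_min_image
      (Finset.univ.filter (fun S : 𝒮 => c S ≠ 0)) (fun S => (S : Finset ι).card) hfin
    simp only [Finset.mem_filter, Finset.mem_univ, true_and] at hSmem hSmin
    -- the polynomial relation
    have hpoly : ∑ T : 𝒮, MvPolynomial.C (c T) * (∏ z ∈ (T : Finset ι), f z) = 0 := by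
      ext m
      rw [MvPolynomial.coeff_sum, MvPolynomial.coeff_zero]
      by_cases hm : m ∈ 𝒩
      · have := congrFun hc ⟨m, hm⟩
        simp only [Finset.sum_apply, Pi.smul_apply, smul_eq_mul, Pi.zero_apply, v] at this
        rw [← this]
        refine Finset.sum_congr rfl (fun T _ => ?_)
        rw [MvPolynomial.coeff_C_mul]
      · refine Finset.sum_eq_zero (fun T _ => ?_)
        rw [MvPolynomial.coeff_C_mul]
        have : MvPolynomial.coeff m (∏ z ∈ (T : Finset ι), f z) = 0 := by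
          by_contra h0
          exact hm (hN T T.2 (MvPolynomial.mem_support_iff.2 h0))
        rw [this, mul_zero]
    have hval := congrArg (MvPolynomial.eval (p S)) hpoly
    rw [map_sum, map_zero, Finset.sum_eq_single S] at hval
    · rw [map_mul, MvPolynomial.eval_C] at hval
      rcases mul_eq_zero.1 hval with h1 | h1
      · exact hSmem h1
      · exact (hev S S.2 S).2 (Finset.Subset.refl _) h1
    · intro T _ hTS
      rw [map_mul, MvPolynomial.eval_C]
      by_cases hcT : c T = 0
      · rw [hcT, zero_mul]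
      · have hle := hSmin T hcT
        have hnot : ¬ (T : Finset ι) ⊆ S := by
          intro hsub
          exact hTS (Subtype.ext (Finset.eq_of_subset_of_card_le hsub hle))
        have : MvPolynomial.eval (p S) (∏ z ∈ (T : Finset ι), f z) = 0 := by
          by_contra h0
          exact hnot ((hev S S.2 T).1 h0)
        rw [this, mul_zero]
    · intro h
      exact absurd (Finset.mem_univ S) h
  have h := hli.fintype_card_le_finrank
  simpa using h

/-- bidegree bound for polynomials whose variables lie in `P1 ∪ P2` -/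
def Good {ι : Type*} (P1 P2 : Finset ι) (D1 D2 : ℕ) (f : MvPolynomial ι ℝ) : Prop :=
  ∀ m ∈ f.support, m.support ⊆ P1 ∪ P2 ∧ ∑ p ∈ P1, m p ≤ D1 ∧ ∑ p ∈ P2, m p ≤ D2

section good

variable {ι : Type*} {P1 P2 : Finset ι}

theorem Good.zero (D1 D2 : ℕ) : Good P1 P2 D1 D2 (0 : MvPolynomial ι ℝ) := by
  intro m hm
  simp at hm

theorem Good.mono {D1 D2 E1 E2 : ℕ} {f : MvPolynomial ι ℝ} (hf : Good P1 P2 D1 D2 f)
    (h1 : D1 ≤ E1) (h2 : D2 ≤ E2) : Good P1 P2 E1 E2 f := by
  intro m hm
  obtain ⟨a, b, c⟩ := hf m hm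
  exact ⟨a, b.trans h1, c.trans h2⟩

theorem Good.add {D1 D2 : ℕ} {f g : MvPolynomial ι ℝ} (hf : Good P1 P2 D1 D2 f)
    (hg : Good P1 P2 D1 D2 g) : Good P1 P2 D1 D2 (f + g) := by
  intro m hm
  rcases Finset.mem_union.1 (MvPolynomial.support_add hm) with h | h
  · exact hf m h
  · exact hg m h

theorem Good.sum {α : Type*} {D1 D2 : ℕ} (s : Finset α) (f : α → MvPolynomial ι ℝ)
    (hf : ∀ a ∈ s, Good P1 P2 D1 D2 (f a)) : Good P1 P2 D1 D2 (∑ a ∈ s, f a) := by
  induction s using Finset.induction_on with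
  | empty => simpa using Good.zero D1 D2
  | insert a s ha ih =>
    rw [Finset.sum_insert ha]
    exact (hf a (Finset.mem_insert_self a s)).add
      (ih (fun b hb => hf b (Finset.mem_insert_of_mem hb)))

theorem Good.mul {D1 D2 E1 E2 : ℕ} {f g : MvPolynomial ι ℝ} (hf : Good P1 P2 D1 D2 f)
    (hg : Good P1 P2 E1 E2 g) : Good P1 P2 (D1 + E1) (D2 + E2) (f * g) := by
  intro m hm
  have := MvPolynomial.support_mul f g hm
  rw [Finset.mem_add] at this
  obtain ⟨a, ha, b, hb, rfl⟩ := this
  obtain ⟨a1, a2, a3⟩ := hf a ha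
  obtain ⟨b1, b2, b3⟩ := hg b hb
  refine ⟨?_, ?_, ?_⟩
  · exact (Finsupp.support_add).trans (Finset.union_subset a1 b1)
  · simp only [Finsupp.add_apply, Finset.sum_add_distrib]
    omega
  · simp only [Finsupp.add_apply, Finset.sum_add_distrib]
    omega

theorem Good.C (c : ℝ) : Good P1 P2 0 0 (MvPolynomial.C c : MvPolynomial ι ℝ) := by
  intro m hm
  have hm0 : m = 0 := by
    by_contra h
    rw [MvPolynomial.mem_support_iff, MvPolynomial.coeff_C] at hm
    rw [if_neg (fun h' => h h'.symm)] at hm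
    exact hm rfl
  subst hm0
  simp

theorem Good.prod {α : Type*} {D1 D2 : ℕ} (s : Finset α) (f : α → MvPolynomial ι ℝ)
    (hf : ∀ a ∈ s, Good P1 P2 D1 D2 (f a)) :
    Good P1 P2 (D1 * s.card) (D2 * s.card) (∏ a ∈ s, f a) := by
  induction s using Finset.induction_on with
  | empty =>
    have := Good.C (P1 := P1) (P2 := P2) (1 : ℝ)
    simpa using this
  | insert a s ha ih =>
    rw [Finset.prod_insert ha, Finset.card_insert_of_notMem ha]
    have h := (hf a (Finset.mem_insert_self a s)).mul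
      (ih (fun b hb => hf b (Finset.mem_insert_of_mem hb)))
    refine h.mono (le_of_eq ?_) (le_of_eq ?_) <;> ring

theorem Good.X1 {i : ι} (hi : i ∈ P1) (hi2 : i ∉ P2) :
    Good P1 P2 1 0 (MvPolynomial.X i : MvPolynomial ι ℝ) := by
  intro m hm
  rw [MvPolynomial.support_X, Finset.mem_singleton] at hm
  subst hm
  refine ⟨?_, ?_, ?_⟩
  · refine Finsupp.support_single_subset.trans ?_
    simpa using Or.inl hi
  · rw [Finset.sum_eq_single i]
    · simp
    · intro b _ hb
      simp [Ne.symm hb]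
    · intro h
      exact absurd hi h
  · rw [Finset.sum_eq_zero]
    intro b hb
    have : i ≠ b := fun h => hi2 (h ▸ hb)
    simp [this]

theorem Good.X2 {i : ι} (hi : i ∈ P2) (hi1 : i ∉ P1) :
    Good P1 P2 0 1 (MvPolynomial.X i : MvPolynomial ι ℝ) := by
  intro m hm
  rw [MvPolynomial.support_X, Finset.mem_singleton] at hm
  subst hm
  refine ⟨?_, ?_, ?_⟩
  · refine Finsupp.support_single_subset.trans ?_
    simpa using Or.inr hi
  · rw [Finset.sum_eq_zero]
    intro b hb
    have : i ≠ b := fun h => hi1 (h ▸ hb)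
    simp [this]
  · rw [Finset.sum_eq_single i]
    · simp
    · intro b _ hb
      simp [Ne.symm hb]
    · intro h
      exact absurd hi h

theorem Good.det {r : ℕ} (A : Matrix (Fin r) (Fin r) (MvPolynomial ι ℝ))
    (hA : ∀ i j, Good P1 P2 0 1 (A i j)) : Good P1 P2 0 r A.det := by
  rw [Matrix.det_apply']
  refine Good.sum _ _ (fun τ _ => ?_)
  have h1 : Good P1 P2 0 0 ((((Equiv.Perm.sign τ : ℤˣ) : ℤ) : MvPolynomial ι ℝ)) := by
    have := Good.C (P1 := P1) (P2 := P2) (((Equiv.Perm.sign τ : ℤˣ) : ℤ) : ℝ)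
    rwa [map_intCast] at this
  have h2 := Good.prod (P1 := P1) (P2 := P2) (Finset.univ : Finset (Fin r))
    (fun i => A (τ i) i) (fun i _ => hA (τ i) i)
  have h3 := h1.mul h2
  refine h3.mono (le_of_eq (by simp)) (le_of_eq (by simp))

theorem Good.adjugate {r : ℕ} (A : Matrix (Fin r) (Fin r) (MvPolynomial ι ℝ))
    (hA : ∀ i j, Good P1 P2 0 1 (A i j)) (a b : Fin r) :
    Good P1 P2 0 r (A.adjugate a b) := by
  rw [Matrix.adjugate_apply]
  refine Good.det _ (fun i j => ?_)
  rw [Matrix.updateRow_apply]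
  split_ifs with h
  · have h01 : (Pi.single a 1 : Fin r → MvPolynomial ι ℝ) j =
        MvPolynomial.C (if j = a then (1 : ℝ) else 0) := by
      rw [Pi.single_apply]
      split_ifs <;> simp
    rw [h01]
    exact (Good.C _).mono (le_refl 0) (Nat.zero_le 1)
  · exact hA i j

/-- number of exponent vectors supported on `P` with sum at most `D` -/
noncomputable def expo (P : Finset ι) (D : ℕ) : Finset (ι →₀ ℕ) :=
  (range (D + 1)).biUnion (fun n => finsuppAntidiag P n)

theorem mem_expo {P : Finset ι} {D : ℕ} {m : ι →₀ ℕ} :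
    m ∈ expo P D ↔ ∑ p ∈ P, m p ≤ D ∧ m.support ⊆ P := by
  unfold expo
  simp only [Finset.mem_biUnion, Finset.mem_range, Finset.mem_finsuppAntidiag]
  constructor
  · rintro ⟨n, hn, h1, h2⟩
    exact ⟨by rw [h1]; omega, h2⟩
  · rintro ⟨h1, h2⟩
    exact ⟨_, Nat.lt_succ_of_le h1, rfl, h2⟩

theorem card_expo (P : Finset ι) (D : ℕ) : (expo P D).card ≤ (D + P.card).choose P.card := by
  unfold expo
  refine Finset.card_biUnion_le.trans ?_
  simp only [Finset.card_finsuppAntidiag_nat_eq_choose]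
  rcases Nat.eq_zero_or_pos P.card with hP | hP
  · rw [hP]
    rw [Nat.choose_zero_right]
    induction D with
    | zero => simp
    | succ D ih =>
      rw [Finset.sum_range_succ]
      have : (0 + (D + 1) - 1).choose (D + 1) = 0 := Nat.choose_eq_zero_of_lt (by omega)
      rw [this]
      exact ih
  · obtain ⟨t, ht⟩ : ∃ t, P.card = t + 1 := ⟨P.card - 1, by omega⟩
    rw [ht]
    induction D with
    | zero => simp
    | succ D ih =>
      rw [Finset.sum_range_succ]
      have e1 : (t + 1 + (D + 1) - 1).choose (D + 1) = (D + (t + 1)).choose t := by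
        have : t + 1 + (D + 1) - 1 = (D + (t + 1)) := by omega
        rw [this]
        have h2 := Nat.choose_symm_add (a := D + 1) (b := t)
        have h3 : D + 1 + t = D + (t + 1) := by omega
        rw [h3] at h2
        exact h2
      rw [e1]
      have e2 : (D + 1 + (t + 1)).choose (t + 1) =
          (D + (t + 1)).choose t + (D + (t + 1)).choose (t + 1) := by
        have : D + 1 + (t + 1) = (D + (t + 1)) + 1 := by omega
        rw [this, Nat.choose_succ_succ']
      rw [e2]
      omega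

end good

/-- A matrix of rank at most `r` is determined by an invertible `r × r` block. -/
theorem skel {V : Type} [Fintype V] [DecidableEq V] (M : Matrix V V ℝ) (r : ℕ)
    (hr : M.rank ≤ r) (eR eC : Fin r → V) (hdet : (M.submatrix eR eC).det ≠ 0) (i j : V) :
    (M.submatrix eR eC).det * M i j =
      ∑ a : Fin r, ∑ b : Fin r, M i (eC a) * (M.submatrix eR eC).adjugate a b * M (eR b) j := by
  set B := M.submatrix eR eC with hB
  let fR : Fin r ⊕ Unit → V := Sum.elim eR (fun _ => i)
  let fC : Fin r ⊕ Unit → V := Sum.elim eC (fun _ => j)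
  have hN0 : (M.submatrix fR fC).det = 0 := by
    by_contra hne
    have hu : IsUnit (M.submatrix fR fC) := by
      rw [Matrix.isUnit_iff_isUnit_det]
      exact isUnit_iff_ne_zero.2 hne
    have h1 := Matrix.rank_of_isUnit _ hu
    have h2 : (M.submatrix fR fC).rank ≤ M.rank := by
      have e : M.submatrix fR fC = (1 : Matrix V V ℝ).submatrix fR id * M *
          (1 : Matrix V V ℝ).submatrix id fC := by
        ext a b
        simp [Matrix.mul_apply, Matrix.one_apply]
      rw [e]
      exact (Matrix.rank_mul_le_left _ _).trans (Matrix.rank_mul_le_right _ _)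
    rw [h1] at h2
    simp at h2
    omega
  have hblk : M.submatrix fR fC = Matrix.fromBlocks B (Matrix.of fun b _ => M (eR b) j)
      (Matrix.of fun _ a => M i (eC a)) (Matrix.of fun (_ : Unit) (_ : Unit) => M i j) := by
    ext a b
    rcases a with a | a <;> rcases b with b | b <;> simp [fR, fC, hB, Matrix.fromBlocks]
  have hBu : IsUnit B.det := isUnit_iff_ne_zero.2 hdet
  have : Invertible B := Matrix.invertibleOfIsUnitDet B hBu
  rw [hblk, Matrix.det_fromBlocks₁₁] at hN0
  have h3 := (mul_eq_zero.1 hN0).resolve_left hdet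
  rw [Matrix.det_unique] at h3
  have h4 : M i j = ∑ a : Fin r, ∑ b : Fin r, M i (eC a) * B⁻¹ a b * M (eR b) j := by
    have h5 := sub_eq_zero.1 h3
    simp only [Matrix.of_apply, Matrix.mul_apply, Matrix.invOf_eq_nonsing_inv] at h5
    rw [h5]
    rw [Finset.sum_comm]
    refine Finset.sum_congr rfl (fun b _ => ?_)
    rw [Finset.sum_mul]
  rw [h4, Finset.mul_sum]
  refine Finset.sum_congr rfl (fun a _ => ?_)
  rw [Finset.mul_sum]
  refine Finset.sum_congr rfl (fun b _ => ?_)
  have h6 : B.det * B⁻¹ a b = B.adjugate a b := by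
    rw [Matrix.inv_def, Matrix.smul_apply, smul_eq_mul, Ring.inverse_eq_inv', ← mul_assoc,
      mul_inv_cancel₀ hdet, one_mul]
  rw [← h6]
  ring

end RbgAux

open RbgAux

theorem rbg {V : Type} [Fintype V] [DecidableEq V] (r W : ℕ) (eR eC : Fin r → V)
    (P : Finset (V × V)) (𝒮 : Finset (Finset (V × V)))
    (h : ∀ σ ∈ 𝒮, σ.card ≤ W ∧ ∃ M : Matrix V V ℝ, (∀ i j, M i j ≠ 0 ↔ (i, j) ∈ σ) ∧
      (M.submatrix eR eC).det ≠ 0 ∧ M.rank ≤ r ∧
      (∀ p : V × V, p ∈ P ↔ p ∈ σ ∧ (p.1 ∈ Set.range eR ∨ p.2 ∈ Set.range eC))) :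
    𝒮.card ≤
      (2 * W + (P.filter (fun p => ¬ (p.1 ∈ Set.range eR ∧ p.2 ∈ Set.range eC))).card).choose
        (P.filter (fun p => ¬ (p.1 ∈ Set.range eR ∧ p.2 ∈ Set.range eC))).card *
      ((r + 2) * W + (P.filter (fun p => p.1 ∈ Set.range eR ∧ p.2 ∈ Set.range eC)).card).choose
        (P.filter (fun p => p.1 ∈ Set.range eR ∧ p.2 ∈ Set.range eC)).card := by
  set P1 := P.filter (fun p => ¬ (p.1 ∈ Set.range eR ∧ p.2 ∈ Set.range eC)) with hP1
  set P2 := P.filter (fun p => p.1 ∈ Set.range eR ∧ p.2 ∈ Set.range eC) with hP2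
  -- the generic matrix
  let X' : V × V → MvPolynomial (V × V) ℝ := fun p => if p ∈ P then MvPolynomial.X p else 0
  let B : Matrix (Fin r) (Fin r) (MvPolynomial (V × V) ℝ) := fun a b => X' (eR a, eC b)
  let f : V × V → MvPolynomial (V × V) ℝ := fun p =>
    ∑ a : Fin r, ∑ b : Fin r, X' (p.1, eC a) * B.adjugate a b * X' (eR b, p.2)
  choose! M hM using fun σ hσ => (h σ hσ).2
  let u : Finset (V × V) → V × V → ℝ := fun σ p => M σ p.1 p.2
  have hX' : ∀ p, Good P1 P2 1 1 (X' p) := by
    intro p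
    simp only [X']
    split_ifs with hp
    · by_cases hq : p.1 ∈ Set.range eR ∧ p.2 ∈ Set.range eC
      · exact (Good.X2 (i := p) (by rw [hP2]; exact Finset.mem_filter.2 ⟨hp, hq⟩)
          (by rw [hP1]; intro h'; exact (Finset.mem_filter.1 h').2 hq)).mono
          (Nat.zero_le 1) (le_refl 1)
      · exact (Good.X1 (i := p) (by rw [hP1]; exact Finset.mem_filter.2 ⟨hp, hq⟩)
          (by rw [hP2]; intro h'; exact hq (Finset.mem_filter.1 h').2)).mono
          (le_refl 1) (Nat.zero_le 1)
    · exact Good.zero 1 1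
  have hB : ∀ a b, Good P1 P2 0 1 (B a b) := by
    intro a b
    simp only [B, X']
    split_ifs with hp
    · exact Good.X2 (i := (eR a, eC b))
        (by rw [hP2]; exact Finset.mem_filter.2 ⟨hp, ⟨a, rfl⟩, ⟨b, rfl⟩⟩)
        (by rw [hP1]; intro h'; exact (Finset.mem_filter.1 h').2 ⟨⟨a, rfl⟩, ⟨b, rfl⟩⟩)
    · exact Good.zero 0 1
  have hf : ∀ p, Good P1 P2 2 (r + 2) (f p) := by
    intro p
    refine Good.sum _ _ (fun a _ => Good.sum _ _ (fun b _ => ?_))
    exact (((hX' _).mul (Good.adjugate B hB a b)).mul (hX' _)).mono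
      (le_of_eq (by ring)) (le_of_eq (by ring))
  -- evaluation
  have hXu : ∀ σ ∈ 𝒮, ∀ p : V × V, (p.1 ∈ Set.range eR ∨ p.2 ∈ Set.range eC) →
      MvPolynomial.eval (u σ) (X' p) = M σ p.1 p.2 := by
    intro σ hσ p hp
    simp only [X']
    split_ifs with hpP
    · rw [MvPolynomial.eval_X]
    · rw [map_zero]
      by_contra hne
      have h1 := ((hM σ hσ).1 p.1 p.2).1 (Ne.symm hne)
      exact hpP (((hM σ hσ).2.2.2 p).2 ⟨h1, hp⟩)
  have hBu : ∀ σ ∈ 𝒮, (B.map (MvPolynomial.eval (u σ))) = (M σ).submatrix eR eC := by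
    intro σ hσ
    ext a b
    simp only [Matrix.submatrix_apply, B]
    exact hXu σ hσ (eR a, eC b) (Or.inl ⟨a, rfl⟩)
  have hfu : ∀ σ ∈ 𝒮, ∀ p, MvPolynomial.eval (u σ) (f p) =
      ((M σ).submatrix eR eC).det * M σ p.1 p.2 := by
    intro σ hσ p
    rw [skel (M σ) r (hM σ hσ).2.2.1 eR eC (hM σ hσ).2.1 p.1 p.2]
    simp only [f, map_sum, map_mul]
    refine Finset.sum_congr rfl (fun a _ => Finset.sum_congr rfl (fun b _ => ?_))
    rw [hXu σ hσ (p.1, eC a) (Or.inr ⟨a, rfl⟩), hXu σ hσ (eR b, p.2) (Or.inl ⟨b, rfl⟩)]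
    have hadj : MvPolynomial.eval (u σ) (B.adjugate a b) =
        ((M σ).submatrix eR eC).adjugate a b := by
      rw [← hBu σ hσ, ← RingHom.mapMatrix_apply, ← RingHom.map_adjugate]
      rfl
    rw [hadj]
  let 𝒩 : Finset ((V × V) →₀ ℕ) :=
    ((expo P1 (2 * W)) ×ˢ (expo P2 ((r + 2) * W))).image (fun x => x.1 + x.2)
  have hcard : 𝒮.card ≤ 𝒩.card := by
    refine zero_patterns f 𝒮 u ?_ 𝒩 ?_
    · intro σ hσ z
      rw [hfu σ hσ z]
      constructor
      · intro hz
        exact mul_ne_zero (hM σ hσ).2.1 (((hM σ hσ).1 z.1 z.2).2 hz)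
      · intro hz
        exact ((hM σ hσ).1 z.1 z.2).1 (right_ne_zero_of_mul hz)
    · intro σ hσ m hm
      have hg : Good P1 P2 (2 * W) ((r + 2) * W) (∏ z ∈ σ, f z) :=
        (Good.prod σ f (fun z _ => hf z)).mono
          (Nat.mul_le_mul_left _ (h σ hσ).1) (Nat.mul_le_mul_left _ (h σ hσ).1)
      obtain ⟨h1, h2, h3⟩ := hg m hm
      refine Finset.mem_image.2 ⟨(m.filter (· ∈ P1), m.filter (· ∈ P2)), ?_, ?_⟩
      · refine Finset.mem_product.2 ⟨mem_expo.2 ⟨?_, ?_⟩, mem_expo.2 ⟨?_, ?_⟩⟩
        · refine le_trans (le_of_eq (Finset.sum_congr rfl (fun p hp => ?_))) h2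
          exact Finsupp.filter_apply_pos _ _ hp
        · intro p hp
          rw [Finsupp.support_filter, Finset.mem_filter] at hp
          exact hp.2
        · refine le_trans (le_of_eq (Finset.sum_congr rfl (fun p hp => ?_))) h3
          exact Finsupp.filter_apply_pos _ _ hp
        · intro p hp
          rw [Finsupp.support_filter, Finset.mem_filter] at hp
          exact hp.2
      · ext p
        simp only [Finsupp.add_apply, Finsupp.filter_apply]
        by_cases hp1 : p ∈ P1
        · have hp2 : p ∉ P2 := by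
            rw [hP2, Finset.mem_filter]
            rw [hP1, Finset.mem_filter] at hp1
            intro h'
            exact hp1.2 h'.2
          simp [hp1, hp2]
        · by_cases hp2 : p ∈ P2
          · simp [hp1, hp2]
          · have : m p = 0 := by
              by_contra hne
              have h0 := h1 (Finsupp.mem_support_iff.2 hne)
              have h0' : p ∈ P1 ∨ p ∈ P2 := by simpa only [Finset.mem_union] using h0
              rcases h0' with h' | h'
              · exact hp1 h'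
              · exact hp2 h'
            simp [hp1, hp2, this]
  refine hcard.trans (Finset.card_image_le.trans ?_)
  rw [Finset.card_product]
  refine Nat.mul_le_mul ?_ ?_
  · convert card_expo P1 (2 * W)
  · convert card_expo P2 ((r + 2) * W)

end Pool.Agent.MP_d13902_co
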