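import Pool.Agent.MP_d13902_co.Low1
import Pool.Agent.MP_d13902_co.Lin
import Pool.Agent.MP_d13902_co.Rbg
import Pool.Agent.MP_d13902_co.LemA

set_option autoImplicit false

open Finset
open scoped Classical

namespace Pool.Agent.MP_d13902_co

/-- The neighbourhood list of the basis set. -/
def Qs {n r : ℕ} (eR eC : Fin r → Fin n) (σ : Finset (Fin n × Fin n)) :
    Finset (Fin n × Fin n) :=
  (sym σ).filter (fun p => p.1 ∈ Set.range eR ∨ p.1 ∈ Set.range eC)

/-- The internal pairs. -/
def Ks {n r : ℕ} (eR eC : Fin r → Fin n) (σ : Finset (Fin n × Fin n)) :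
    Finset (Fin n × Fin n) :=
  σ.filter (fun p => p.1 ∈ Set.range eR ∧ p.2 ∈ Set.range eC)

/-- The certificates with given parameters. -/
structure IsCert {n r : ℕ} (k W B₁ B₂ : ℕ) (eR eC : Fin r → Fin n)
    (σ : Finset (Fin n × Fin n)) : Prop where
  hsym : (sym σ).card = W
  hdiag : (diag σ).card = k
  hM : ∃ M : Matrix (Fin n) (Fin n) ℝ, (∀ i j, M i j ≠ 0 ↔ (i, j) ∈ σ) ∧
      (M.submatrix eR eC).det ≠ 0 ∧ M.rank ≤ r
  hB₁ : (Qs eR eC σ).card ≤ B₁
  hB₂ : (Ks eR eC σ).card ≤ B₂

theorem choose_mono_aux (a t t' : ℕ) (h : t ≤ t') : (a + t).choose t ≤ (a + t').choose t' := by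
  have h1 : ∀ s : ℕ, (a + s).choose s = (a + s).choose a := fun s => by
    rw [← Nat.choose_symm_of_eq_add (Nat.add_comm a s ▸ rfl : a + s = s + a)]
  rw [h1, h1]
  exact Nat.choose_le_choose _ (by omega)

theorem mem_Qs {n r : ℕ} (eR eC : Fin r → Fin n) (σ : Finset (Fin n × Fin n))
    (p : Fin n × Fin n) : p ∈ Qs eR eC σ ↔
      (p ∈ σ ∨ p.swap ∈ σ) ∧ (p.1 ∈ Set.range eR ∨ p.1 ∈ Set.range eC) := by
  simp only [Qs, sym, mem_filter, mem_univ, true_and]

theorem card_cert_le {n r : ℕ} (k W B₁ B₂ : ℕ) (eR eC : Fin r → Fin n) :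
    (univ.filter (fun σ => IsCert k W B₁ B₂ eR eC σ)).card ≤
      (∑ j ∈ range (B₁ + 1), (2 * r * n).choose j) * (4 ^ B₁ *
        ((2 * W + 2 * B₁).choose (2 * B₁) * ((r + 2) * W + B₂).choose B₂)) := by
  set 𝒞 := univ.filter (fun σ => IsCert k W B₁ B₂ eR eC σ) with h𝒞
  -- step 3
  have step3 : ∀ P : Finset (Fin n × Fin n), ∀ 𝒮 : Finset (Finset (Fin n × Fin n)),
      𝒮 ⊆ 𝒞 → (∀ σ ∈ 𝒮, σ.filter (fun p => p.1 ∈ Set.range eR ∨ p.2 ∈ Set.range eC) = P) →
      𝒮.card ≤ (2 * W + 2 * B₁).choose (2 * B₁) * ((r + 2) * W + B₂).choose B₂ := by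
    intro P 𝒮 hsub hP
    rcases 𝒮.eq_empty_or_nonempty with rfl | ⟨τ, hτ⟩
    · simp
    have hmem : ∀ σ ∈ 𝒮, IsCert k W B₁ B₂ eR eC σ := fun σ hσ => by
      simpa [h𝒞] using hsub hσ
    have h := rbg r W eR eC P 𝒮 (by
      intro σ hσ
      have hc := hmem σ hσ
      refine ⟨(card_le_card_sym σ).trans hc.hsym.le, ?_⟩
      obtain ⟨M, hM1, hM2, hM3⟩ := hc.hM
      refine ⟨M, hM1, hM2, hM3, ?_⟩
      intro p
      rw [← hP σ hσ]
      simp)
    have hτc := hmem τ hτ
    have hPτ := hP τ hτ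
    refine h.trans (Nat.mul_le_mul ?_ ?_)
    · apply choose_mono_aux
      -- P ⊆ Q ∪ swap Q
      have hsubP : P ⊆ (Qs eR eC τ) ∪ (Qs eR eC τ).image Prod.swap := by
        intro p hp
        rw [← hPτ] at hp
        simp only [mem_filter] at hp
        rcases hp with ⟨hpτ, hp1 | hp2⟩
        · apply mem_union_left
          exact (mem_Qs _ _ _ _).2 ⟨Or.inl hpτ, Or.inl hp1⟩
        · apply mem_union_right
          rw [mem_image]
          exact ⟨p.swap, (mem_Qs _ _ _ _).2 ⟨Or.inr hpτ, Or.inr hp2⟩, by simp⟩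
      calc (P.filter _).card ≤ P.card := card_filter_le _ _
        _ ≤ ((Qs eR eC τ) ∪ (Qs eR eC τ).image Prod.swap).card := card_le_card hsubP
        _ ≤ (Qs eR eC τ).card + ((Qs eR eC τ).image Prod.swap).card := card_union_le _ _
        _ ≤ (Qs eR eC τ).card + (Qs eR eC τ).card := Nat.add_le_add_left card_image_le _
        _ ≤ 2 * B₁ := by have := hτc.hB₁; omega
    · apply choose_mono_aux
      refine le_trans (card_le_card ?_) hτc.hB₂
      intro p hp
      rw [mem_filter, ← hPτ, mem_filter] at hp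
      simp only [Ks, mem_filter]
      exact ⟨hp.1.1, hp.2⟩
  -- step 2
  have step2 : ∀ Q : Finset (Fin n × Fin n), ∀ 𝒮 : Finset (Finset (Fin n × Fin n)),
      𝒮 ⊆ 𝒞 → (∀ σ ∈ 𝒮, Qs eR eC σ = Q) → Q.card ≤ B₁ → 
      𝒮.card ≤ 4 ^ B₁ *
        ((2 * W + 2 * B₁).choose (2 * B₁) * ((r + 2) * W + B₂).choose B₂) := by
    intro Q 𝒮 hsub hQ hQc
    have h1 := Finset.card_le_mul_card_image
      (f := fun σ : Finset (Fin n × Fin n) => σ.filter (fun p => p.1 ∈ Set.range eR ∨ p.2 ∈ Set.range eC)) 𝒮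
      ((2 * W + 2 * B₁).choose (2 * B₁) * ((r + 2) * W + B₂).choose B₂) (by
        intro P _
        apply step3 P
        · exact (filter_subset _ _).trans hsub
        · intro σ hσ
          exact (mem_filter.1 hσ).2)
    refine h1.trans ?_
    rw [mul_comm (4 ^ B₁)]
    apply Nat.mul_le_mul_left
    calc (image _ 𝒮).card ≤ (Q ∪ Q.image Prod.swap).powerset.card := by
          apply card_le_card
          intro P hP
          rw [mem_image] at hP
          obtain ⟨σ, hσ, rfl⟩ := hP
          rw [mem_powerset]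
          intro p hp
          rw [mem_filter] at hp
          rw [← hQ σ hσ]
          rcases hp with ⟨hpσ, hp1 | hp2⟩
          · apply mem_union_left
            exact (mem_Qs _ _ _ _).2 ⟨Or.inl hpσ, Or.inl hp1⟩
          · apply mem_union_right
            rw [mem_image]
            exact ⟨p.swap, (mem_Qs _ _ _ _).2 ⟨Or.inr hpσ, Or.inr hp2⟩, by simp⟩
      _ = 2 ^ (Q ∪ Q.image Prod.swap).card := card_powerset _
      _ ≤ 2 ^ (2 * B₁) := by
          apply Nat.pow_le_pow_right (by norm_num)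
          calc (Q ∪ Q.image Prod.swap).card ≤ Q.card + (Q.image Prod.swap).card := card_union_le _ _
            _ ≤ Q.card + Q.card := Nat.add_le_add_left card_image_le _
            _ ≤ 2 * B₁ := by omega
      _ = 4 ^ B₁ := by rw [pow_mul]; norm_num
  -- step 1
  have h1 := Finset.card_le_mul_card_image
      (f := fun σ : Finset (Fin n × Fin n) => Qs eR eC σ) 𝒞
      (4 ^ B₁ * ((2 * W + 2 * B₁).choose (2 * B₁) * ((r + 2) * W + B₂).choose B₂)) (by
        intro Q hQ
        apply step2 Q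
        · exact filter_subset _ _
        · intro σ hσ
          exact (mem_filter.1 hσ).2
        · rw [mem_image] at hQ
          obtain ⟨σ, hσ, rfl⟩ := hQ
          have : IsCert k W B₁ B₂ eR eC σ := by simpa [h𝒞] using hσ
          exact this.hB₁)
  refine h1.trans ?_
  rw [mul_comm]
  apply Nat.mul_le_mul_right
  -- number of Q
  set D : Finset (Fin n × Fin n) := (univ.image eR ∪ univ.image eC) ×ˢ univ with hD
  have hDc : D.card ≤ 2 * r * n := by
    rw [hD, card_product]
    have : (univ.image eR ∪ univ.image eC).card ≤ 2 * r := by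
      calc (univ.image eR ∪ univ.image eC).card ≤ (univ.image eR).card + (univ.image eC).card :=
            card_union_le _ _
        _ ≤ (univ : Finset (Fin r)).card + (univ : Finset (Fin r)).card :=
            Nat.add_le_add card_image_le card_image_le
        _ = 2 * r := by simp; ring
    calc _ ≤ (2 * r) * (univ : Finset (Fin n)).card := Nat.mul_le_mul_right _ this
      _ = 2 * r * n := by simp
  calc (image (fun σ => Qs eR eC σ) 𝒞).card ≤
        ((range (B₁ + 1)).biUnion (fun j => powersetCard j D)).card := by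
        apply card_le_card
        intro Q hQ
        rw [mem_image] at hQ
        obtain ⟨σ, hσ, rfl⟩ := hQ
        have hc : IsCert k W B₁ B₂ eR eC σ := by simpa [h𝒞] using hσ
        rw [mem_biUnion]
        refine ⟨(Qs eR eC σ).card, by rw [mem_range]; have := hc.hB₁; omega, ?_⟩
        rw [mem_powersetCard]
        refine ⟨?_, rfl⟩
        intro p hp
        simp only [Qs, mem_filter, Set.mem_range] at hp
        simp only [hD, mem_product, mem_union, mem_image, mem_univ, true_and, and_true]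
        exact hp.2
    _ ≤ ∑ j ∈ range (B₁ + 1), (powersetCard j D).card := card_biUnion_le
    _ ≤ ∑ j ∈ range (B₁ + 1), (2 * r * n).choose j := by
        apply sum_le_sum
        intro j _
        rw [card_powersetCard]
        exact Nat.choose_le_choose _ hDc

end Pool.Agent.MP_d13902_co
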