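import Mathlib

set_option autoImplicit false

open Finset

namespace Pool.Agent.MP_d13902_co

theorem sum_choose_le_exp (n N B : ℕ) (hn : 1 ≤ n) :
    (∑ j ∈ range (B + 1), (N.choose j : ℝ)) ≤ (n : ℝ) ^ B * Real.exp (N / n) := by
  have hn0 : (0 : ℝ) < n := by exact_mod_cast hn
  have hn1 : (1 : ℝ) ≤ n := by exact_mod_cast hn
  have h1 : (∑ j ∈ range (B + 1), (N.choose j : ℝ)) ≤
      (n : ℝ) ^ B * ∑ j ∈ range (B + 1), (1 / (n : ℝ)) ^ j * (N.choose j : ℝ) := by
    rw [Finset.mul_sum]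
    apply Finset.sum_le_sum
    intro j hj
    have hj' : j ≤ B := by rw [mem_range] at hj; omega
    have : (1 : ℝ) ≤ (n : ℝ) ^ B * (1 / (n : ℝ)) ^ j := by
      rw [one_div, inv_pow, ← div_eq_mul_inv, le_div_iff₀ (by positivity), one_mul]
      exact pow_le_pow_right₀ hn1 hj'
    calc (N.choose j : ℝ) = 1 * (N.choose j : ℝ) := by ring
      _ ≤ ((n : ℝ) ^ B * (1 / (n : ℝ)) ^ j) * (N.choose j : ℝ) := by gcongr
      _ = _ := by ring
  have h2 : ∑ j ∈ range (B + 1), (1 / (n : ℝ)) ^ j * (N.choose j : ℝ) ≤ (1 / (n : ℝ) + 1) ^ N := by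
    calc ∑ j ∈ range (B + 1), (1 / (n : ℝ)) ^ j * (N.choose j : ℝ)
        ≤ ∑ j ∈ range (max B N + 1), (1 / (n : ℝ)) ^ j * (N.choose j : ℝ) := by
          apply Finset.sum_le_sum_of_subset_of_nonneg
          · intro j hj
            rw [mem_range] at *
            have := le_max_left B N
            omega
          · intro j _ _
            positivity
      _ = ∑ j ∈ range (N + 1), (1 / (n : ℝ)) ^ j * (N.choose j : ℝ) := by
          symm
          apply Finset.sum_subset
          · intro j hj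
            rw [mem_range] at *
            have := le_max_right B N
            omega
          · intro j _ hj
            rw [mem_range] at hj
            rw [Nat.choose_eq_zero_of_lt (by omega)]
            simp
      _ = (1 / (n : ℝ) + 1) ^ N := by
          rw [add_pow]
          apply Finset.sum_congr rfl
          intro j _
          simp
  have h3 : (1 / (n : ℝ) + 1) ^ N ≤ Real.exp (N / n) := by
    calc (1 / (n : ℝ) + 1) ^ N ≤ (Real.exp (1 / n)) ^ N := by
          gcongr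
          exact Real.add_one_le_exp _
      _ = Real.exp (N / n) := by
          rw [← Real.exp_nat_mul]
          congr 1
          ring
  calc _ ≤ _ := h1
    _ ≤ (n : ℝ) ^ B * Real.exp (N / n) := by
      gcongr
      exact h2.trans h3

theorem choose_le_exp (a b : ℕ) (T : ℝ) (hT : 0 < T) :
    ((a + b).choose b : ℝ) ≤ T ^ b * Real.exp ((a + b) / T) := by
  have h2 : (1 / T) ^ b * ((a + b).choose b : ℝ) ≤ (1 / T + 1) ^ (a + b) := by
    rw [add_pow]
    have : (1 / T) ^ b * ((a + b).choose b : ℝ) =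
      (fun j => (1 / T) ^ j * 1 ^ (a + b - j) * ((a + b).choose j : ℝ)) b := by simp
    rw [this]
    apply Finset.single_le_sum (f := fun j => (1 / T) ^ j * 1 ^ (a + b - j) * ((a + b).choose j : ℝ))
    · intro j _
      positivity
    · rw [mem_range]; omega
  have h3 : (1 / T + 1) ^ (a + b) ≤ Real.exp ((a + b) / T) := by
    calc (1 / T + 1) ^ (a + b) ≤ (Real.exp (1 / T)) ^ (a + b) := by
          gcongr
          exact Real.add_one_le_exp _
      _ = Real.exp ((a + b) / T) := by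
          rw [← Real.exp_nat_mul]
          congr 1
          push_cast
          ring
  calc ((a + b).choose b : ℝ) = T ^ b * ((1 / T) ^ b * ((a + b).choose b : ℝ)) := by
        rw [← mul_assoc, ← mul_pow, mul_one_div_cancel hT.ne', one_pow, one_mul]
    _ ≤ T ^ b * Real.exp ((a + b) / T) := by
        gcongr
        exact h2.trans h3

/-- growth comparison -/
theorem exists_m1 (c : ℝ) (hc : 0 < c) : ∃ m₁ : ℝ, 1 ≤ m₁ ∧ ∀ m ≥ m₁, 4 * Real.log m + 17 ≤ c * m := by
  have h := Real.isLittleO_log_id_atTop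
  have h2 : (fun _ : ℝ => (17 : ℝ)) =o[Filter.atTop] (id : ℝ → ℝ) :=
    Asymptotics.isLittleO_const_id_atTop 17
  have h3 : (fun m : ℝ => 4 * Real.log m + 17) =o[Filter.atTop] (id : ℝ → ℝ) :=
    (h.const_mul_left 4).add h2
  have h4 := h3.bound hc
  obtain ⟨m₁, hm₁⟩ := Filter.eventually_atTop.1 h4
  refine ⟨max m₁ 1, le_max_right _ _, fun m hm => ?_⟩
  have := hm₁ m ((le_max_left _ _).trans hm)
  have hm1 : 1 ≤ m := (le_max_right _ _).trans hm
  simp only [id, Real.norm_eq_abs] at this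
  rw [abs_of_nonneg (by linarith : (0:ℝ) ≤ m)] at this
  exact (le_abs_self _).trans this

theorem numeric (ε : ℝ) (hε : 0 < ε) (hε1 : ε < 1) (m₁ : ℝ) (hm₁ : 1 ≤ m₁)
    (hm : ∀ m ≥ m₁, 4 * Real.log m + 17 ≤ (ε / 8 * Real.log 2) * m)
    (n r k W B₁ B₂ e : ℕ) (hn : 2 ≤ n) (hL : m₁ ≤ 2 * Real.logb 2 n)
    (hr : 1 ≤ r) (hkn : k ≤ n)
    (h1 : 2 * Real.logb 2 n * r ≤ (1 - ε) * k) (h2 : k ^ 2 ≤ r * W)
    (hB₁ : (B₁ : ℝ) * k ≤ (1 + ε / 4) * r * W) (hB₂ : (B₂ : ℝ) * k ≤ ε / 4 * r * W)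
    (he : 2 * e + k = W) :
    (n : ℝ) ^ (2 * r) * (((∑ j ∈ range (B₁ + 1), (2 * r * n).choose j) * (4 ^ B₁ *
        ((2 * W + 2 * B₁).choose (2 * B₁) * ((r + 2) * W + B₂).choose B₂)) : ℕ) : ℝ) ≤
      2 ^ e * Real.exp (-(ε / 8 * Real.log 2) * W) := by
  set L := Real.logb 2 n with hLdef
  have hlog2 : 0 < Real.log 2 := Real.log_pos (by norm_num)
  have hlog2' : Real.log 2 < 0.7 := by have := Real.log_two_lt_d9; linarith
  have hn0 : (0 : ℝ) < n := by positivity
  have hLlog : Real.log n = L * Real.log 2 := by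
    rw [hLdef, Real.logb, div_mul_cancel₀ _ hlog2.ne']
  have hL1 : 1 ≤ L := by
    rw [hLdef, Real.le_logb_iff_rpow_le (by norm_num) hn0]
    simpa using (by exact_mod_cast hn : (2 : ℝ) ≤ n)
  have hr1 : (1 : ℝ) ≤ r := by exact_mod_cast hr
  have hr0 : (0 : ℝ) < r := by linarith
  have hk0 : (0 : ℝ) < k := by
    by_contra hcon
    have hk : (k : ℝ) ≤ 0 := not_lt.1 hcon
    have : (k : ℝ) = 0 := le_antisymm hk (Nat.cast_nonneg _)
    rw [this] at h1
    have : 0 < 2 * L * r := by positivity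
    linarith
  have hk1 : (1 : ℝ) ≤ k := by exact_mod_cast (Nat.succ_le_of_lt (by exact_mod_cast hk0 : 0 < k))
  set m : ℝ := k / r with hmdef
  set x : ℝ := r * W / k with hxdef
  have hmpos : 0 < m := by positivity
  have h2' : (k : ℝ) ^ 2 ≤ r * W := by exact_mod_cast h2
  have hxk : (k : ℝ) ≤ x := by
    rw [hxdef, le_div_iff₀ hk0]; nlinarith
  have hx1 : 1 ≤ x := hk1.trans hxk
  have hW : (W : ℝ) = m * x := by
    rw [hmdef, hxdef]; field_simp
  have h2L : 2 * L ≤ (1 - ε) * m := by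
    rw [hmdef, ← mul_div_assoc, le_div_iff₀ hr0]; exact h1
  have hm2L : 2 * L ≤ m := by nlinarith
  have hm1' : m₁ ≤ m := hL.trans hm2L
  have hmm := hm m hm1'
  have hm1 : 1 ≤ m := hm₁.trans hm1'
  have hrk : (r : ℝ) ≤ k := by
    have : 1 ≤ (k : ℝ) / r := hm1
    rw [le_div_iff₀ hr0] at this
    linarith
  have hrx : (r : ℝ) ≤ x := hrk.trans hxk
  have hB₁x : (B₁ : ℝ) ≤ (1 + ε / 4) * x := by
    rw [hxdef, ← mul_div_assoc, le_div_iff₀ hk0]; linarith
  have hB₂x : (B₂ : ℝ) ≤ ε / 4 * x := by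
    rw [hxdef, ← mul_div_assoc, le_div_iff₀ hk0]; linarith
  have hlogm : 0 ≤ Real.log m := Real.log_nonneg hm1
  have hlogn : 0 ≤ Real.log n := by rw [hLlog]; positivity
  -- factor bounds
  have f1 : (n : ℝ) ^ (2 * r) ≤ Real.exp x := by
    rw [← Real.exp_log hn0, ← Real.exp_nat_mul, Real.exp_le_exp, hLlog]
    push_cast
    have : 2 * (r : ℝ) * (L * Real.log 2) = (2 * L * r) * Real.log 2 := by ring
    rw [this]
    have h3 : 2 * L * r ≤ k := by nlinarith
    nlinarith
  have f2 : ((∑ j ∈ range (B₁ + 1), (2 * r * n).choose j : ℕ) : ℝ) ≤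
      Real.exp ((1 + ε / 4) * x * (L * Real.log 2) + 2 * x) := by
    push_cast
    refine (sum_choose_le_exp n (2 * r * n) B₁ (by omega)).trans ?_
    rw [Real.exp_add]
    apply mul_le_mul
    · rw [← Real.exp_log hn0, ← Real.exp_nat_mul, Real.exp_le_exp, ← hLlog]
      gcongr
    · rw [Real.exp_le_exp]
      push_cast
      have : 2 * (r : ℝ) * n / n = 2 * r := by field_simp
      rw [this]
      linarith
    · positivity
    · positivity
  have f3 : ((4 ^ B₁ : ℕ) : ℝ) ≤ Real.exp (3 * x) := by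
    push_cast
    have h4 : (4 : ℝ) = Real.exp (2 * Real.log 2) := by
      rw [two_mul, Real.exp_add, Real.exp_log (by norm_num)]; norm_num
    rw [h4, ← Real.exp_nat_mul, Real.exp_le_exp]
    have : (B₁ : ℝ) ≤ 1.25 * x := by nlinarith
    nlinarith
  have f4 : (((2 * W + 2 * B₁).choose (2 * B₁) : ℕ) : ℝ) ≤
      Real.exp (4 * x * Real.log m + 6 * x) := by
    refine (choose_le_exp (2 * W) (2 * B₁) m hmpos).trans ?_
    rw [Real.exp_add]
    have hB : (B₁ : ℝ) ≤ 1.25 * x := by nlinarith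
    apply mul_le_mul
    · nth_rewrite 1 [← Real.exp_log hmpos]
      rw [← Real.exp_nat_mul, Real.exp_le_exp]
      push_cast
      nlinarith
    · rw [Real.exp_le_exp, div_le_iff₀ hmpos]
      push_cast
      rw [hW]
      nlinarith
    · positivity
    · positivity
  have f5 : ((((r + 2) * W + B₂).choose B₂ : ℕ) : ℝ) ≤
      Real.exp (ε / 4 * x * (L * Real.log 2) + 4 * x) := by
    refine (choose_le_exp ((r + 2) * W) B₂ k hk0).trans ?_
    rw [Real.exp_add]
    apply mul_le_mul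
    · nth_rewrite 1 [← Real.exp_log hk0]
      rw [← Real.exp_nat_mul, Real.exp_le_exp, ← hLlog]
      have : Real.log k ≤ Real.log n := Real.log_le_log hk0 (by exact_mod_cast hkn)
      have hk' : 0 ≤ Real.log k := Real.log_nonneg hk1
      calc (B₂ : ℝ) * Real.log k ≤ (ε / 4 * x) * Real.log k := by gcongr
        _ ≤ (ε / 4 * x) * Real.log n := by
            have : 0 ≤ ε / 4 * x := by positivity
            gcongr
    · rw [Real.exp_le_exp, div_le_iff₀ hk0]
      push_cast
      have hrW : (r : ℝ) * W = x * k := by rw [hxdef]; field_simp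
      have hB : (B₂ : ℝ) ≤ x * k := by nlinarith
      have : (W : ℝ) ≤ r * W := by nlinarith [(Nat.cast_nonneg W : (0:ℝ) ≤ W)]
      nlinarith
    · positivity
    · positivity
  have f6 : Real.exp (W / 2 * Real.log 2 - k / 2 * Real.log 2) = 2 ^ e := by
    have : (W : ℝ) / 2 * Real.log 2 - k / 2 * Real.log 2 = e * Real.log 2 := by
      rw [← he]; push_cast; ring
    rw [this, Real.exp_nat_mul, Real.exp_log (by norm_num)]
  rw [← f6, ← Real.exp_add]
  push_cast at f2 f3 f4 f5 ⊢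
  calc (n : ℝ) ^ (2 * r) * ((∑ j ∈ range (B₁ + 1), ((2 * r * n).choose j : ℝ)) * (4 ^ B₁ *
        (((2 * W + 2 * B₁).choose (2 * B₁) : ℝ) * (((r + 2) * W + B₂).choose B₂ : ℝ))))
      ≤ Real.exp x * (Real.exp ((1 + ε / 4) * x * (L * Real.log 2) + 2 * x) *
        (Real.exp (3 * x) * (Real.exp (4 * x * Real.log m + 6 * x) *
          Real.exp (ε / 4 * x * (L * Real.log 2) + 4 * x)))) := by
        gcongr
    _ = Real.exp (x + ((1 + ε / 4) * x * (L * Real.log 2) + 2 * x) + 3 * x +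
        (4 * x * Real.log m + 6 * x) + (ε / 4 * x * (L * Real.log 2) + 4 * x)) := by
        simp only [Real.exp_add]; ring
    _ ≤ _ := by
        rw [Real.exp_le_exp, hW]
        -- main inequality
        have hA : (1 + ε / 2) * L ≤ (1 - ε / 2) * (m / 2) := by nlinarith
        have hB : (1 + ε / 2) * L * Real.log 2 ≤ (1 - ε / 2) * (m / 2) * Real.log 2 := by gcongr
        have hC : (k : ℝ) / 2 * Real.log 2 ≤ x := by nlinarith
        have hD : x * ((1 + ε / 2) * L * Real.log 2 + (4 * Real.log m + 17)) ≤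
            x * ((1 - ε / 2) * (m / 2) * Real.log 2 + (ε / 8 * Real.log 2) * m) := by
          gcongr
        nlinarith
end Pool.Agent.MP_d13902_co
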