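import Pool.Agent.MP_d13902_co.Low2

set_option autoImplicit false

open Finset
open scoped Classical

namespace Pool.Agent.MP_d13902_co

/-- extension by zero of a principal submatrix -/
noncomputable def ext {n : ℕ} (A : Matrix (Fin n) (Fin n) ℝ) (S : Finset (Fin n)) :
    Matrix (Fin n) (Fin n) ℝ :=
  fun i j => if i ∈ S ∧ j ∈ S then A i j else 0

theorem rank_ext_le {n : ℕ} (A : Matrix (Fin n) (Fin n) ℝ) (S : Finset (Fin n)) :
    (ext A S).rank ≤ (prin A S).rank := by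
  have h : ext A S = (Matrix.of fun (i : Fin n) (a : {x // x ∈ S}) => if i = a.1 then (1 : ℝ) else 0)
      * ((prin A S) *
        (Matrix.of fun (a : {x // x ∈ S}) (j : Fin n) => if a.1 = j then (1 : ℝ) else 0)) := by
    ext i j
    rw [Matrix.mul_apply]
    simp only [Matrix.mul_apply, Matrix.of_apply, prin, Matrix.submatrix_apply]
    by_cases hi : i ∈ S
    · rw [Finset.sum_eq_single ⟨i, hi⟩]
      · by_cases hj : j ∈ S
        · rw [Finset.sum_eq_single ⟨j, hj⟩]
          · simp [ext, hi, hj]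
          · intro b _ hb
            have : b.1 ≠ j := fun h => hb (Subtype.ext h)
            simp [this]
          · simp
        · have : ∀ x : {x // x ∈ S}, ¬ (x.1 = j) := fun x hx => hj (hx ▸ x.2)
          simp [ext, hj, this]
      · intro b _ hb
        have : ¬ (i = b.1) := fun h => hb (Subtype.ext h.symm)
        simp [this]
      · simp
    · have : ∀ x : {x // x ∈ S}, ¬ (i = x.1) := fun x hx => hi (hx ▸ x.2)
      simp [ext, hi, this]
  rw [h]
  exact (Matrix.rank_mul_le_right _ _).trans (Matrix.rank_mul_le_left _ _)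

noncomputable def b1 (ε : ℝ) (r k W : ℕ) : ℕ := ⌊(1 + ε / 4) * r * W / k⌋₊
noncomputable def b2 (ε : ℝ) (r k W : ℕ) : ℕ := ⌊ε / 4 * r * W / k⌋₊

/-- support of the principal part -/
noncomputable def supp {n : ℕ} (A : Matrix (Fin n) (Fin n) ℝ) (S : Finset (Fin n)) :
    Finset (Fin n × Fin n) :=
  univ.filter (fun p => p.1 ∈ S ∧ p.2 ∈ S ∧ A p.1 p.2 ≠ 0)

/-- neighbourhoods -/
noncomputable def Nb {n : ℕ} (A : Matrix (Fin n) (Fin n) ℝ) (S : Finset (Fin n))
    (v : {x // x ∈ S}) : Finset {x // x ∈ S} :=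
  univ.filter (fun j => prin A S v j ≠ 0 ∨ prin A S j v ≠ 0)

theorem mem_Nb {n : ℕ} (A : Matrix (Fin n) (Fin n) ℝ) (S : Finset (Fin n))
    (v w : {x // x ∈ S}) : w ∈ Nb A S v ↔ A v.1 w.1 ≠ 0 ∨ A w.1 v.1 ≠ 0 := by
  rw [Nb, mem_filter]
  exact ⟨fun h => h.2, fun h => ⟨mem_univ _, h⟩⟩

theorem mem_supp {n : ℕ} (A : Matrix (Fin n) (Fin n) ℝ) (S : Finset (Fin n))
    (p : Fin n × Fin n) : p ∈ supp A S ↔ p.1 ∈ S ∧ p.2 ∈ S ∧ A p.1 p.2 ≠ 0 := by
  simp only [supp, mem_filter, mem_univ, true_and]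

theorem mem_sym {n : ℕ} (σ : Finset (Fin n × Fin n))
    (p : Fin n × Fin n) : p ∈ sym σ ↔ p ∈ σ ∨ p.swap ∈ σ := by
  simp only [sym, mem_filter, mem_univ, true_and]

theorem card_sym_filter {n : ℕ} (A : Matrix (Fin n) (Fin n) ℝ) (S : Finset (Fin n))
    (U : Finset {x // x ∈ S}) :
    ((sym (supp A S)).filter (fun p => ∃ u ∈ U, u.1 = p.1)).card =
      ∑ v ∈ U, (Nb A S v).card := by
  rw [← Finset.card_sigma]
  symm
  apply Finset.card_bij (fun (a : (_ : {x // x ∈ S}) × {x // x ∈ S}) _ => (a.1.1, a.2.1))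
  · rintro ⟨v, w⟩ h
    rw [mem_sigma, mem_Nb] at h
    rw [mem_filter, mem_sym, mem_supp, mem_supp]
    refine ⟨?_, ⟨v, h.1, rfl⟩⟩
    rcases h.2 with h2 | h2
    · exact Or.inl ⟨v.2, w.2, h2⟩
    · exact Or.inr ⟨w.2, v.2, h2⟩
  · rintro ⟨v, w⟩ _ ⟨v', w'⟩ _ h
    simp only [Prod.mk.injEq] at h
    have h1 : v = v' := Subtype.ext h.1
    have h2 : w = w' := Subtype.ext h.2
    subst h1; subst h2; rfl
  · rintro ⟨i, j⟩ h
    rw [mem_filter, mem_sym, mem_supp, mem_supp] at h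
    obtain ⟨h1, u, hu, hui⟩ := h
    have hj : j ∈ S := by
      rcases h1 with h1 | h1
      · exact h1.2.1
      · exact h1.1
    refine ⟨⟨u, ⟨j, hj⟩⟩, ?_, ?_⟩
    · rw [mem_sigma, mem_Nb]
      refine ⟨hu, ?_⟩
      rw [hui]
      rcases h1 with h1 | h1
      · exact Or.inl h1.2.2
      · exact Or.inr h1.2.2
    · simp [hui]

theorem exists_cert (ε : ℝ) (hε : 0 < ε) : ∃ m₀ : ℝ, ∀ (n : ℕ), 2 ≤ n →
    m₀ ≤ 2 * Real.logb 2 n → ε < 1 → ∀ G : SimpleGraph (Fin n),
    ∀ A : Matrix (Fin n) (Fin n) ℝ, (∀ i, A i i ≠ 0) → (∀ i j, i ≠ j → ¬ G.Adj i j → A i j = 0) →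
    (A.rank : ℝ) < (1 - ε) * (n / (2 * Real.logb 2 n)) →
    ∃ r k W : ℕ, ∃ eR eC : Fin r → Fin n, ∃ σ : Finset (Fin n × Fin n),
      IsCert k W (b1 ε r k W) (b2 ε r k W) eR eC σ ∧ supG σ ≤ G ∧ 1 ≤ r ∧ r ≤ n ∧ k ≤ n ∧ W ≤ n ^ 2 ∧
      2 * Real.logb 2 n * r ≤ (1 - ε) * k ∧ k ^ 2 ≤ r * W := by
  obtain ⟨m₀, hm₀, hA⟩ := lemmaA (ε / 4) (by positivity)
  refine ⟨m₀, ?_⟩
  intro n hn hL hε1 G A hdiag hsupp hrank
  set L := Real.logb 2 n with hLdef
  have hn0 : (0 : ℝ) < n := by positivity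
  have hL1 : 1 ≤ L := by
    rw [hLdef, Real.le_logb_iff_rpow_le (by norm_num) hn0]
    simpa using (by exact_mod_cast hn : (2 : ℝ) ≤ n)
  have : Nonempty (Fin n) := ⟨⟨0, by omega⟩⟩
  obtain ⟨S, hS, h1, h2, h3⟩ := exists_dense A
  set M := prin A S with hM
  obtain ⟨r, hr⟩ : ∃ r, M.rank = r := ⟨_, rfl⟩
  obtain ⟨k, hk⟩ : ∃ k, S.card = k := ⟨_, rfl⟩
  rw [hr, hk, Fintype.card_fin] at h1
  rw [hr, hk] at h2 h3
  have hk1 : 1 ≤ k := by rw [← hk]; exact hS.card_pos
  have hcardV : Fintype.card {x // x ∈ S} = k := by rw [Fintype.card_coe, hk]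
  have hMdiag : ∀ i, M i i ≠ 0 := fun i => hdiag i.1
  have hsupp2 : ∀ i, k ≤ r * (univ.filter (fun j => M i j ≠ 0)).card := by
    intro i
    have := support_ge M hMdiag (by
      intro X
      rw [hr, hcardV]
      exact h3 X) i
    rwa [hr, hcardV] at this
  have hN : ∀ v, k ≤ r * (Nb A S v).card := by
    intro v
    refine (hsupp2 v).trans (Nat.mul_le_mul_left _ (card_le_card ?_))
    intro j hj
    rw [mem_Nb]
    exact Or.inl (mem_filter.1 hj).2
  have hr1 : 1 ≤ r := by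
    obtain ⟨i, hi⟩ := hS
    have := hsupp2 ⟨i, hi⟩
    by_contra hcon
    have : r = 0 := by omega
    subst this
    simp at this
    omega
  have hkey : 2 * L * r ≤ (1 - ε) * k := by
    have h1' : (r : ℝ) * n ≤ k * A.rank := by exact_mod_cast h1
    have h2' : (k : ℝ) * A.rank ≤ k * ((1 - ε) * (n / (2 * L))) := by
      gcongr
    have h3' : (r : ℝ) * n ≤ k * ((1 - ε) * (n / (2 * L))) := h1'.trans h2'
    have h4' : (k : ℝ) * ((1 - ε) * (n / (2 * L))) = ((1 - ε) * k / (2 * L)) * n := by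
      field_simp
    rw [h4'] at h3'
    have h5' := le_of_mul_le_mul_right h3' hn0
    rw [le_div_iff₀ (by positivity)] at h5'
    linarith
  have hk0 : (0 : ℝ) < k := by exact_mod_cast hk1
  have hr0 : (0 : ℝ) < r := by exact_mod_cast hr1
  have hm0r : m₀ * r ≤ k := by
    have : m₀ * r ≤ 2 * L * r := by gcongr
    nlinarith
  obtain ⟨R, C, hR, hR', hC, hC', hw, hi⟩ := hA {x // x ∈ S} (rowFn M) (colFn M) r k
    (isRankFn_rowFn M) (isRankFn_rowFn M.transpose) (by omega) hcardV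
    (by rw [rowFn_univ, hr]) (by unfold colFn; rw [rowFn_univ, Matrix.rank_transpose, hr])
    h2 h3 (Nb A S) (by
      intro v
      rw [mem_Nb]
      exact Or.inl (hMdiag v)) (by
      intro u v
      rw [mem_Nb, mem_Nb]
      exact or_comm) hN hm0r
  -- enumerations
  let eR' : Fin r → {x // x ∈ S} := fun a => ((Finset.equivFinOfCardEq hR).symm a).1
  let eC' : Fin r → {x // x ∈ S} := fun a => ((Finset.equivFinOfCardEq hC).symm a).1
  have heR' : Set.range eR' = (R : Set {x // x ∈ S}) := by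
    ext v
    constructor
    · rintro ⟨a, rfl⟩
      exact ((Finset.equivFinOfCardEq hR).symm a).2
    · intro hv
      exact ⟨Finset.equivFinOfCardEq hR ⟨v, hv⟩, by simp [eR']⟩
  have heC' : Set.range eC' = (C : Set {x // x ∈ S}) := by
    ext v
    constructor
    · rintro ⟨a, rfl⟩
      exact ((Finset.equivFinOfCardEq hC).symm a).2
    · intro hv
      exact ⟨Finset.equivFinOfCardEq hC ⟨v, hv⟩, by simp [eC']⟩
  have hdet : (M.submatrix eR' eC').det ≠ 0 :=
    basis_det M r hr R C hR hC hR' hC' eR' eC' heR' heC'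
  have hmemR : ∀ v : {x // x ∈ S}, v.1 ∈ Set.range (fun a => (eR' a).1) ↔ v ∈ R := by
    intro v
    rw [← Finset.mem_coe, ← heR']
    constructor
    · rintro ⟨a, ha⟩
      exact ⟨a, Subtype.ext ha⟩
    · rintro ⟨a, ha⟩
      exact ⟨a, by rw [← ha]⟩
  have hmemC : ∀ v : {x // x ∈ S}, v.1 ∈ Set.range (fun a => (eC' a).1) ↔ v ∈ C := by
    intro v
    rw [← Finset.mem_coe, ← heC']
    constructor
    · rintro ⟨a, ha⟩
      exact ⟨a, Subtype.ext ha⟩
    · rintro ⟨a, ha⟩
      exact ⟨a, by rw [← ha]⟩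
  have hrangeR : ∀ i, i ∈ Set.range (fun a => (eR' a).1) → i ∈ S := by
    rintro i ⟨a, rfl⟩
    exact (eR' a).2
  have hrangeC : ∀ i, i ∈ Set.range (fun a => (eC' a).1) → i ∈ S := by
    rintro i ⟨a, rfl⟩
    exact (eC' a).2
  set W := ∑ v, (Nb A S v).card with hWdef
  have hWsym : (sym (supp A S)).card = W := by
    rw [hWdef, ← card_sym_filter]
    congr 1
    symm
    rw [Finset.filter_eq_self]
    rintro ⟨i, j⟩ hp
    rw [mem_sym, mem_supp, mem_supp] at hp
    have hi : i ∈ S := by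
      rcases hp with h | h
      · exact h.1
      · exact h.2.1
    exact ⟨⟨i, hi⟩, mem_univ _, rfl⟩
  have hWcast : (W : ℝ) = ∑ v, ((Nb A S v).card : ℝ) := by rw [hWdef]; push_cast; rfl
  refine ⟨r, k, W, fun a => (eR' a).1, fun a => (eC' a).1, supp A S, ?_, ?_, hr1, ?_, ?_, ?_, hkey, ?_⟩
  · constructor
    · exact hWsym
    · rw [← hk]
      congr 1
      ext i
      rw [diag, mem_filter, mem_supp]
      exact ⟨fun h => h.2.1, fun h => ⟨mem_univ _, h, h, hdiag i⟩⟩
    · refine ⟨ext A S, ?_, ?_, ?_⟩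
      · intro i j
        rw [mem_supp]
        simp only [ext]
        by_cases h : i ∈ S ∧ j ∈ S
        · rw [if_pos h]; tauto
        · rw [if_neg h]; tauto
      · have : (ext A S).submatrix (fun a => (eR' a).1) (fun a => (eC' a).1) =
            M.submatrix eR' eC' := by
          ext a b
          simp [ext, hM, prin]
        rw [this]
        exact hdet
      · exact (rank_ext_le A S).trans hr.le
    · -- B₁
      unfold b1
      apply Nat.le_floor
      rw [le_div_iff₀ hk0, hWcast]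
      have hQ : (Qs (fun a => (eR' a).1) (fun a => (eC' a).1) (supp A S)).card =
          ∑ v ∈ R ∪ C, (Nb A S v).card := by
        rw [← card_sym_filter]
        congr 1
        apply Finset.filter_congr
        rintro ⟨i, j⟩ _
        constructor
        · rintro (h | h)
          · exact ⟨⟨i, hrangeR i h⟩, mem_union_left _ ((hmemR ⟨i, hrangeR i h⟩).1 h), rfl⟩
          · exact ⟨⟨i, hrangeC i h⟩, mem_union_right _ ((hmemC ⟨i, hrangeC i h⟩).1 h), rfl⟩
        · rintro ⟨u, hu, rfl⟩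
          rcases mem_union.1 hu with hu | hu
          · exact Or.inl ((hmemR u).2 hu)
          · exact Or.inr ((hmemC u).2 hu)
      rw [hQ]
      push_cast
      linarith
    · -- B₂
      unfold b2
      apply Nat.le_floor
      rw [le_div_iff₀ hk0, hWcast]
      have hK : (Ks (fun a => (eR' a).1) (fun a => (eC' a).1) (supp A S)).card ≤
          (((R ∪ C) ×ˢ (R ∪ C)).filter (fun p => p.1 ∈ Nb A S p.2)).card := by
        have : Ks (fun a => (eR' a).1) (fun a => (eC' a).1) (supp A S) ⊆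
            (((R ∪ C) ×ˢ (R ∪ C)).filter (fun p => p.1 ∈ Nb A S p.2)).image
              (fun p => (p.1.1, p.2.1)) := by
          rintro ⟨i, j⟩ hp
          rw [Ks, mem_filter, mem_supp] at hp
          obtain ⟨⟨hiS, hjS, hAij⟩, hi, hj⟩ := hp
          rw [mem_image]
          refine ⟨(⟨i, hiS⟩, ⟨j, hjS⟩), ?_, rfl⟩
          rw [mem_filter, mem_product, mem_union, mem_union, mem_Nb]
          exact ⟨⟨Or.inl ((hmemR ⟨i, hiS⟩).1 hi), Or.inr ((hmemC ⟨j, hjS⟩).1 hj)⟩, Or.inr hAij⟩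
        exact (card_le_card this).trans card_image_le
      have hK' : ((Ks (fun a => (eR' a).1) (fun a => (eC' a).1) (supp A S)).card : ℝ) ≤
          ((((R ∪ C) ×ˢ (R ∪ C)).filter (fun p => p.1 ∈ Nb A S p.2)).card : ℝ) := by
        exact_mod_cast hK
      nlinarith
  · intro i j h
    obtain ⟨hij, h⟩ := h
    rw [mem_supp, mem_supp] at h
    by_contra hadj
    rcases h with h | h
    · exact h.2.2 (hsupp i j hij hadj)
    · exact h.2.2 (hsupp j i hij.symm (fun h' => hadj h'.symm))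
  · have h5 : (r : ℝ) ≤ k := by nlinarith
    have h6 : k ≤ n := by
      rw [← hk]
      exact (card_le_univ S).trans (by simp)
    have h7 : r ≤ k := by exact_mod_cast h5
    omega
  · rw [← hk]
    exact (card_le_univ S).trans (by simp)
  · rw [← hWsym]
    exact card_sym_le _
  · calc k ^ 2 = ∑ v : {x // x ∈ S}, k := by
          rw [Finset.sum_const, Finset.card_univ, hcardV, smul_eq_mul, sq]
      _ ≤ ∑ v : {x // x ∈ S}, r * (Nb A S v).card := Finset.sum_le_sum (fun v _ => hN v)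
      _ = r * W := by rw [hWdef, Finset.mul_sum]

end Pool.Agent.MP_d13902_co
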