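import Pool.Agent.MP_d13902_co.Low3
import Pool.Agent.MP_d13902_co.Low4

set_option autoImplicit false

open Finset
open scoped Classical

namespace Pool.Agent.MP_d13902_co

theorem card_G_le {n : ℕ} (r k W B₁ B₂ e : ℕ) (he : 2 * e + k = W) :
    (univ.filter (fun G : SimpleGraph (Fin n) => ∃ eR eC : Fin r → Fin n,
      ∃ σ : Finset (Fin n × Fin n), IsCert k W B₁ B₂ eR eC σ ∧ supG σ ≤ G)).card * 2 ^ e ≤
    n ^ (2 * r) * ((∑ j ∈ range (B₁ + 1), (2 * r * n).choose j) * (4 ^ B₁ *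
        ((2 * W + 2 * B₁).choose (2 * B₁) * ((r + 2) * W + B₂).choose B₂))) *
      Fintype.card (SimpleGraph (Fin n)) := by
  set K := (∑ j ∈ range (B₁ + 1), (2 * r * n).choose j) * (4 ^ B₁ *
        ((2 * W + 2 * B₁).choose (2 * B₁) * ((r + 2) * W + B₂).choose B₂)) with hK
  have hsub : (univ.filter (fun G : SimpleGraph (Fin n) => ∃ eR eC : Fin r → Fin n,
      ∃ σ : Finset (Fin n × Fin n), IsCert k W B₁ B₂ eR eC σ ∧ supG σ ≤ G)) ⊆
      (univ : Finset ((Fin r → Fin n) × (Fin r → Fin n))).biUnion (fun p =>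
        (univ.filter (fun σ => IsCert k W B₁ B₂ p.1 p.2 σ)).biUnion (fun σ =>
          univ.filter (fun G : SimpleGraph (Fin n) => supG σ ≤ G))) := by
    intro G hG
    rw [mem_filter] at hG
    obtain ⟨-, eR, eC, σ, h1, h2⟩ := hG
    rw [mem_biUnion]
    refine ⟨(eR, eC), mem_univ _, ?_⟩
    rw [mem_biUnion]
    exact ⟨σ, mem_filter.2 ⟨mem_univ _, h1⟩, mem_filter.2 ⟨mem_univ _, h2⟩⟩
  have h1 : ∀ p : (Fin r → Fin n) × (Fin r → Fin n),
      ((univ.filter (fun σ => IsCert k W B₁ B₂ p.1 p.2 σ)).biUnion (fun σ =>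
          univ.filter (fun G : SimpleGraph (Fin n) => supG σ ≤ G))).card * 2 ^ e ≤
        K * Fintype.card (SimpleGraph (Fin n)) := by
    intro p
    calc _ ≤ (∑ σ ∈ univ.filter (fun σ => IsCert k W B₁ B₂ p.1 p.2 σ),
          (univ.filter (fun G : SimpleGraph (Fin n) => supG σ ≤ G)).card) * 2 ^ e :=
            Nat.mul_le_mul_right _ card_biUnion_le
      _ = ∑ σ ∈ univ.filter (fun σ => IsCert k W B₁ B₂ p.1 p.2 σ),
          (univ.filter (fun G : SimpleGraph (Fin n) => supG σ ≤ G)).card * 2 ^ e :=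
            Finset.sum_mul _ _ _
      _ ≤ ∑ σ ∈ univ.filter (fun σ => IsCert k W B₁ B₂ p.1 p.2 σ),
          Fintype.card (SimpleGraph (Fin n)) := by
          apply Finset.sum_le_sum
          intro σ hσ
          have hc := (mem_filter.1 hσ).2
          have h2 := two_mul_card_edge σ
          rw [hc.hsym, hc.hdiag] at h2
          have h3 : (supG σ).edgeFinset.card = e := by omega
          rw [← h3]
          exact card_supergraphs' (supG σ)
      _ = (univ.filter (fun σ => IsCert k W B₁ B₂ p.1 p.2 σ)).card *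
          Fintype.card (SimpleGraph (Fin n)) := by rw [Finset.sum_const, smul_eq_mul]
      _ ≤ K * Fintype.card (SimpleGraph (Fin n)) :=
          Nat.mul_le_mul_right _ (card_cert_le k W B₁ B₂ p.1 p.2)
  calc _ ≤ ((univ : Finset ((Fin r → Fin n) × (Fin r → Fin n))).biUnion (fun p =>
        (univ.filter (fun σ => IsCert k W B₁ B₂ p.1 p.2 σ)).biUnion (fun σ =>
          univ.filter (fun G : SimpleGraph (Fin n) => supG σ ≤ G)))).card * 2 ^ e :=
        Nat.mul_le_mul_right _ (card_le_card hsub)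
    _ ≤ (∑ p : (Fin r → Fin n) × (Fin r → Fin n),
        ((univ.filter (fun σ => IsCert k W B₁ B₂ p.1 p.2 σ)).biUnion (fun σ =>
          univ.filter (fun G : SimpleGraph (Fin n) => supG σ ≤ G))).card) * 2 ^ e :=
        Nat.mul_le_mul_right _ card_biUnion_le
    _ = ∑ p : (Fin r → Fin n) × (Fin r → Fin n),
        ((univ.filter (fun σ => IsCert k W B₁ B₂ p.1 p.2 σ)).biUnion (fun σ =>
          univ.filter (fun G : SimpleGraph (Fin n) => supG σ ≤ G))).card * 2 ^ e :=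
        Finset.sum_mul _ _ _
    _ ≤ ∑ p : (Fin r → Fin n) × (Fin r → Fin n), K * Fintype.card (SimpleGraph (Fin n)) :=
        Finset.sum_le_sum (fun p _ => h1 p)
    _ = n ^ (2 * r) * K * Fintype.card (SimpleGraph (Fin n)) := by
        rw [Finset.sum_const, smul_eq_mul, Finset.card_univ, Fintype.card_prod]
        simp only [Fintype.card_fun, Fintype.card_fin]
        ring

/-- real valued bound for one parameter triple -/
theorem card_G_le' (ε : ℝ) (hε : 0 < ε) (hε1 : ε < 1) (m₁ : ℝ) (hm₁ : 1 ≤ m₁)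
    (hm : ∀ m ≥ m₁, 4 * Real.log m + 17 ≤ (ε / 8 * Real.log 2) * m)
    (n r k W : ℕ) (hn : 2 ≤ n) (hL : m₁ ≤ 2 * Real.logb 2 n)
    (hr : 1 ≤ r) (hkn : k ≤ n)
    (h1 : 2 * Real.logb 2 n * r ≤ (1 - ε) * k) (h2 : k ^ 2 ≤ r * W) :
    ((univ.filter (fun G : SimpleGraph (Fin n) => ∃ eR eC : Fin r → Fin n,
      ∃ σ : Finset (Fin n × Fin n), IsCert k W (b1 ε r k W) (b2 ε r k W) eR eC σ ∧
        supG σ ≤ G)).card : ℝ) ≤
      Fintype.card (SimpleGraph (Fin n)) *
        Real.exp (-(ε / 2 * Real.log 2) * (Real.logb 2 n) ^ 2) := by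
  set L := Real.logb 2 n with hLdef
  have hlog2 : 0 < Real.log 2 := Real.log_pos (by norm_num)
  have hn0 : (0 : ℝ) < n := by positivity
  have hL1 : 1 ≤ L := by
    rw [hLdef, Real.le_logb_iff_rpow_le (by norm_num) hn0]
    simpa using (by exact_mod_cast hn : (2 : ℝ) ≤ n)
  have hr1 : (1 : ℝ) ≤ r := by exact_mod_cast hr
  have hk0 : (0 : ℝ) < k := by
    by_contra hcon
    have hk : (k : ℝ) ≤ 0 := not_lt.1 hcon
    have : (k : ℝ) = 0 := le_antisymm hk (Nat.cast_nonneg _)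
    rw [this] at h1
    have : 0 < 2 * L * r := by positivity
    linarith
  by_cases hex : ∃ e, 2 * e + k = W
  · obtain ⟨e, he⟩ := hex
    have hb1 : ((b1 ε r k W : ℕ) : ℝ) * k ≤ (1 + ε / 4) * r * W := by
      have : ((b1 ε r k W : ℕ) : ℝ) ≤ (1 + ε / 4) * r * W / k := Nat.floor_le (by positivity)
      rwa [le_div_iff₀ hk0] at this
    have hb2 : ((b2 ε r k W : ℕ) : ℝ) * k ≤ ε / 4 * r * W := by
      have : ((b2 ε r k W : ℕ) : ℝ) ≤ ε / 4 * r * W / k := Nat.floor_le (by positivity)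
      rwa [le_div_iff₀ hk0] at this
    have hnum := numeric ε hε hε1 m₁ hm₁ hm n r k W (b1 ε r k W) (b2 ε r k W) e hn hL hr hkn
      h1 h2 hb1 hb2 he
    have hcard := card_G_le (n := n) r k W (b1 ε r k W) (b2 ε r k W) e he
    have hcard' : ((univ.filter (fun G : SimpleGraph (Fin n) => ∃ eR eC : Fin r → Fin n,
      ∃ σ : Finset (Fin n × Fin n), IsCert k W (b1 ε r k W) (b2 ε r k W) eR eC σ ∧
        supG σ ≤ G)).card : ℝ) * 2 ^ e ≤ (n : ℝ) ^ (2 * r) *
        (((∑ j ∈ range (b1 ε r k W + 1), (2 * r * n).choose j) * (4 ^ b1 ε r k W *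
        ((2 * W + 2 * b1 ε r k W).choose (2 * b1 ε r k W) *
          ((r + 2) * W + b2 ε r k W).choose (b2 ε r k W))) : ℕ) : ℝ) *
        (Fintype.card (SimpleGraph (Fin n)) : ℝ) := by
      exact_mod_cast hcard
    have hW4 : 4 * L ^ 2 ≤ W := by
      have h3 : 2 * L * r ≤ k := by nlinarith
      have h4 : (2 * L * r) ^ 2 ≤ (k : ℝ) ^ 2 := by
        apply pow_le_pow_left₀ (by positivity) h3
      have h5 : (k : ℝ) ^ 2 ≤ r * W := by exact_mod_cast h2
      have h6 : r * (4 * L ^ 2 * r) ≤ r * (W : ℝ) := by nlinarith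
      have h7 : 4 * L ^ 2 * r ≤ (W : ℝ) := le_of_mul_le_mul_left h6 (by linarith)
      nlinarith [sq_nonneg L]
    have h8 : Real.exp (-(ε / 8 * Real.log 2) * W) ≤
        Real.exp (-(ε / 2 * Real.log 2) * L ^ 2) := by
      rw [Real.exp_le_exp]
      have : 0 < ε / 8 * Real.log 2 := by positivity
      nlinarith
    have h9 := hcard'.trans (mul_le_mul_of_nonneg_right hnum (Nat.cast_nonneg _))
    have h10 : (0 : ℝ) < 2 ^ e := by positivity
    have h11 : ((univ.filter (fun G : SimpleGraph (Fin n) => ∃ eR eC : Fin r → Fin n,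
      ∃ σ : Finset (Fin n × Fin n), IsCert k W (b1 ε r k W) (b2 ε r k W) eR eC σ ∧
        supG σ ≤ G)).card : ℝ) ≤ Real.exp (-(ε / 8 * Real.log 2) * W) *
        (Fintype.card (SimpleGraph (Fin n)) : ℝ) := by
      apply le_of_mul_le_mul_right _ h10
      linarith
    refine h11.trans ?_
    rw [mul_comm]
    gcongr
  · have : (univ.filter (fun G : SimpleGraph (Fin n) => ∃ eR eC : Fin r → Fin n,
      ∃ σ : Finset (Fin n × Fin n), IsCert k W (b1 ε r k W) (b2 ε r k W) eR eC σ ∧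
        supG σ ≤ G)) = ∅ := by
      rw [Finset.filter_eq_empty_iff]
      rintro G _ ⟨eR, eC, σ, hc, -⟩
      apply hex
      have h2 := two_mul_card_edge σ
      rw [hc.hsym, hc.hdiag] at h2
      exact ⟨_, h2⟩
    rw [this]
    simp only [card_empty, Nat.cast_zero]
    positivity

theorem minrank_mem {n : ℕ} (G : SimpleGraph (Fin n)) : ∃ M : Matrix (Fin n) (Fin n) ℝ,
    (∀ i, M i i ≠ 0) ∧ (∀ i j, i ≠ j → ¬ G.Adj i j → M i j = 0) ∧ M.rank = minrank G := by
  have : ({r : ℕ | ∃ M : Matrix (Fin n) (Fin n) ℝ,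
    (∀ i, M i i ≠ 0) ∧ (∀ i j, i ≠ j → ¬ G.Adj i j → M i j = 0) ∧ M.rank = r}).Nonempty := by
    refine ⟨_, 1, ?_, ?_, rfl⟩
    · intro i; simp
    · intro i j hij _; simp [Matrix.one_apply, hij]
  exact Nat.sInf_mem this

theorem bad_card_le (ε : ℝ) (hε : 0 < ε) (hε1 : ε < 1) : ∃ m₂ : ℝ, ∀ n : ℕ, 2 ≤ n →
    m₂ ≤ 2 * Real.logb 2 n →
    ((univ.filter (fun G : SimpleGraph (Fin n) =>
        ¬ ((1 - ε) * (n / (2 * Real.logb 2 n)) ≤ (minrank G : ℝ)))).card : ℝ) ≤
      ((n + 1) * (n + 1) * (n ^ 2 + 1)) * (Fintype.card (SimpleGraph (Fin n)) *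
        Real.exp (-(ε / 2 * Real.log 2) * (Real.logb 2 n) ^ 2)) := by
  obtain ⟨m₀, hm₀⟩ := exists_cert ε hε
  have hlog2 : 0 < Real.log 2 := Real.log_pos (by norm_num)
  obtain ⟨m₁, hm₁, hm₁'⟩ := exists_m1 (ε / 8 * Real.log 2) (by positivity)
  refine ⟨max m₀ m₁, fun n hn hL => ?_⟩
  have hL0 := (le_max_left m₀ m₁).trans hL
  have hL1 := (le_max_right m₀ m₁).trans hL
  set 𝒯 : Finset (ℕ × ℕ × ℕ) := (range (n + 1) ×ˢ (range (n + 1) ×ˢ range (n ^ 2 + 1))).filter
    (fun t => 1 ≤ t.1 ∧ t.2.1 ≤ n ∧ 2 * Real.logb 2 n * t.1 ≤ (1 - ε) * t.2.1 ∧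
      t.2.1 ^ 2 ≤ t.1 * t.2.2) with h𝒯
  have hsub : (univ.filter (fun G : SimpleGraph (Fin n) =>
        ¬ ((1 - ε) * (n / (2 * Real.logb 2 n)) ≤ (minrank G : ℝ)))) ⊆
      𝒯.biUnion (fun t => univ.filter (fun G : SimpleGraph (Fin n) =>
        ∃ eR eC : Fin t.1 → Fin n, ∃ σ : Finset (Fin n × Fin n),
          IsCert t.2.1 t.2.2 (b1 ε t.1 t.2.1 t.2.2) (b2 ε t.1 t.2.1 t.2.2) eR eC σ ∧
            supG σ ≤ G)) := by
    intro G hG
    rw [mem_filter] at hG
    have hG2 := not_le.1 hG.2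
    obtain ⟨A, hA1, hA2, hA3⟩ := minrank_mem G
    rw [← hA3] at hG2
    obtain ⟨r, k, W, eR, eC, σ, hc, hs, hr1, hrn, hkn, hWn, hk1, hk2⟩ :=
      hm₀ n hn hL0 hε1 G A hA1 hA2 hG2
    rw [mem_biUnion]
    refine ⟨(r, k, W), ?_, ?_⟩
    · rw [h𝒯, mem_filter]
      refine ⟨?_, hr1, hkn, hk1, hk2⟩
      simp only [mem_product, mem_range]
      omega
    · rw [mem_filter]
      exact ⟨mem_univ _, eR, eC, σ, hc, hs⟩
  have hB : ∀ t ∈ 𝒯, ((univ.filter (fun G : SimpleGraph (Fin n) =>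
        ∃ eR eC : Fin t.1 → Fin n, ∃ σ : Finset (Fin n × Fin n),
          IsCert t.2.1 t.2.2 (b1 ε t.1 t.2.1 t.2.2) (b2 ε t.1 t.2.1 t.2.2) eR eC σ ∧
            supG σ ≤ G)).card : ℝ) ≤ Fintype.card (SimpleGraph (Fin n)) *
        Real.exp (-(ε / 2 * Real.log 2) * (Real.logb 2 n) ^ 2) := by
    intro t ht
    rw [h𝒯, mem_filter] at ht
    obtain ⟨-, h1, h2, h3, h4⟩ := ht
    exact card_G_le' ε hε hε1 m₁ hm₁ hm₁' n t.1 t.2.1 t.2.2 hn hL1 h1 h2 h3 h4
  calc ((univ.filter (fun G : SimpleGraph (Fin n) =>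
        ¬ ((1 - ε) * (n / (2 * Real.logb 2 n)) ≤ (minrank G : ℝ)))).card : ℝ)
      ≤ ∑ t ∈ 𝒯, ((univ.filter (fun G : SimpleGraph (Fin n) =>
        ∃ eR eC : Fin t.1 → Fin n, ∃ σ : Finset (Fin n × Fin n),
          IsCert t.2.1 t.2.2 (b1 ε t.1 t.2.1 t.2.2) (b2 ε t.1 t.2.1 t.2.2) eR eC σ ∧
            supG σ ≤ G)).card : ℝ) := by
        have := (card_le_card hsub).trans card_biUnion_le
        exact_mod_cast this
    _ ≤ ∑ t ∈ 𝒯, (Fintype.card (SimpleGraph (Fin n)) *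
        Real.exp (-(ε / 2 * Real.log 2) * (Real.logb 2 n) ^ 2)) := Finset.sum_le_sum hB
    _ = (𝒯.card : ℝ) * (Fintype.card (SimpleGraph (Fin n)) *
        Real.exp (-(ε / 2 * Real.log 2) * (Real.logb 2 n) ^ 2)) := by
        rw [Finset.sum_const, nsmul_eq_mul]
    _ ≤ _ := by
        gcongr
        have : 𝒯.card ≤ (n + 1) * (n + 1) * (n ^ 2 + 1) := by
          calc 𝒯.card ≤ (range (n + 1) ×ˢ (range (n + 1) ×ˢ range (n ^ 2 + 1))).card :=
                card_filter_le _ _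
            _ = (n + 1) * (n + 1) * (n ^ 2 + 1) := by
                simp only [card_product, card_range]; ring
        exact_mod_cast this

theorem card_compl_frac {n : ℕ} (p : SimpleGraph (Fin n) → Prop) :
    ((univ.filter p).card : ℝ) / (Fintype.card (SimpleGraph (Fin n)) : ℝ) =
      1 - ((univ.filter (fun G => ¬ p G)).card : ℝ) / (Fintype.card (SimpleGraph (Fin n)) : ℝ) := by
  have h := Finset.card_filter_add_card_filter_not (s := (univ : Finset (SimpleGraph (Fin n)))) p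
  have h0 : (0 : ℝ) < (Fintype.card (SimpleGraph (Fin n)) : ℝ) := by
    exact_mod_cast Fintype.card_pos
  rw [eq_sub_iff_add_eq, ← add_div, div_eq_one_iff_eq h0.ne']
  rw [← Finset.card_univ]
  exact_mod_cast h

theorem tendsto_frac {p : (n : ℕ) → SimpleGraph (Fin n) → Prop} {f : ℕ → ℝ}
    (hf : Filter.Tendsto f Filter.atTop (nhds 0))
    (h : ∀ᶠ n in Filter.atTop, ((univ.filter (fun G => ¬ p n G)).card : ℝ) ≤
      f n * (Fintype.card (SimpleGraph (Fin n)) : ℝ)) :
    Filter.Tendsto (fun n : ℕ => ((univ.filter (p n)).card : ℝ) /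
        (Fintype.card (SimpleGraph (Fin n)) : ℝ)) Filter.atTop (nhds 1) := by
  have h1 : Filter.Tendsto (fun n : ℕ => ((univ.filter (fun G => ¬ p n G)).card : ℝ) /
      (Fintype.card (SimpleGraph (Fin n)) : ℝ)) Filter.atTop (nhds 0) := by
    apply squeeze_zero' (g := f) _ _ hf
    · exact Filter.Eventually.of_forall (fun n => by positivity)
    · filter_upwards [h] with n hn
      rw [div_le_iff₀]
      · exact hn
      · exact_mod_cast Fintype.card_pos
  have h2 := h1.const_sub 1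
  rw [sub_zero] at h2
  refine h2.congr (fun n => ?_)
  rw [card_compl_frac]

theorem tendsto_aux (c : ℝ) (hc : 0 < c) : Filter.Tendsto (fun n : ℕ =>
    (((n : ℝ) + 1) * (n + 1) * (n ^ 2 + 1)) *
        Real.exp (-(c * Real.log 2) * (Real.logb 2 n) ^ 2)) Filter.atTop (nhds 0) := by
  have hlog2 : 0 < Real.log 2 := Real.log_pos (by norm_num)
  have hlogb : Filter.Tendsto (fun n : ℕ => Real.logb 2 n) Filter.atTop Filter.atTop :=
    (Real.tendsto_logb_atTop (by norm_num)).comp tendsto_natCast_atTop_atTop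
  have hdom : Filter.Tendsto (fun n : ℕ => 8 * Real.exp (-(Real.logb 2 n))) Filter.atTop (nhds 0) := by
    have := (Real.tendsto_exp_neg_atTop_nhds_zero.comp hlogb).const_mul 8
    simpa using this
  apply squeeze_zero' _ _ hdom
  · exact Filter.Eventually.of_forall (fun n => by positivity)
  · filter_upwards [hlogb.eventually_ge_atTop (5 / (c * Real.log 2)), Filter.eventually_ge_atTop 2,
      hlogb.eventually_ge_atTop 1] with n hn1 hn2 hn3
    have hn0 : (0 : ℝ) < n := by positivity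
    have hn2' : (2 : ℝ) ≤ n := by exact_mod_cast hn2
    have hpoly : (((n : ℝ) + 1) * (n + 1) * (n ^ 2 + 1)) ≤ 8 * (n : ℝ) ^ 4 := by
      have a1 : (n : ℝ) + 1 ≤ 2 * n := by linarith
      have a2 : (n : ℝ) ^ 2 + 1 ≤ 2 * n ^ 2 := by nlinarith
      calc (((n : ℝ) + 1) * (n + 1) * (n ^ 2 + 1)) ≤ (2 * n) * (2 * n) * (2 * n ^ 2) := by gcongr
        _ = 8 * (n : ℝ) ^ 4 := by ring
    have hlog : Real.log n = Real.logb 2 n * Real.log 2 := by
      rw [Real.logb, div_mul_cancel₀ _ hlog2.ne']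
    have hpow : (n : ℝ) ^ 4 = Real.exp (4 * (Real.logb 2 n * Real.log 2)) := by
      rw [← hlog]
      conv_lhs => rw [← Real.exp_log hn0]
      rw [← Real.exp_nat_mul]; norm_num
    calc _ ≤ (8 * (n : ℝ) ^ 4) * Real.exp (-(c * Real.log 2) * (Real.logb 2 n) ^ 2) := by gcongr
      _ = 8 * Real.exp (4 * (Real.logb 2 n * Real.log 2) +
          -(c * Real.log 2) * (Real.logb 2 n) ^ 2) := by
          rw [hpow, Real.exp_add]; ring
      _ ≤ 8 * Real.exp (-(Real.logb 2 n)) := by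
          gcongr
          set L := Real.logb 2 n
          have h5 : 5 ≤ (c * Real.log 2) * L := by
            have := (div_le_iff₀ (by positivity : 0 < c * Real.log 2)).1 hn1
            linarith
          have hlog2' : Real.log 2 < 0.7 := by have := Real.log_two_lt_d9; linarith
          nlinarith

theorem minrank_lower' (ε : ℝ) (hε : 0 < ε) :
    Filter.Tendsto (fun n : ℕ =>
      ((univ.filter (fun G : SimpleGraph (Fin n) =>
        (1 - ε) * (n / (2 * Real.logb 2 n)) ≤ (minrank G : ℝ))).card : ℝ) /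
        (Fintype.card (SimpleGraph (Fin n)) : ℝ)) Filter.atTop (nhds 1) := by
  by_cases hε1 : ε < 1
  · obtain ⟨m₂, hm₂⟩ := bad_card_le ε hε hε1
    have hlogb : Filter.Tendsto (fun n : ℕ => Real.logb 2 n) Filter.atTop Filter.atTop :=
      (Real.tendsto_logb_atTop (by norm_num)).comp tendsto_natCast_atTop_atTop
    apply tendsto_frac (tendsto_aux (ε / 2) (by positivity))
    filter_upwards [hlogb.eventually_ge_atTop (m₂ / 2), Filter.eventually_ge_atTop 2] with n h1 h2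
    refine (hm₂ n h2 (by linarith)).trans (le_of_eq ?_)
    ring
  · apply tendsto_frac (f := fun _ => 0) tendsto_const_nhds
    filter_upwards [Filter.eventually_ge_atTop 1] with n hn
    have : (univ.filter (fun G : SimpleGraph (Fin n) =>
        ¬ ((1 - ε) * (n / (2 * Real.logb 2 n)) ≤ (minrank G : ℝ)))) = ∅ := by
      rw [Finset.filter_eq_empty_iff]
      intro G _
      rw [not_not]
      have h1 : 0 ≤ (n : ℝ) / (2 * Real.logb 2 n) := by
        apply div_nonneg (Nat.cast_nonneg _)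
        have : 0 ≤ Real.logb 2 n := Real.logb_nonneg (by norm_num) (by exact_mod_cast hn)
        linarith
      have h2 : (1 - ε) * ((n : ℝ) / (2 * Real.logb 2 n)) ≤ 0 :=
        mul_nonpos_of_nonpos_of_nonneg (by linarith) h1
      exact h2.trans (Nat.cast_nonneg _)
    rw [this]
    simp

end Pool.Agent.MP_d13902_co
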